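import Mathlib

/-! Nilpotency from the relation `F a - a F = u a` in the associated graded algebra. -/

set_option autoImplicit false

namespace Pool.Agent.R417.GE

open Polynomial IsLocalRing

section

variable {A : Type} [CommRing A] [IsLocalRing A]

theorem bezout (P : A[X]) (hP : P.Monic) (u : A) (L : ℕ) (hL : 0 < L)
    (h : ∀ x : AlgebraicClosure (ResidueField A), ∃ i < L,
      ¬ ((P.map (residue A)).map (algebraMap (ResidueField A)
        (AlgebraicClosure (ResidueField A)))).IsRoot
        (x - i * algebraMap (ResidueField A) (AlgebraicClosure (ResidueField A)) (residue A u))) :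
    ∃ R : Fin L → A[X], ∃ S : A[X], (∀ i, S.coeff i ∈ maximalIdeal A) ∧
      1 = (∑ j, R j * P.comp (X - C (((j : ℕ) : A) * u))) + S := by
  classical
  set Q : Fin L → (ResidueField A)[X] := fun j =>
    (P.map (residue A)).comp (X - C (((j : ℕ) : ResidueField A) * residue A u)) with hQ
  have htop : Ideal.span (Set.range Q) = ⊤ := by
    by_contra hne
    obtain ⟨d, hd⟩ := IsPrincipalIdealRing.principal (Ideal.span (Set.range Q))
    have hdvd : ∀ j, d ∣ Q j := by
      intro j
      rw [← Ideal.mem_span_singleton]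
      have h1 : Q j ∈ Ideal.span (Set.range Q) := Ideal.subset_span ⟨j, rfl⟩
      rw [hd] at h1
      exact h1
    have hd0 : d ≠ 0 := by
      rintro rfl
      have h1 := hdvd ⟨0, hL⟩
      rw [zero_dvd_iff] at h1
      have h2 : (P.map (residue A)).Monic := hP.map _
      have h3 : Q ⟨0, hL⟩ = P.map (residue A) := by
        simp [hQ]
      rw [h3] at h1
      exact h2.ne_zero h1
    have hdeg : d.degree ≠ 0 := by
      intro h0
      apply hne
      rw [hd]
      show Ideal.span {d} = ⊤
      rw [Ideal.span_singleton_eq_top]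
      exact Polynomial.isUnit_iff_degree_eq_zero.2 h0
    obtain ⟨x, hx⟩ := IsAlgClosed.exists_aeval_eq_zero (AlgebraicClosure (ResidueField A)) d hdeg
    obtain ⟨i, hi, hix⟩ := h x
    apply hix
    have h4 : aeval x (Q ⟨i, hi⟩) = 0 := by
      obtain ⟨e, he⟩ := hdvd ⟨i, hi⟩
      rw [he, map_mul, hx, zero_mul]
    rw [hQ] at h4
    simp only [aeval_comp, map_sub, map_mul, aeval_X, aeval_C, map_natCast] at h4
    rw [IsRoot.def, eval_map_algebraMap]
    exact h4
  have h1 : (1 : (ResidueField A)[X]) ∈ Ideal.span (Set.range Q) := by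
    rw [htop]
    trivial
  obtain ⟨c, hc⟩ := Ideal.mem_span_range_iff_exists_fun.1 h1
  have hsurj : Function.Surjective (Polynomial.map (residue A)) :=
    Polynomial.map_surjective (residue A) residue_surjective
  choose R hR using fun j => hsurj (c j)
  refine ⟨R, 1 - ∑ j, R j * P.comp (X - C (((j : ℕ) : A) * u)), fun i => ?_, by ring⟩
  rw [← residue_eq_zero_iff, ← Polynomial.coeff_map]
  have h2 : (1 - ∑ j, R j * P.comp (X - C (((j : ℕ) : A) * u))).map (residue A) = 0 := by
    rw [Polynomial.map_sub, Polynomial.map_one, Polynomial.map_sum, sub_eq_zero, ← hc]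
    refine Finset.sum_congr rfl fun j _ => ?_
    rw [Polynomial.map_mul, hR, Polynomial.map_comp, Polynomial.map_sub, Polynomial.map_X,
      Polynomial.map_C, map_mul, map_natCast]
  rw [h2, coeff_zero]

end

section

variable {A : Type} [CommRing A] {n : ℕ}

theorem aeval_stable {G : Matrix (Fin n) (Fin n) A} {N : Submodule A (Matrix (Fin n) (Fin n) A)}
    (hG : ∀ v ∈ N, G * v ∈ N) (R : A[X]) : ∀ v ∈ N, aeval G R * v ∈ N := by
  intro v hv
  have h1 : ∀ i : ℕ, G ^ i * v ∈ N := by
    intro i
    induction i with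
    | zero => rw [pow_zero, one_mul]; exact hv
    | succ i ih => rw [pow_succ', mul_assoc]; exact hG _ ih
  rw [aeval_eq_sum_range, Finset.sum_mul]
  exact N.sum_mem fun i _ => by
    rw [smul_mul_assoc]
    exact N.smul_mem _ (h1 i)

theorem smul_stable {Z : Matrix (Fin n) (Fin n) A}
    {N N' : Submodule A (Matrix (Fin n) (Fin n) A)} (J : Ideal A) (h : ∀ v ∈ N, Z * v ∈ N') :
    ∀ v ∈ J • N, Z * v ∈ J • N' := by
  intro v hv
  induction hv using Submodule.smul_induction_on' with
  | smul r hr z hz =>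
    rw [mul_smul_comm]
    exact Submodule.smul_mem_smul hr (h z hz)
  | add z _ w _ h6 h7 =>
    rw [mul_add]
    exact Submodule.add_mem _ h6 h7

theorem sup_stable {Z : Matrix (Fin n) (Fin n) A}
    {N1 N2 N1' N2' : Submodule A (Matrix (Fin n) (Fin n) A)} (J : Ideal A)
    (h1 : ∀ v ∈ N1, Z * v ∈ N1') (h2 : ∀ v ∈ N2, Z * v ∈ N2') :
    ∀ v ∈ N1 ⊔ J • N2, Z * v ∈ N1' ⊔ J • N2' := by
  intro v hv
  obtain ⟨x, hx, y, hy, rfl⟩ := Submodule.mem_sup.1 hv
  rw [mul_add]
  exact Submodule.add_mem_sup (h1 x hx) (smul_stable J h2 y hy)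

/-- commuting a polynomial past `a` -/
theorem comm_poly {G a : Matrix (Fin n) (Fin n) A} {u : A}
    {M N : Submodule A (Matrix (Fin n) (Fin n) A)} (hGM : ∀ v ∈ M, G * v ∈ M)
    (hGN : ∀ v ∈ N, G * v ∈ N)
    (hrel : ∀ v ∈ M, (G - u • 1) * (a * v) - a * (G * v) ∈ N) (R : A[X]) :
    ∀ v ∈ M, aeval (G - u • 1) R * (a * v) - a * (aeval G R * v) ∈ N := by
  intro v hv
  have h1 : ∀ i : ℕ, G ^ i * v ∈ M ∧ (G - u • 1) ^ i * (a * v) - a * (G ^ i * v) ∈ N := by
    intro i
    induction i with
    | zero =>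
      refine ⟨by rw [pow_zero, one_mul]; exact hv, ?_⟩
      rw [pow_zero, pow_zero, one_mul, one_mul, sub_self]
      exact N.zero_mem
    | succ i ih =>
      obtain ⟨ih1, ih2⟩ := ih
      refine ⟨by rw [pow_succ', mul_assoc]; exact hGM _ ih1, ?_⟩
      have h2 : (G - u • 1) ^ (i + 1) * (a * v) - a * (G ^ (i + 1) * v) =
          (G * ((G - u • 1) ^ i * (a * v) - a * (G ^ i * v)) -
            u • ((G - u • 1) ^ i * (a * v) - a * (G ^ i * v))) +
          ((G - u • 1) * (a * (G ^ i * v)) - a * (G * (G ^ i * v))) := by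
        rw [pow_succ', pow_succ' G]
        generalize (G - u • 1) ^ i = B
        simp only [sub_mul, mul_sub, smul_mul_assoc, one_mul, smul_sub, mul_assoc]
        abel
      rw [h2]
      exact N.add_mem (N.sub_mem (hGN _ ih2) (N.smul_mem _ ih2)) (hrel _ ih1)
  have h3 : aeval (G - u • 1) R * (a * v) - a * (aeval G R * v) =
      ∑ i ∈ Finset.range (R.natDegree + 1),
        R.coeff i • ((G - u • 1) ^ i * (a * v) - a * (G ^ i * v)) := by
    rw [aeval_eq_sum_range, aeval_eq_sum_range, Finset.sum_mul, Finset.sum_mul, Finset.mul_sum,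
      ← Finset.sum_sub_distrib]
    refine Finset.sum_congr rfl fun i _ => ?_
    rw [smul_mul_assoc, smul_mul_assoc, mul_smul_comm, smul_sub]
  rw [h3]
  exact N.sum_mem fun i _ => N.smul_mem _ (h1 i).2

/-- the modules `I ^ i M_n(A)` -/
def MM {H : Type} (a : H → Matrix (Fin n) (Fin n) A) (i : ℕ) :
    Submodule A (Matrix (Fin n) (Fin n) A) :=
  Submodule.span A (Set.range a) ^ i * ⊤

theorem MM_zero {H : Type} (a : H → Matrix (Fin n) (Fin n) A) : MM a 0 = ⊤ := by
  rw [MM, pow_zero, one_mul]

theorem MM_succ {H : Type} (a : H → Matrix (Fin n) (Fin n) A) (i : ℕ) :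
    MM a (i + 1) = Submodule.span A (Set.range a) * MM a i := by
  rw [MM, MM, pow_succ', mul_assoc]

theorem MM_mem {H : Type} (a : H → Matrix (Fin n) (Fin n) A) {i : ℕ} (g : H)
    {v : Matrix (Fin n) (Fin n) A} (hv : v ∈ MM a i) : a g * v ∈ MM a (i + 1) := by
  rw [MM_succ]
  exact Submodule.mul_mem_mul (Submodule.subset_span ⟨g, rfl⟩) hv

theorem MM_le {H : Type} (a : H → Matrix (Fin n) (Fin n) A) {i : ℕ}
    {N : Submodule A (Matrix (Fin n) (Fin n) A)} (h : ∀ g, ∀ v ∈ MM a i, a g * v ∈ N) :
    MM a (i + 1) ≤ N := by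
  rw [MM_succ, Submodule.mul_le]
  intro x hx v hv
  induction hx using Submodule.span_induction with
  | mem x hx =>
    obtain ⟨g, rfl⟩ := hx
    exact h g v hv
  | zero => rw [zero_mul]; exact N.zero_mem
  | add x y _ _ hx hy => rw [add_mul]; exact N.add_mem hx hy
  | smul r x _ hx => rw [smul_mul_assoc]; exact N.smul_mem _ hx

theorem MM_anti' {H : Type} (a : H → Matrix (Fin n) (Fin n) A) (i : ℕ) :
    MM a (i + 1) ≤ MM a i := by
  induction i with
  | zero => rw [MM_zero]; exact le_top
  | succ i ih =>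
    rw [MM_succ a (i + 1)]
    nth_rewrite 2 [MM_succ]
    exact mul_le_mul' le_rfl ih

theorem MM_anti {H : Type} (a : H → Matrix (Fin n) (Fin n) A) : Antitone (MM a) :=
  antitone_nat_of_succ_le (MM_anti' a)

theorem grad [IsLocalRing A] [IsNoetherianRing A] {H : Type}
    (a : H → Matrix (Fin n) (Fin n) A) (F : Matrix (Fin n) (Fin n) A) (u : A) (L : ℕ)
    (hF : ∀ i, ∀ v ∈ MM a i, F * v ∈ MM a i)
    (hrel : ∀ g i, ∀ v ∈ MM a i, F * (a g * v) - a g * (F * v) - u • (a g * v) ∈
      MM a (i + 2) ⊔ maximalIdeal A • MM a (i + 1))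
    (hbez : ∃ R : Fin (L + 1) → A[X], ∃ S : A[X], (∀ i, S.coeff i ∈ maximalIdeal A) ∧
      1 = (∑ j, R j * F.charpoly.comp (X - C (((j : ℕ) : A) * u))) + S)
    (hnil : ∃ K : ℕ, Submodule.span A (Set.range a) ^ K ≤
      maximalIdeal A • (⊤ : Submodule A (Matrix (Fin n) (Fin n) A))) :
    Submodule.span A (Set.range a) ^ L = ⊥ := by
  have hFj : ∀ (r : A) (i : ℕ), ∀ v ∈ MM a i, (F - r • 1) * v ∈ MM a i := by
    intro r i v hv
    rw [sub_mul, smul_mul_assoc, one_mul]
    exact Submodule.sub_mem _ (hF i v hv) (Submodule.smul_mem _ _ hv)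
  have hQ : ∀ i j : ℕ, j ≤ i → ∀ v ∈ MM a i,
      aeval (F - ((j : A) * u) • 1) F.charpoly * v ∈ MM a (i + 1) ⊔ maximalIdeal A • MM a i := by
    intro i
    induction i with
    | zero =>
      intro j hj v _
      obtain rfl : j = 0 := by omega
      rw [Nat.cast_zero, zero_mul, zero_smul, sub_zero, Matrix.aeval_self_charpoly, zero_mul]
      exact Submodule.zero_mem _
    | succ i ih =>
      intro j hj v hv
      rcases Nat.eq_zero_or_pos j with rfl | hj0
      · rw [Nat.cast_zero, zero_mul, zero_smul, sub_zero, Matrix.aeval_self_charpoly, zero_mul]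
        exact Submodule.zero_mem _
      obtain ⟨j', rfl⟩ : ∃ j', j = j' + 1 := ⟨j - 1, by omega⟩
      have hle : MM a (i + 1) ≤ (MM a (i + 2) ⊔ maximalIdeal A • MM a (i + 1)).comap
          (LinearMap.mulLeft A (aeval (F - (((j' + 1 : ℕ) : A) * u) • 1) F.charpoly)) := by
        refine MM_le a fun g w hw => ?_
        show aeval (F - (((j' + 1 : ℕ) : A) * u) • 1) F.charpoly * (a g * w) ∈
          MM a (i + 2) ⊔ maximalIdeal A • MM a (i + 1)
        have h1 : F - (((j' + 1 : ℕ) : A) * u) • (1 : Matrix (Fin n) (Fin n) A) =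
            (F - ((j' : A) * u) • 1) - u • 1 := by
          push_cast
          module
        rw [h1]
        have h2 := comm_poly (G := F - ((j' : A) * u) • 1) (a := a g) (u := u)
          (M := MM a i) (N := MM a (i + 2) ⊔ maximalIdeal A • MM a (i + 1)) (hFj _ i)
          (sup_stable _ (hFj _ (i + 2)) (hFj _ (i + 1))) (fun v hv => by
            have h3 := hrel g i v hv
            convert h3 using 1
            simp only [sub_mul, mul_sub, smul_mul_assoc, one_mul, mul_smul_comm]
            abel) F.charpoly w hw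
        have h4 := sup_stable (Z := a g) (N1 := MM a (i + 1)) (N1' := MM a (i + 2))
          (N2 := MM a i) (N2' := MM a (i + 1)) (maximalIdeal A) (fun v hv => MM_mem a g hv)
          (fun v hv => MM_mem a g hv) _ (ih j' (by omega) w hw)
        have h5 := Submodule.add_mem _ h2 h4
        rwa [sub_add_cancel] at h5
      exact hle hv
  obtain ⟨R, S, hS, hRS⟩ := hbez
  have hle : MM a L ≤ MM a (L + 1) ⊔ maximalIdeal A • MM a L := by
    intro v hv
    have h1 : v = (∑ j : Fin (L + 1), aeval F (R j) *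
        (aeval (F - (((j : ℕ) : A) * u) • 1) F.charpoly * v)) + aeval F S * v := by
      have h2 := congrArg (aeval F) hRS
      rw [map_one, map_add, map_sum] at h2
      refine ((one_mul v).symm.trans (congrArg (fun Z => Z * v) h2)).trans ?_
      show (_ + _) * v = _
      rw [add_mul, Finset.sum_mul]
      congr 1
      refine Finset.sum_congr rfl fun j _ => ?_
      rw [map_mul, aeval_comp, map_sub, aeval_X, aeval_C, Algebra.algebraMap_eq_smul_one,
        mul_assoc]
    rw [h1]
    refine Submodule.add_mem _ (Submodule.sum_mem _ fun j _ => ?_) ?_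
    · refine aeval_stable (sup_stable _ (hF _) (hF _)) (R j) _ (hQ L j (by omega) v hv)
    · refine Submodule.mem_sup_right ?_
      rw [aeval_eq_sum_range, Finset.sum_mul]
      refine Submodule.sum_mem _ fun i _ => ?_
      rw [smul_mul_assoc]
      refine Submodule.smul_mem_smul (hS i) ?_
      have h4 : ∀ i : ℕ, F ^ i * v ∈ MM a L := by
        intro i
        induction i with
        | zero => rw [pow_zero, one_mul]; exact hv
        | succ i ih => rw [pow_succ', mul_assoc]; exact hF _ _ ih
      exact h4 i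
  have hjac : maximalIdeal A ≤ Ideal.jacobson ⊥ := by
    rw [IsLocalRing.jacobson_eq_maximalIdeal ⊥ bot_ne_top]
  have h1 : MM a L ≤ MM a (L + 1) :=
    Submodule.le_of_le_smul_of_le_jacobson_bot (IsNoetherian.noetherian _) hjac hle
  have h2 : ∀ i, MM a L ≤ MM a (L + i) := by
    intro i
    induction i with
    | zero => exact le_rfl
    | succ i ih =>
      refine h1.trans ?_
      rw [MM_succ, ← add_assoc, MM_succ]
      exact mul_le_mul' le_rfl ih
  obtain ⟨K, hK⟩ := hnil
  have h3 : MM a L ≤ maximalIdeal A • MM a L := by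
    refine (h2 K).trans ?_
    rw [MM, pow_add, mul_assoc]
    have h4 : Submodule.span A (Set.range a) ^ K * ⊤ ≤
        maximalIdeal A • (⊤ : Submodule A (Matrix (Fin n) (Fin n) A)) := by
      rw [Submodule.mul_le]
      intro x hx y _
      have h5 := hK hx
      clear hx
      induction h5 using Submodule.smul_induction_on' with
      | smul r hr z hz =>
        rw [smul_mul_assoc]
        exact Submodule.smul_mem_smul hr trivial
      | add z _ w _ h6 h7 =>
        rw [add_mul]
        exact Submodule.add_mem _ h6 h7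
    refine (mul_le_mul' le_rfl h4).trans ?_
    rw [Submodule.mul_le, MM]
    intro x hx y hy
    exact smul_stable _ (fun v hv => Submodule.mul_mem_mul hx hv) y hy
  have h6 : MM a L = ⊥ := by
    rw [eq_bot_iff]
    refine Submodule.le_of_le_smul_of_le_jacobson_bot (IsNoetherian.noetherian _) hjac ?_
    rw [bot_sup_eq]
    exact h3
  rw [eq_bot_iff, ← h6]
  intro x hx
  rw [MM, ← mul_one x]
  exact Submodule.mul_mem_mul hx trivial

end

end Pool.Agent.R417.GE
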