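import Pool.Agent.R417.GE.Rel
import Pool.Agent.R417.GE.Grad

/-! The relation for lisse sheaves on the affine line minus `S`. -/

set_option autoImplicit false

namespace Pool.Agent.R417.GE

open Polynomial IsLocalRing Pool.Agent.W569.UG

section

variable {A : Type} [CommRing A] {n : ℕ}

theorem pow_l_mem [IsLocalRing A] {l : ℕ} (hlA : (l : A) ∈ maximalIdeal A)
    {Y : Matrix (Fin n) (Fin n) A} (hY : Y - 1 ∈ (maximalIdeal A) •
      (⊤ : Submodule A (Matrix (Fin n) (Fin n) A))) (K : ℕ) :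
    Y ^ (l ^ K) - 1 ∈ (maximalIdeal A ^ (K + 1)) •
      (⊤ : Submodule A (Matrix (Fin n) (Fin n) A)) := by
  induction K with
  | zero =>
    simpa using hY
  | succ K ih =>
    obtain ⟨t, ht⟩ := binom3 (A := A) l
    have h1 := congrArg (aeval (Y ^ (l ^ K) - 1)) ht
    rw [map_pow, map_add, map_one, aeval_X] at h1
    simp only [map_add, map_mul, map_natCast, map_one, map_pow, aeval_X] at h1
    rw [add_sub_cancel, ← pow_mul, ← pow_succ] at h1
    have h2 : ∀ (j : ℕ), ∀ x ∈ (maximalIdeal A ^ j) •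
        (⊤ : Submodule A (Matrix (Fin n) (Fin n) A)), ∀ y, x * y ∈ (maximalIdeal A ^ j) •
        (⊤ : Submodule A (Matrix (Fin n) (Fin n) A)) := by
      intro j x hx y
      induction hx using Submodule.smul_induction_on' with
      | smul r hr z _ =>
        rw [smul_mul_assoc]
        exact Submodule.smul_mem_smul hr trivial
      | add z _ w _ h6 h7 =>
        rw [add_mul]
        exact Submodule.add_mem _ h6 h7
    have h3 : ∀ (i j : ℕ), ∀ x ∈ (maximalIdeal A ^ i) •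
        (⊤ : Submodule A (Matrix (Fin n) (Fin n) A)), ∀ y ∈ (maximalIdeal A ^ j) •
        (⊤ : Submodule A (Matrix (Fin n) (Fin n) A)), x * y ∈ (maximalIdeal A ^ (i + j)) •
        (⊤ : Submodule A (Matrix (Fin n) (Fin n) A)) := by
      intro i j x hx y hy
      induction hx using Submodule.smul_induction_on' with
      | smul r hr z _ =>
        rw [smul_mul_assoc, pow_add, ← smul_eq_mul, Submodule.smul_assoc]
        exact Submodule.smul_mem_smul hr (smul_stable (maximalIdeal A ^ j) (N := ⊤) (N' := ⊤)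
          (fun _ _ => trivial) y hy)
      | add z _ w _ h6 h7 =>
        rw [add_mul]
        exact Submodule.add_mem _ h6 h7
    have hle : maximalIdeal A ^ (K + 1 + (K + 1)) ≤ maximalIdeal A ^ (K + 1 + 1) :=
      Ideal.pow_le_pow_right (by omega)
    have h4 : (Y ^ (l ^ K) - 1) ^ 2 ∈ (maximalIdeal A ^ (K + 1 + 1)) •
        (⊤ : Submodule A (Matrix (Fin n) (Fin n) A)) := by
      rw [pow_two]
      exact Submodule.smul_mono hle le_rfl (h3 _ _ _ ih _ ih)
    have h5 : Y ^ (l ^ (K + 1)) - 1 = (l : A) • (Y ^ (l ^ K) - 1) +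
        (Y ^ (l ^ K) - 1) ^ 2 * (((l.choose 2 : ℕ) : Matrix (Fin n) (Fin n) A) +
          (Y ^ (l ^ K) - 1) * aeval (Y ^ (l ^ K) - 1) t) := by
      rw [h1]
      have h6 : ((l : ℕ) : Matrix (Fin n) (Fin n) A) * (Y ^ (l ^ K) - 1) =
          (l : A) • (Y ^ (l ^ K) - 1) := by
        rw [Nat.cast_smul_eq_nsmul, nsmul_eq_mul]
      rw [h6]
      generalize Y ^ (l ^ K) - 1 = Z
      have h7 : ((l.choose 2 : ℕ) : Matrix (Fin n) (Fin n) A) * Z ^ 2 =
          Z ^ 2 * ((l.choose 2 : ℕ) : Matrix (Fin n) (Fin n) A) :=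
        (Nat.cast_commute _ _).eq
      rw [h7, mul_add, ← mul_assoc (Z ^ 2) Z, ← pow_succ]
      abel
    rw [h5]
    refine Submodule.add_mem _ ?_ (h2 _ _ h4 _)
    rw [pow_succ', ← smul_eq_mul, Submodule.smul_assoc]
    exact Submodule.smul_mem_smul hlA ih

end

section

variable {k : Type} [Field k] [CharZero k] {l m u n : ℕ} {S : Set k}
  {A : Type} [CommRing A] [IsDomain A] [IsLocalRing A] [IsNoetherianRing A] [TopologicalSpace A]
  {ρ : GG k →* GL (Fin n) A} {a : Hg k → Matrix (Fin n) (Fin n) A} {σ : GG k}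

theorem hab (hl : l.Prime) (hm0 : m ≠ 0) (hA : IsAdic (maximalIdeal A))
    (hlA : (l : A) ∈ maximalIdeal A) (hρ : Continuous ρ)
    (hur : ∀ P : Ideal (intRing k S), P.IsMaximal → ∀ τ : GG k, InInertiaG P τ → ρ τ = 1)
    (ha : ∀ g : Hg k, (ρ g : Matrix (Fin n) (Fin n) A) = 1 + (l : A) ^ m • a g)
    (hσ : ∀ z : Om k, z ^ (l ^ (m + 1)) = 1 → σ z = z ^ (1 + l ^ m * u)) (M : ℕ) :
    ∃ c : ℕ, c ≡ 1 + l ^ m * u [MOD l ^ (m + 1)] ∧ ∀ g : Hg k,
      ∃ y ∈ commutator (Hg k), ∃ x : Hg k, MulAut.conjNormal σ g = g ^ c * y * x ∧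
        (ρ x : Matrix (Fin n) (Fin n) A) - 1 ∈
          (maximalIdeal A ^ M) • (⊤ : Submodule A (Matrix (Fin n) (Fin n) A)) := by
  have hC := charZero_Om (k := k)
  set K := M + m + 1 with hK
  have hlK : 0 < l ^ K := Nat.pow_pos hl.pos
  have hne : NeZero ((l ^ K : ℕ) : Om k) := ⟨Nat.cast_ne_zero.2 hlK.ne'⟩
  have hne' : NeZero (l ^ K) := ⟨hlK.ne'⟩
  obtain ⟨ζ, hζ⟩ := HasEnoughRootsOfUnity.exists_primitiveRoot (Om k) (l ^ K)
  obtain ⟨c, -, hc⟩ := hζ.eq_pow_of_pow_eq_one (ξ := σ ζ) (by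
    rw [← map_pow, hζ.pow_eq_one, map_one])
  have hσc : ∀ z : Om k, z ^ (l ^ K) = 1 → σ z = z ^ c := by
    intro z hz
    obtain ⟨i, -, rfl⟩ := hζ.eq_pow_of_pow_eq_one hz
    rw [map_pow, ← hc, ← pow_mul, ← pow_mul, mul_comm]
  have hζ' : IsPrimitiveRoot (ζ ^ (l ^ M)) (l ^ (m + 1)) := by
    refine hζ.pow hlK ?_
    rw [← pow_add, hK, add_assoc]
  refine ⟨c, ?_, fun g => ?_⟩
  · have h1 := hσ _ hζ'.pow_eq_one
    rw [hσc (ζ ^ (l ^ M)) (by
      rw [hK, show M + m + 1 = (m + 1) + M by ring, pow_add, pow_mul, hζ'.pow_eq_one,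
        one_pow])] at h1
    rw [hζ'.eq_orderOf]
    exact (IsOfFinOrder.pow_eq_pow_iff_modEq (isOfFinOrder_iff_pow_eq_one.2
      ⟨_, Nat.pow_pos hl.pos, hζ'.pow_eq_one⟩)).1 h1
  · let f : Hg k →* GL (Fin n) (A ⧸ maximalIdeal A ^ M) :=
      (Matrix.GeneralLinearGroup.map (Ideal.Quotient.mk (maximalIdeal A ^ M))).comp
        (ρ.comp (Hg k).subtype)
    have hf1 : ∀ g : Hg k, (∀ i j, ((ρ g : Matrix (Fin n) (Fin n) A) - 1) i j ∈
        maximalIdeal A ^ M) → f g = 1 := fun g hg =>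
      Pool.Agent.W569.FM.map_eq_one hg
    have hf2 : ∀ g : Hg k, f g = 1 → (ρ g : Matrix (Fin n) (Fin n) A) - 1 ∈
        (maximalIdeal A ^ M) • (⊤ : Submodule A (Matrix (Fin n) (Fin n) A)) := by
      intro g hg
      refine mem_smul_top' _ _ fun a b => ?_
      have h2 : Matrix.GeneralLinearGroup.map (Ideal.Quotient.mk (maximalIdeal A ^ M)) (ρ g) =
          Matrix.GeneralLinearGroup.map (Ideal.Quotient.mk (maximalIdeal A ^ M)) 1 := by
        rw [map_one]
        exact hg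
      exact Pool.Agent.W569.FM.ME_of_map_eq h2 a b
    have hopen : IsOpen (f.ker : Set (Hg k)) := by
      apply Subgroup.isOpen_of_mem_nhds _ (g := (1 : Hg k))
      have h1 := Pool.Agent.W569.FM.eventually_ME hA (ρ.comp (Hg k).subtype)
        (hρ.comp continuous_subtype_val) M
      filter_upwards [h1] with g hg
      exact hf1 g hg
    have hJ : ∀ (J : Ideal A) (Y : Matrix (Fin n) (Fin n) A),
        Y ∈ J • (⊤ : Submodule A (Matrix (Fin n) (Fin n) A)) → ∀ i j, Y i j ∈ J := by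
      intro J Y hY i j
      induction hY using Submodule.smul_induction_on' with
      | smul r hr z _ =>
        rw [Matrix.smul_apply]
        exact J.mul_mem_right _ hr
      | add z _ w _ h6 h7 =>
        rw [Matrix.add_apply]
        exact J.add_mem h6 h7
    obtain ⟨y, hy, x, hx, hgx⟩ := ab hl S σ c K hσc f.ker hopen (fun h => by
      refine hf1 _ fun i j => ?_
      rw [Subgroup.coe_pow, map_pow, Units.val_pow_eq_pow_val]
      have h1 := pow_l_mem (Y := (ρ h : Matrix (Fin n) (Fin n) A)) hlA (by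
        rw [ha, add_sub_cancel_left]
        exact Submodule.smul_mem_smul (Ideal.pow_mem_of_mem _ hlA _ (Nat.pos_of_ne_zero hm0))
          trivial) K
      have h2 := hJ _ _ h1 i j
      exact Ideal.pow_le_pow_right (by omega) h2) (fun P hP τ hτ => by
      refine hf1 _ fun i j => ?_
      rw [hur P hP τ hτ, Units.val_one, sub_self]
      exact Ideal.zero_mem _) g (Subgroup.Normal.conj_mem inferInstance _ g.2 σ)
    refine ⟨y, hy, x, ?_, hf2 x hx⟩
    rw [← hgx]
    apply Subtype.ext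
    rw [MulAut.conjNormal_apply]

end

end Pool.Agent.R417.GE
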