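import Pool.Agent.R417.GE.Gen

/-! Rank smaller than `l`: the triangular case. -/

set_option autoImplicit false

namespace Pool.Agent.R417.GE

open Polynomial IsLocalRing

section

variable {A : Type} [CommRing A] {n : ℕ}

theorem trace_pow_aux (X Y : Matrix (Fin n) (Fin n) A) (q : A) (r : ℕ) :
    ∃ D Z : Matrix (Fin n) (Fin n) A,
      (X + q • Y) ^ (r + 1) = X ^ (r + 1) + q • D + (q * q) • Z ∧
      ∀ s : ℕ, (D * X ^ s).trace = ((r + 1 : ℕ) : A) * (X ^ (r + s) * Y).trace := by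
  induction r with
  | zero =>
    refine ⟨Y, 0, by simp, fun s => ?_⟩
    rw [Matrix.trace_mul_comm]
    simp
  | succ r ih =>
    obtain ⟨D, Z, h1, h2⟩ := ih
    refine ⟨D * X + X ^ (r + 1) * Y, Z * X + D * Y + q • (Z * Y), ?_, fun s => ?_⟩
    · rw [pow_succ, h1, pow_succ X (r + 1)]
      simp only [add_mul, mul_add, smul_mul_assoc, mul_smul_comm, smul_add]
      module
    · rw [add_mul, Matrix.trace_add, mul_assoc D, ← pow_succ', h2, mul_assoc,
        Matrix.trace_mul_comm (X ^ (r + 1)), mul_assoc, ← pow_add, Matrix.trace_mul_comm Y]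
      have h3 : s + (r + 1) = r + 1 + s := by omega
      have h4 : r + (s + 1) = r + 1 + s := by omega
      rw [h3, h4]
      push_cast
      ring

theorem trace_pow' (X Y : Matrix (Fin n) (Fin n) A) (q : A) (r : ℕ) : ∃ z : A,
    ((X + q • Y) ^ (r + 1)).trace = (X ^ (r + 1)).trace +
      q * (((r + 1 : ℕ) : A) * (X ^ r * Y).trace + q * z) := by
  obtain ⟨D, Z, h1, h2⟩ := trace_pow_aux X Y q r
  refine ⟨Z.trace, ?_⟩
  have h3 := h2 0
  rw [pow_zero, mul_one, add_zero] at h3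
  rw [h1, Matrix.trace_add, Matrix.trace_add, Matrix.trace_smul, Matrix.trace_smul, h3, smul_eq_mul,
    smul_eq_mul]
  ring

end

/-- power sums -/
theorem power_sums {E : Type} [Field E] {l : ℕ} [CharP E l] {n : ℕ} (hnl : n < l) (χ : Fin n → E)
    (h : ∀ r : ℕ, 1 ≤ r → r ≤ n → ∑ i, χ i ^ r = 0) (i : Fin n) : χ i = 0 := by
  classical
  by_contra hne
  set vals : Finset E := (Finset.univ.image χ).erase (χ i) with hvals
  set f : E[X] := X * ∏ z ∈ vals, (X - C z) with hf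
  have hmem : χ i ∈ Finset.univ.image χ := Finset.mem_image_of_mem χ (Finset.mem_univ i)
  have hdeg : f.natDegree ≤ n := by
    have h1 : f.natDegree ≤ 1 + vals.card := by
      rw [hf]
      refine natDegree_mul_le.trans ?_
      rw [natDegree_X, natDegree_prod_of_monic _ _ (fun z _ => monic_X_sub_C z)]
      simp
    have h2 : vals.card + 1 ≤ n := by
      rw [hvals, Finset.card_erase_add_one hmem]
      refine Finset.card_image_le.trans ?_
      rw [Finset.card_univ, Fintype.card_fin]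
    omega
  have h0 : f.coeff 0 = 0 := by
    rw [hf, coeff_X_mul_zero]
  have hsum : ∑ i', f.eval (χ i') = 0 := by
    have h1 : ∀ i', f.eval (χ i') = ∑ r ∈ Finset.range (n + 1), f.coeff r * χ i' ^ r := by
      intro i'
      exact eval_eq_sum_range' (Nat.lt_succ_of_le hdeg) _
    rw [Finset.sum_congr rfl fun i' _ => h1 i', Finset.sum_comm]
    refine Finset.sum_eq_zero fun r hr => ?_
    rw [← Finset.mul_sum]
    rcases Nat.eq_zero_or_pos r with rfl | hr0
    · rw [h0, zero_mul]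
    · rw [h r hr0 (Nat.lt_succ_iff.1 (Finset.mem_range.1 hr)), mul_zero]
  have hval : ∀ i', f.eval (χ i') = if χ i' = χ i then f.eval (χ i) else 0 := by
    intro i'
    split_ifs with h1
    · rw [h1]
    · rw [hf, eval_mul, eval_prod, Finset.prod_eq_zero (i := χ i'), mul_zero]
      · rw [hvals, Finset.mem_erase]
        exact ⟨h1, Finset.mem_image_of_mem χ (Finset.mem_univ i')⟩
      · rw [eval_sub, eval_X, eval_C, sub_self]
  rw [Finset.sum_congr rfl fun i' _ => hval i', ← Finset.sum_filter, Finset.sum_const,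
    nsmul_eq_mul] at hsum
  have hfi : f.eval (χ i) ≠ 0 := by
    rw [hf, eval_mul, eval_prod, eval_X]
    refine mul_ne_zero hne (Finset.prod_ne_zero_iff.2 fun z hz => ?_)
    rw [eval_sub, eval_X, eval_C, sub_ne_zero]
    rw [hvals, Finset.mem_erase] at hz
    exact hz.1.symm
  have hcard := (mul_eq_zero.1 hsum).resolve_right hfi
  rw [CharP.cast_eq_zero_iff E l] at hcard
  have h1 : 0 < (Finset.univ.filter fun i' => χ i' = χ i).card :=
    Finset.card_pos.2 ⟨i, Finset.mem_filter.2 ⟨Finset.mem_univ _, rfl⟩⟩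
  have h2 : (Finset.univ.filter fun i' => χ i' = χ i).card ≤ n := by
    refine (Finset.card_le_univ _).trans ?_
    rw [Fintype.card_fin]
  have h3 := Nat.le_of_dvd h1 hcard
  omega

section

variable {A : Type} [CommRing A] {n : ℕ} {H : Type}

/-- the conclusion of `rel0` -/
def Rel0 (a : H → Matrix (Fin n) (Fin n) A) (γ : H → H) (l m u : ℕ) : Prop :=
  ∀ W : Submodule A (Matrix (Fin n) (Fin n) A),
    (∀ g h, a g * a h - a h * a g ∈ W) →
    (∀ g, ∀ x ∈ W, (1 + (l : A) ^ m • a g) * x ∈ W ∧ x * (1 + (l : A) ^ m • a g) ∈ W) →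
    (∀ g, ∀ j : ℕ, (l : A) • a g ^ (j + 1) ∈ W) → ∀ g, ∃ ω ∈ W,
      a (γ g) = a g + (l : A) ^ m • ((u : A) • a g + ω)

variable [IsDomain A] [IsLocalRing A] {a : H → Matrix (Fin n) (Fin n) A} {l m u : ℕ}
  {γ : H → H} {T : Matrix (Fin n) (Fin n) A}

theorem trace_inv (hTu : IsUnit T) (hT : ∀ g, T * a g = a (γ g) * T) (g : H) (r : ℕ) :
    ((a (γ g)) ^ r).trace = ((a g) ^ r).trace := by
  obtain ⟨U, rfl⟩ := hTu
  have h1 : a (γ g) = U.1 * a g * (U⁻¹).1 := by
    rw [hT, mul_assoc, Units.mul_inv, mul_one]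
  have h2 : (a (γ g)) ^ r = U.1 * (a g) ^ r * (U⁻¹).1 := by
    rw [h1]
    exact Units.conj_pow U (a g) r
  rw [h2, Matrix.trace_mul_comm, ← mul_assoc, Units.inv_mul, one_mul]

theorem triNil (hTu : IsUnit T) (hl : l.Prime) (hnl : n < l) (hlA : (l : A) ∈ maximalIdeal A)
    (hl0 : (l : A) ≠ 0) (hm0 : m ≠ 0) (hu : ¬ l ∣ u) (hT : ∀ g, T * a g = a (γ g) * T)
    (hrel : Rel0 a γ l m u) {Ω : Type} [Field Ω]
    (φ : Matrix (Fin n) (Fin n) A →+* Matrix (Fin n) (Fin n) Ω) (ι : A →+* Ω)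
    (hφ : ∀ (r : A) X, φ (r • X) = ι r • φ X) (hι : ∀ r, ι r = 0 ↔ r ∈ maximalIdeal A)
    (hφt : ∀ X, (φ X).trace = ι X.trace)
    (hker : ∀ X, φ X = 0 → ∀ i j, X i j ∈ maximalIdeal A)
    (ha : ∀ g, ∀ i j, j < i → φ (a g) i j = 0) :
    ∃ K : ℕ, Submodule.span A (Set.range a) ^ K ≤
      maximalIdeal A • (⊤ : Submodule A (Matrix (Fin n) (Fin n) A)) := by
  have hlι : ι (l : A) = 0 := (hι _).2 hlA
  have hlΩ : (l : Ω) = 0 := by
    rw [← map_natCast ι]
    exact hlι
  have hchar : CharP Ω l := (CharP.charP_iff_prime_eq_zero hl).2 hlΩ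
  let W : ℕ → Submodule A (Matrix (Fin n) (Fin n) A) := fun s =>
    { carrier := {X | ∀ i j : Fin n, (j : ℕ) < i + s → φ X i j = 0}
      add_mem' := fun {x y} hx hy i j hij => by
        rw [map_add, Matrix.add_apply, hx i j hij, hy i j hij, add_zero]
      zero_mem' := fun i j _ => by rw [map_zero, Matrix.zero_apply]
      smul_mem' := fun c x hx i j hij => by
        rw [hφ, Matrix.smul_apply, hx i j hij, smul_zero] }
  have hW1 : ∀ g h, a g * a h - a h * a g ∈ W 1 := by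
    intro g h i j hij
    rw [map_sub, map_mul, map_mul, Matrix.sub_apply]
    obtain ⟨h1, h2⟩ := tri_mul (ha g) (ha h)
    obtain ⟨h3, h4⟩ := tri_mul (ha h) (ha g)
    rcases lt_or_eq_of_le (show j ≤ i from Fin.le_def.2 (by omega)) with h5 | rfl
    · rw [h1 i j h5, h3 i j h5, sub_zero]
    · rw [h2, h4, mul_comm, sub_self]
  have hq : ∀ g, φ (1 + (l : A) ^ m • a g) = 1 := by
    intro g
    rw [map_add, map_one, hφ, map_pow, hlι, zero_pow hm0, zero_smul, add_zero]
  have hr := hrel (W 1) hW1 (fun g x hx => ⟨fun i j hij => by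
      rw [map_mul, hq, one_mul]; exact hx i j hij, fun i j hij => by
      rw [map_mul, hq, mul_one]; exact hx i j hij⟩) (fun g j i i' _ => by
      rw [hφ, hlι, zero_smul, Matrix.zero_apply])
  have hu0 : ι (u : A) ≠ 0 := by
    intro h0
    exact unit_u hl hlA hu ((residue_eq_zero_iff _).2 ((hι _).1 h0))
  have hql : (l : A) ^ m ≠ 0 := pow_ne_zero _ hl0
  -- powers of upper triangular matrices
  have hpowt : ∀ g, ∀ r : ℕ, (∀ i j, j < i → (φ (a g) ^ r) i j = 0) ∧
      ∀ i, (φ (a g) ^ r) i i = (φ (a g) i i) ^ r := by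
    intro g r
    induction r with
    | zero =>
      refine ⟨fun i j hij => ?_, fun i => ?_⟩
      · rw [pow_zero, Matrix.one_apply_ne hij.ne']
      · rw [pow_zero, pow_zero, Matrix.one_apply_eq]
    | succ r ih =>
      obtain ⟨h1, h2⟩ := tri_mul ih.1 (ha g)
      refine ⟨fun i j hij => ?_, fun i => ?_⟩
      · rw [pow_succ]
        exact h1 i j hij
      · rw [pow_succ, h2, ih.2, pow_succ]
  have hdiag : ∀ g i, φ (a g) i i = 0 := by
    intro g
    refine power_sums hnl (fun i => φ (a g) i i) fun r hr1 hrn => ?_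
    obtain ⟨r', rfl⟩ : ∃ r', r = r' + 1 := ⟨r - 1, by omega⟩
    obtain ⟨ω, hω, hg⟩ := hr g
    obtain ⟨z, hz⟩ := trace_pow' (a g) ((u : A) • a g + ω) ((l : A) ^ m) r'
    rw [← hg, trace_inv hTu hT, left_eq_add] at hz
    have h1 := (mul_eq_zero.1 hz).resolve_left hql
    have h2 := congrArg ι h1
    rw [map_add, map_mul, map_mul, map_pow, hlι, zero_pow hm0, zero_mul, add_zero, map_zero,
      map_natCast, ← hφt, map_mul, map_pow, map_add, hφ, mul_add, Matrix.trace_add] at h2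
    have h3 : (φ (a g) ^ r' * φ ω).trace = 0 := by
      rw [Matrix.trace]
      refine Finset.sum_eq_zero fun i _ => ?_
      rw [Matrix.diag_apply, Matrix.mul_apply]
      refine Finset.sum_eq_zero fun k _ => ?_
      rcases lt_or_ge k i with h | h
      · rw [(hpowt g r').1 i k h, zero_mul]
      · rw [hω k i (by have := Fin.le_def.1 h; omega), mul_zero]
    rw [h3, add_zero, mul_smul_comm, ← pow_succ, Matrix.trace_smul] at h2
    have h4 : ((r' + 1 : ℕ) : Ω) ≠ 0 := by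
      rw [Ne, CharP.cast_eq_zero_iff Ω l]
      intro h
      have := Nat.le_of_dvd (Nat.succ_pos _) h
      omega
    have h5 := (mul_eq_zero.1 h2).resolve_left h4
    rw [smul_eq_mul] at h5
    have h6 := (mul_eq_zero.1 h5).resolve_left hu0
    rw [Matrix.trace] at h6
    rw [← h6]
    refine Finset.sum_congr rfl fun i _ => ?_
    rw [Matrix.diag_apply, (hpowt g (r' + 1)).2]
  have hW : ∀ g, a g ∈ W 1 := by
    intro g i j hij
    rcases lt_or_eq_of_le (show j ≤ i from Fin.le_def.2 (by omega)) with h7 | rfl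
    · exact ha g i j h7
    · exact hdiag g j
  have hI : Submodule.span A (Set.range a) ≤ W 1 := by
    rw [Submodule.span_le]
    rintro _ ⟨g, rfl⟩
    exact hW g
  have hmul : ∀ s, W 1 * W s ≤ W (s + 1) := by
    intro s
    rw [Submodule.mul_le]
    intro x hx y hy i j hij
    rw [map_mul, Matrix.mul_apply]
    refine Finset.sum_eq_zero fun k _ => ?_
    rcases Nat.lt_or_ge (k : ℕ) (i + 1) with h | h
    · rw [hx i k h, zero_mul]
    · rw [hy k j (by omega), mul_zero]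
  have hpow : ∀ s, Submodule.span A (Set.range a) ^ (s + 1) ≤ W (s + 1) := by
    intro s
    induction s with
    | zero => rw [zero_add, pow_one]; exact hI
    | succ s ih =>
      rw [pow_succ']
      exact (mul_le_mul' hI ih).trans (hmul _)
  refine ⟨n + 1, fun x hx => Pool.Agent.W569.UG.mem_smul_top' _ _ (hker x ?_)⟩
  ext i j
  exact hpow n hx i j (by omega)

end

section

open Pool.Agent.W569.UG

variable {k : Type} [Field k] [CharZero k] {l m u n : ℕ} {S : Set k}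

/-- the action on the roots of unity -/
theorem cyc {σ : GG k} (hl : l.Prime) (hσ1 : ∀ z : Om k, z ^ (l ^ m) = 1 → σ z = z)
    (hσ2 : ∃ z : Om k, z ^ (l ^ (m + 1)) = 1 ∧ σ z ≠ z) :
    ∃ u : ℕ, ¬ l ∣ u ∧ ∀ z : Om k, z ^ (l ^ (m + 1)) = 1 → σ z = z ^ (1 + l ^ m * u) := by
  have hC := charZero_Om (k := k)
  have hlm : 0 < l ^ (m + 1) := Nat.pow_pos hl.pos
  have hne : NeZero ((l ^ (m + 1) : ℕ) : Om k) := ⟨Nat.cast_ne_zero.2 hlm.ne'⟩
  have hne' : NeZero (l ^ (m + 1)) := ⟨hlm.ne'⟩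
  obtain ⟨ζ, hζ⟩ := HasEnoughRootsOfUnity.exists_primitiveRoot (Om k) (l ^ (m + 1))
  obtain ⟨c, -, hc⟩ := hζ.eq_pow_of_pow_eq_one (ξ := σ ζ) (by
    rw [← map_pow, hζ.pow_eq_one, map_one])
  have hσc : ∀ z : Om k, z ^ (l ^ (m + 1)) = 1 → σ z = z ^ c := by
    intro z hz
    obtain ⟨i, -, rfl⟩ := hζ.eq_pow_of_pow_eq_one hz
    rw [map_pow, ← hc, ← pow_mul, ← pow_mul, mul_comm]
  have hζ' : IsPrimitiveRoot (ζ ^ l) (l ^ m) := hζ.pow hlm (pow_succ' l m)
  have h1 := hσ1 _ hζ'.pow_eq_one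
  rw [hσc (ζ ^ l) (by rw [pow_succ, pow_mul, hζ'.pow_eq_one, one_pow])] at h1
  have h2 : c ≡ 1 [MOD l ^ m] := by
    rw [hζ'.eq_orderOf]
    exact (IsOfFinOrder.pow_eq_pow_iff_modEq (isOfFinOrder_iff_pow_eq_one.2
      ⟨_, Nat.pow_pos hl.pos, hζ'.pow_eq_one⟩)).1 (h1.trans (pow_one _).symm)
  have hc0 : c ≠ 0 := by
    rintro rfl
    rw [pow_zero] at hc
    have h3 : ζ = 1 := σ.injective (hc.symm.trans (map_one σ).symm)
    exact hζ.ne_one (Nat.one_lt_pow (Nat.succ_ne_zero _) hl.one_lt) h3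
  obtain ⟨u, hu⟩ := (Nat.modEq_iff_dvd' (Nat.one_le_iff_ne_zero.2 hc0)).1 h2.symm
  have hcu : c = 1 + l ^ m * u := by omega
  refine ⟨u, ?_, fun z hz => by rw [hσc z hz, hcu]⟩
  rintro ⟨w, rfl⟩
  obtain ⟨z, hz, hz'⟩ := hσ2
  apply hz'
  rw [hσc z hz, hcu, pow_add, pow_one, ← mul_assoc, ← pow_succ, pow_mul, hz, one_pow, mul_one]

theorem relGeo {A : Type} [CommRing A] [IsDomain A] [IsLocalRing A] [IsNoetherianRing A]
    [TopologicalSpace A] {ρ : GG k →* GL (Fin n) A} {a : Hg k → Matrix (Fin n) (Fin n) A}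
    {σ : GG k} (hl : l.Prime) (hm : 2 < l ^ m) (hA : IsAdic (maximalIdeal A))
    (hlA : (l : A) ∈ maximalIdeal A) (hl0 : (l : A) ≠ 0) (hρ : Continuous ρ)
    (hur : ∀ P : Ideal (intRing k S), P.IsMaximal → ∀ τ : GG k, InInertiaG P τ → ρ τ = 1)
    (ha : ∀ g : Hg k, (ρ g : Matrix (Fin n) (Fin n) A) = 1 + (l : A) ^ m • a g)
    (hσ : ∀ z : Om k, z ^ (l ^ (m + 1)) = 1 → σ z = z ^ (1 + l ^ m * u)) :
    (∀ g, (ρ σ : Matrix (Fin n) (Fin n) A) * a g = a (MulAut.conjNormal σ g) * (ρ σ).1) ∧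
      Rel0 a (fun g => MulAut.conjNormal σ g) l m u := by
  have hm0 : m ≠ 0 := by
    rintro rfl
    rw [pow_zero] at hm
    omega
  constructor
  · intro g
    have h2 : (ρ σ : Matrix (Fin n) (Fin n) A) * (ρ g : Matrix (Fin n) (Fin n) A) =
        (ρ ((MulAut.conjNormal σ g : Hg k) : GG k) : Matrix (Fin n) (Fin n) A) *
          (ρ σ : Matrix (Fin n) (Fin n) A) := by
      rw [← Units.val_mul, ← Units.val_mul, ← map_mul, ← map_mul, MulAut.conjNormal_apply]
      congr 2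
      group
    rw [ha, ha, mul_add, add_mul, mul_one, one_mul, add_right_inj, mul_smul_comm,
      smul_mul_assoc] at h2
    have h5 : (l : A) ^ m ≠ 0 := pow_ne_zero _ hl0
    ext i j
    have h6 := congrFun (congrFun h2 i) j
    rw [Matrix.smul_apply, Matrix.smul_apply, smul_eq_mul, smul_eq_mul] at h6
    exact mul_left_cancel₀ h5 h6
  · intro W hW1 hW2 hW3 g
    exact rel0 (H := Hg k) (ρ := ρ) hl hl0 hm ha hW1
      (fun g x hx => by rw [ha]; exact hW2 g x hx) hW3 σ u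
      (fun M => hab (S := S) hl hm0 hA hlA hρ hur ha hσ M) g

end

end Pool.Agent.R417.GE
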