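import Pool.Agent.R417.GE.Two

/-! The congruence subgroup. -/

set_option autoImplicit false

namespace Pool.Agent.R417.GE

open Polynomial IsLocalRing Pool.Agent.W569.UG

theorem pow_l_exp {A : Type} [CommRing A] {l j : ℕ} (hl : l.Prime) (hl2 : l ≠ 2) (hj : j ≠ 0)
    {n : ℕ} (Y : Matrix (Fin n) (Fin n) A) :
    ∃ Z : Matrix (Fin n) (Fin n) A,
      (1 + (l : A) ^ j • Y) ^ l = 1 + (l : A) ^ (j + 1) • (Y + (l : A) • Z) := by
  obtain ⟨t, ht⟩ := binom3 (A := A) l
  obtain ⟨j', rfl⟩ : ∃ j', j = j' + 1 := ⟨j - 1, by omega⟩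
  have h1 := congrArg (aeval ((l : A) ^ (j' + 1) • Y)) ht
  rw [map_pow, map_add, map_one, aeval_X] at h1
  simp only [map_add, map_mul, map_natCast, map_one, map_pow, aeval_X] at h1
  have hodd : ∃ b, l.choose 2 = l * b := by
    obtain ⟨b, hb⟩ := hl.odd_of_ne_two hl2
    refine ⟨b, ?_⟩
    rw [Nat.choose_two_right, hb, Nat.add_sub_cancel, mul_left_comm]
    exact Nat.mul_div_cancel_left _ Nat.two_pos
  obtain ⟨b, hb⟩ := hodd
  generalize aeval ((l : A) ^ (j' + 1) • Y) t = Q at h1
  refine ⟨((b : A) * (l : A) ^ j') • Y ^ 2 + ((l : A) ^ (2 * j')) • (Y ^ 3 * Q) , ?_⟩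
  have h4 : ((l : ℕ) : Matrix (Fin n) (Fin n) A) = (l : A) • (1 : Matrix (Fin n) (Fin n) A) := by
    rw [Nat.cast_smul_eq_nsmul, nsmul_eq_mul, mul_one]
  have h5 : (((l * b : ℕ)) : Matrix (Fin n) (Fin n) A) =
      ((l : A) * (b : A)) • (1 : Matrix (Fin n) (Fin n) A) := by
    rw [← Nat.cast_mul, Nat.cast_smul_eq_nsmul, nsmul_eq_mul, mul_one]
  rw [h1, hb, h4, h5]
  simp only [smul_mul_assoc, one_mul, _root_.smul_pow]
  module

section

variable {A : Type} [CommRing A] [IsDomain A] [IsLocalRing A] [IsNoetherianRing A] {l m : ℕ}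
  {G : Type} [Group G] {H : Subgroup G} {ρ : G →* GL (Fin 2) A}
  {a : H → Matrix (Fin 2) (Fin 2) A}

theorem nat_surj (hl : l.Prime) (hlA : (l : A) ∈ maximalIdeal A)
    (hcard : Nat.card (ResidueField A) = l) (c : ResidueField A) : ∃ k : ℕ, (k : ResidueField A) = c := by
  have hfin : Finite (ResidueField A) := Nat.finite_of_card_ne_zero (by
    rw [hcard]
    exact hl.ne_zero)
  have hcharA : CharP (ResidueField A) l := by
    have h1 : ((l : ℕ) : ResidueField A) = 0 := by
      have h2 : residue A (l : A) = 0 := (residue_eq_zero_iff _).2 hlA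
      rw [map_natCast] at h2
      exact h2
    exact (CharP.charP_iff_prime_eq_zero hl).2 h1
  have h1 : Function.Injective (fun i : Fin l => ((i : ℕ) : ResidueField A)) := by
    intro i j hij
    exact Fin.ext (CharP.natCast_injOn_Iio (ResidueField A) l i.2 j.2 hij)
  have h2 := h1.bijective_of_nat_card_le (by
    rw [hcard, Nat.card_eq_fintype_card, Fintype.card_fin])
  obtain ⟨i, hi⟩ := h2.2 c
  exact ⟨i, hi⟩

theorem layer (hl : l.Prime) (hl2 : l ≠ 2) (hlA : (l : A) ∈ maximalIdeal A) (hl0 : (l : A) ≠ 0)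
    (hm0 : m ≠ 0) (hmax : maximalIdeal A = Ideal.span {(l : A)})
    (hcard : Nat.card (ResidueField A) = l)
    (ha : ∀ g : H, (ρ g : Matrix (Fin 2) (Fin 2) A) = 1 + (l : A) ^ m • a g)
    (hspan : ∀ X : Matrix (Fin 2) (Fin 2) (ResidueField A), X.trace = 0 →
      X ∈ Submodule.span (ResidueField A) (Set.range fun g => (a g).map (residue A)))
    (i : ℕ) : ∀ X : Matrix (Fin 2) (Fin 2) A, X.trace ∈ maximalIdeal A →
      ∃ (g : H) (Y Z : Matrix (Fin 2) (Fin 2) A),
        (ρ g : Matrix (Fin 2) (Fin 2) A) = 1 + (l : A) ^ (m + i) • Y ∧ X = Y + (l : A) • Z := by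
  have hcan : ∀ X Y : Matrix (Fin 2) (Fin 2) A, (l : A) ^ m • X = (l : A) ^ m • Y → X = Y := by
    intro X Y h
    have h5 : (l : A) ^ m ≠ 0 := pow_ne_zero _ hl0
    ext i j
    have h6 := congrFun (congrFun h i) j
    rw [Matrix.smul_apply, Matrix.smul_apply, smul_eq_mul, smul_eq_mul] at h6
    exact mul_left_cancel₀ h5 h6
  induction i with
  | zero =>
    intro X hX
    -- the first layer is a vector space
    have hB : ∀ b ∈ Submodule.span (ResidueField A) (Set.range fun g => (a g).map (residue A)),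
        ∃ g : H, (a g).map (residue A) = b := by
      have hmulr : ∀ g h : H, (a (g * h)).map (residue A) =
          (a g).map (residue A) + (a h).map (residue A) := by
        intro g h
        have h1 : a (g * h) = a g + a h + (l : A) ^ m • (a g * a h) := by
          apply hcan
          have h2 := ha (g * h)
          rw [Subgroup.coe_mul, map_mul, Units.val_mul, ha g, ha h] at h2
          have h3 : (l : A) ^ m • a (g * h) =
              (1 + (l : A) ^ m • a g) * (1 + (l : A) ^ m • a h) - 1 := by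
            rw [h2, add_sub_cancel_left]
          rw [h3]
          simp only [mul_add, add_mul, mul_one, one_mul, smul_mul_assoc, mul_smul_comm, smul_add]
          abel
        rw [h1]
        ext i j
        rw [Matrix.map_apply, Matrix.add_apply, Matrix.add_apply, Matrix.smul_apply, map_add,
          map_add, smul_eq_mul, map_mul, map_pow, (residue_eq_zero_iff _).2 hlA, zero_pow hm0,
          zero_mul, add_zero]
        rfl
      have h0 : (a 1).map (residue A) = 0 := by
        have h1 := hmulr 1 1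
        rw [mul_one] at h1
        exact left_eq_add.1 h1
      intro b hb
      induction hb using Submodule.span_induction with
      | mem x hx => exact hx
      | zero => exact ⟨1, h0⟩
      | add x y _ _ hx hy =>
        obtain ⟨g, rfl⟩ := hx
        obtain ⟨h, rfl⟩ := hy
        exact ⟨g * h, hmulr g h⟩
      | smul c x _ hx =>
        obtain ⟨g, rfl⟩ := hx
        obtain ⟨k, rfl⟩ := nat_surj hl hlA hcard c
        refine ⟨g ^ k, ?_⟩
        induction k with
        | zero => rw [pow_zero, h0, Nat.cast_zero, zero_smul]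
        | succ k ih => rw [pow_succ, hmulr, ih, Nat.cast_succ, add_smul, one_smul]
    obtain ⟨g, hg⟩ := hB (X.map (residue A)) (hspan _ (by
      have h1 : (X.map (residue A)).trace = residue A X.trace :=
        (AddMonoidHom.map_trace (residue A : A →+* ResidueField A) X).symm
      rw [h1]
      exact (residue_eq_zero_iff _).2 hX))
    have h1 : ∀ i j, ∃ z, X i j - a g i j = z * (l : A) := by
      intro i j
      have h2 : X i j - a g i j ∈ maximalIdeal A := by
        rw [← residue_eq_zero_iff, map_sub, sub_eq_zero]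
        exact (congrFun (congrFun hg i) j).symm
      rw [hmax, Ideal.mem_span_singleton'] at h2
      obtain ⟨z, hz⟩ := h2
      exact ⟨z, hz.symm⟩
    choose Z hZ using h1
    refine ⟨g, a g, Matrix.of Z, ?_, ?_⟩
    · rw [add_zero]
      exact ha g
    · ext i j
      rw [Matrix.add_apply, Matrix.smul_apply, Matrix.of_apply, smul_eq_mul, mul_comm, ← hZ]
      ring
  | succ i ih =>
    intro X hX
    obtain ⟨g, Y, Z, hg, hXY⟩ := ih X hX
    obtain ⟨Z', hZ'⟩ := pow_l_exp hl hl2 (j := m + i) (by omega) Y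
    refine ⟨g ^ l, Y + (l : A) • Z', Z - Z', ?_, ?_⟩
    · rw [Subgroup.coe_pow, map_pow, Units.val_pow_eq_pow_val, hg, hZ']
      rfl
    · rw [hXY, smul_sub]
      abel

theorem approx (hl : l.Prime) (hl2 : l ≠ 2) (hlA : (l : A) ∈ maximalIdeal A) (hl0 : (l : A) ≠ 0)
    (hm0 : m ≠ 0) (hmax : maximalIdeal A = Ideal.span {(l : A)})
    (hcard : Nat.card (ResidueField A) = l)
    (ha : ∀ g : H, (ρ g : Matrix (Fin 2) (Fin 2) A) = 1 + (l : A) ^ m • a g)
    (hdet : ∀ g : H, (ρ g : Matrix (Fin 2) (Fin 2) A).det = 1)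
    (hspan : ∀ X : Matrix (Fin 2) (Fin 2) (ResidueField A), X.trace = 0 →
      X ∈ Submodule.span (ResidueField A) (Set.range fun g => (a g).map (residue A)))
    {M X0 : Matrix (Fin 2) (Fin 2) A} (hM : M = 1 + (l : A) ^ m • X0) (hMd : M.det = 1) (i : ℕ) :
    ∃ (g : H) (X : Matrix (Fin 2) (Fin 2) A),
      M = (ρ g : Matrix (Fin 2) (Fin 2) A) * (1 + (l : A) ^ (m + i) • X) := by
  induction i with
  | zero =>
    refine ⟨1, X0, ?_⟩
    rw [Subgroup.coe_one, map_one, Units.val_one, one_mul, add_zero]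
    exact hM
  | succ i ih =>
    obtain ⟨g, X, hgX⟩ := ih
    have h1 : (1 + (l : A) ^ (m + i) • X).det = 1 := by
      have h2 := congrArg Matrix.det hgX
      rw [hMd, Matrix.det_mul, hdet, one_mul] at h2
      exact h2.symm
    have h3 : X.trace ∈ maximalIdeal A := by
      rw [Matrix.det_fin_two] at h1
      simp only [Matrix.add_apply, Matrix.smul_apply, smul_eq_mul, Matrix.one_apply_eq,
        Matrix.one_apply_ne (show (0 : Fin 2) ≠ 1 by decide),
        Matrix.one_apply_ne (show (1 : Fin 2) ≠ 0 by decide), zero_add] at h1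
      have h4 : (l : A) ^ (m + i) * (X 0 0 + X 1 1 + (l : A) ^ (m + i) *
          (X 0 0 * X 1 1 - X 0 1 * X 1 0)) = 0 := by
        linear_combination h1
      have h5 := (mul_eq_zero.1 h4).resolve_left (pow_ne_zero _ hl0)
      rw [Matrix.trace_fin_two]
      have h6 : X 0 0 + X 1 1 = -((l : A) ^ (m + i) * (X 0 0 * X 1 1 - X 0 1 * X 1 0)) := by
        linear_combination h5
      rw [h6]
      exact Ideal.neg_mem_iff _ |>.2 (Ideal.mul_mem_right _ _
        (Ideal.pow_mem_of_mem _ hlA _ (by omega)))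
    obtain ⟨h, Y, Z, hh, hXY⟩ := layer hl hl2 hlA hl0 hm0 hmax hcard ha hspan i X h3
    refine ⟨g * h, ((ρ h)⁻¹ : GL (Fin 2) A).1 * Z, ?_⟩
    rw [Subgroup.coe_mul, map_mul, Units.val_mul, mul_assoc, mul_add, mul_one, mul_smul_comm,
      ← mul_assoc (ρ h : Matrix (Fin 2) (Fin 2) A), Units.mul_inv, one_mul, hgX, hXY]
    rw [hh]
    congr 1
    rw [smul_add, smul_smul, ← pow_succ, ← add_assoc]
    rfl

end

section

variable {k : Type} [Field k] [CharZero k] {l m : ℕ} {S : Set k}
  {A : Type} [CommRing A] [IsDomain A] [IsLocalRing A] [IsNoetherianRing A] [TopologicalSpace A]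

theorem full {ρ : GG k →* GL (Fin 2) A} {a : Hg k → Matrix (Fin 2) (Fin 2) A}
    (hl : l.Prime) (hl2 : l ≠ 2) (hA : IsAdic (maximalIdeal A))
    (hlA : (l : A) ∈ maximalIdeal A) (hl0 : (l : A) ≠ 0)
    (hm0 : m ≠ 0) (hmax : maximalIdeal A = Ideal.span {(l : A)})
    (hcard : Nat.card (ResidueField A) = l) (hρ : Continuous ρ)
    (ha : ∀ g : Hg k, (ρ g : Matrix (Fin 2) (Fin 2) A) = 1 + (l : A) ^ m • a g)
    (hdet : ∀ g : Hg k, (ρ g : Matrix (Fin 2) (Fin 2) A).det = 1)
    (hspan : ∀ X : Matrix (Fin 2) (Fin 2) (ResidueField A), X.trace = 0 →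
      X ∈ Submodule.span (ResidueField A) (Set.range fun g => (a g).map (residue A)))
    {M X0 : Matrix (Fin 2) (Fin 2) A} (hM : M = 1 + (l : A) ^ m • X0) (hMd : M.det = 1) :
    ∃ g : Hg k, (ρ g : Matrix (Fin 2) (Fin 2) A) = M := by
  have hC' : CharZero (RatFunc k) := charZero_of_injective_algebraMap
    (algebraMap k (RatFunc k)).injective
  have hcomp : CompactSpace (Hg k) := isCompact_iff_compactSpace.1
    (InfiniteGalois.fixingSubgroup_isClosed (geomField k)).isCompact
  let C : ℕ → Set (Hg k) := fun i => {g | ∃ X : Matrix (Fin 2) (Fin 2) A,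
    M = (ρ g : Matrix (Fin 2) (Fin 2) A) * (1 + (l : A) ^ (m + i) • X)}
  have hne : ∀ i, (C i).Nonempty := fun i => by
    obtain ⟨g, X, hgX⟩ := approx hl hl2 hlA hl0 hm0 hmax hcard ha hdet hspan hM hMd i
    exact ⟨g, X, hgX⟩
  have hanti : ∀ i, C (i + 1) ⊆ C i := by
    rintro i g ⟨X, hX⟩
    refine ⟨(l : A) • X, ?_⟩
    rw [smul_smul, ← pow_succ]
    exact hX
  have hclosed : ∀ i, IsClosed (C i) := by
    intro i
    rw [← isOpen_compl_iff, isOpen_iff_mem_nhds]
    intro g hg
    have h1 := Pool.Agent.W569.FM.eventually_ME hA (ρ.comp (Hg k).subtype)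
      (hρ.comp continuous_subtype_val) (m + i)
    have h2 : Filter.Tendsto (fun h : Hg k => g⁻¹ * h) (nhds g) (nhds 1) := by
      have h3 : Continuous (fun h : Hg k => g⁻¹ * h) := continuous_const.mul continuous_id
      have h4 := h3.tendsto g
      rwa [inv_mul_cancel] at h4
    filter_upwards [h2.eventually h1] with h hh
    rintro ⟨X, hX⟩
    apply hg
    have h5 : ∀ i' j', ∃ z, ((ρ ((g⁻¹ * h : Hg k) : GG k) : Matrix (Fin 2) (Fin 2) A) - 1) i' j' =
        z * (l : A) ^ (m + i) := by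
      intro i' j'
      have h6 := hh i' j'
      rw [hmax, Ideal.span_singleton_pow, Ideal.mem_span_singleton'] at h6
      obtain ⟨z, hz⟩ := h6
      exact ⟨z, hz.symm⟩
    choose Z hZ using h5
    have h7 : (ρ ((g⁻¹ * h : Hg k) : GG k) : Matrix (Fin 2) (Fin 2) A) =
        1 + (l : A) ^ (m + i) • Matrix.of Z := by
      ext i' j'
      have h8 := hZ i' j'
      rw [Matrix.sub_apply] at h8
      rw [Matrix.add_apply, Matrix.smul_apply, Matrix.of_apply, smul_eq_mul]
      linear_combination h8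
    have h9 : (ρ h : Matrix (Fin 2) (Fin 2) A) = (ρ g : Matrix (Fin 2) (Fin 2) A) *
        (ρ ((g⁻¹ * h : Hg k) : GG k) : Matrix (Fin 2) (Fin 2) A) := by
      rw [← Units.val_mul, ← map_mul, ← Subgroup.coe_mul, mul_inv_cancel_left]
    refine ⟨Matrix.of Z + X + (l : A) ^ (m + i) • (Matrix.of Z * X), ?_⟩
    rw [hX, h9, h7, mul_assoc]
    congr 1
    simp only [mul_add, add_mul, mul_one, one_mul, smul_mul_assoc, mul_smul_comm, smul_add]
    abel
  obtain ⟨g, hg⟩ := IsCompact.nonempty_iInter_of_sequence_nonempty_isCompact_isClosed C hanti hne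
    (hclosed 0).isCompact hclosed
  refine ⟨g, ?_⟩
  rw [Set.mem_iInter] at hg
  rw [← sub_eq_zero]
  ext i j
  rw [Matrix.zero_apply]
  have h1 := Ideal.iInf_pow_eq_bot_of_isLocalRing (maximalIdeal A)
    (Ideal.IsPrime.ne_top inferInstance)
  rw [← Submodule.mem_bot A, ← h1, Submodule.mem_iInf]
  intro N
  obtain ⟨X, hX⟩ := hg N
  have h2 : ((ρ g : Matrix (Fin 2) (Fin 2) A) - M) i j =
      -((l : A) ^ (m + N) * (((ρ g : Matrix (Fin 2) (Fin 2) A) * X) i j)) := by
    rw [hX, mul_add, mul_one, mul_smul_comm, sub_add_cancel_left, Matrix.neg_apply,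
      Matrix.smul_apply, smul_eq_mul]
  rw [h2]
  refine Ideal.neg_mem_iff _ |>.2 (Ideal.mul_mem_right _ _ ?_)
  exact Ideal.pow_le_pow_right (by omega) (Ideal.pow_mem_pow hlA (m + N))

theorem det_one {ρ : GG k →* GL (Fin 2) A} {a : Hg k → Matrix (Fin 2) (Fin 2) A} {σ : GG k}
    {u : ℕ} (hl : l.Prime) (hm : 2 < l ^ m) (hA : IsAdic (maximalIdeal A))
    (hlA : (l : A) ∈ maximalIdeal A) (hl0 : (l : A) ≠ 0) (hu : ¬ l ∣ u) (hρ : Continuous ρ)
    (hur : ∀ P : Ideal (intRing k S), P.IsMaximal → ∀ τ : GG k, InInertiaG P τ → ρ τ = 1)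
    (ha : ∀ g : Hg k, (ρ g : Matrix (Fin 2) (Fin 2) A) = 1 + (l : A) ^ m • a g)
    (hσ : ∀ z : Om k, z ^ (l ^ (m + 1)) = 1 → σ z = z ^ (1 + l ^ m * u)) (g : Hg k) :
    (ρ g : Matrix (Fin 2) (Fin 2) A).det = 1 := by
  have hm0 : m ≠ 0 := by
    rintro rfl
    rw [pow_zero] at hm
    omega
  have htop : IsTopologicalRing A := by
    have h1 : ‹TopologicalSpace A› = (maximalIdeal A).adicTopology := hA
    rw [h1]
    exact (maximalIdeal A).adic_basis.toRing_subgroups_basis.toRingFilterBasis.isTopologicalRing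
  let ρ1 : GG k →* GL (Fin 1) A :=
    (Units.map ((Matrix.scalar (Fin 1) : A →+* Matrix (Fin 1) (Fin 1) A) :
      A →* Matrix (Fin 1) (Fin 1) A)).comp (Matrix.GeneralLinearGroup.det.comp ρ)
  have hρ1 : ∀ g, (ρ1 g : Matrix (Fin 1) (Fin 1) A) =
      Matrix.scalar (Fin 1) (ρ g : Matrix (Fin 2) (Fin 2) A).det := fun g => rfl
  have hc1 : Continuous fun g : GG k => (ρ1 g : Matrix (Fin 1) (Fin 1) A) := by
    have h1 : Continuous fun g : GG k => (ρ g : Matrix (Fin 2) (Fin 2) A).det :=
      (Units.continuous_val.comp hρ).matrix_det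
    refine continuous_matrix fun i j => ?_
    have h2 : (fun g : GG k => (ρ1 g : Matrix (Fin 1) (Fin 1) A) i j) =
        fun g : GG k => (ρ g : Matrix (Fin 2) (Fin 2) A).det := by
      funext g
      rw [hρ1]
      have h3 : i = j := Subsingleton.elim i j
      rw [h3]
      simp
    rw [h2]
    exact h1
  have hcont : Continuous ρ1 := by
    rw [Units.continuous_iff]
    refine ⟨hc1, ?_⟩
    have h1 : (fun g : GG k => (((ρ1 g)⁻¹ : GL (Fin 1) A) : Matrix (Fin 1) (Fin 1) A)) =
        (fun g : GG k => (ρ1 g : Matrix (Fin 1) (Fin 1) A)) ∘ fun g => g⁻¹ := by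
      funext g
      show _ = (ρ1 g⁻¹ : Matrix (Fin 1) (Fin 1) A)
      rw [map_inv]
    show Continuous fun g : GG k => (((ρ1 g)⁻¹ : GL (Fin 1) A) : Matrix (Fin 1) (Fin 1) A)
    rw [h1]
    exact hc1.comp continuous_inv
  let a1 : Hg k → Matrix (Fin 1) (Fin 1) A := fun g =>
    Matrix.scalar (Fin 1) ((a g).trace + (l : A) ^ m * (a g).det)
  have ha1 : ∀ g : Hg k, (ρ1 g : Matrix (Fin 1) (Fin 1) A) = 1 + (l : A) ^ m • a1 g := by
    intro g
    have h1 : (1 + (l : A) ^ m • a g).det = 1 + (l : A) ^ m * ((a g).trace +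
        (l : A) ^ m * (a g).det) := by
      rw [Matrix.det_fin_two, Matrix.det_fin_two, Matrix.trace_fin_two]
      simp only [Matrix.add_apply, Matrix.smul_apply, smul_eq_mul, Matrix.one_apply_eq,
        Matrix.one_apply_ne (show (0 : Fin 2) ≠ 1 by decide),
        Matrix.one_apply_ne (show (1 : Fin 2) ≠ 0 by decide), zero_add]
      ring
    rw [hρ1, ha, h1, map_add, map_one, map_mul]
    congr 1
    ext i j
    rw [Matrix.smul_apply]
    have h3 : i = j := Subsingleton.elim i j
    rw [h3]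
    simp [a1]
  obtain ⟨hT, hrel⟩ := relGeo (S := S) hl hm hA hlA hl0 hcont (fun P hP τ hτ => by
    apply Units.ext
    rw [hρ1, hur P hP τ hτ, Units.val_one, Matrix.det_one, map_one]
    rfl) ha1 hσ
  have hnil : ∃ K : ℕ, Submodule.span A (Set.range a1) ^ K ≤
      maximalIdeal A • (⊤ : Submodule A (Matrix (Fin 1) (Fin 1) A)) := by
    refine triNil (ρ1 σ).isUnit hl hl.one_lt hlA hl0 hm0 hu hT hrel
      ((residue A).mapMatrix) (residue A) ?_ (fun r => residue_eq_zero_iff r) ?_ ?_ ?_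
    · intro r X
      ext i j
      rw [RingHom.mapMatrix_apply, Matrix.map_apply, Matrix.smul_apply, smul_eq_mul, map_mul]
      rfl
    · intro X
      exact (AddMonoidHom.map_trace (residue A : A →+* ResidueField A) X).symm
    · intro X hX i j
      rw [← residue_eq_zero_iff]
      exact congrFun (congrFun hX i) j
    · intro g i j hij
      exact absurd hij (by rw [Subsingleton.elim i j]; exact lt_irrefl _)
  obtain ⟨w1, w2, w3⟩ := WW_stable (a := a1) (l := l) (m := m)
  have h1 := bigNil (ρ1 σ).isUnit hl hl.one_lt hlA hl0 hm0 hu hT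
    (fun g => hrel (WW a1 l) w1 w2 w3 g) hnil
  rw [pow_one, I1, Submodule.span_eq_bot] at h1
  have h2 := h1 (a1 g) ⟨g, rfl⟩
  have h3 := ha1 g
  rw [h2, smul_zero, add_zero, hρ1] at h3
  have h4 := congrFun (congrFun h3 0) 0
  simpa using h4

end

end Pool.Agent.R417.GE
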