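import Pool.Agent.W569.UG.MainC

/-! Kummer theory: characters of `l`-power order of the geometric fundamental group. -/

set_option autoImplicit false

namespace Pool.Agent.R417.GE

open Polynomial Pool.Agent.W569.UG Pool.Agent.W356.UG

section

variable {k : Type} [Field k]

/-- the products of the `t - a`, `a ∈ S` -/
noncomputable def Un (S : Set k) : Submonoid (Om k) :=
  Submonoid.closure {x | ∃ a ∈ S, x = tt k - algebraMap k (Om k) a}

theorem case2' [CharZero k] {l : ℕ} (hl : l.Prime) (S : Set k)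
    (f : Hg k →* Multiplicative (ZMod l))
    {ζ u : Om k} (hu : Ch l f ζ u) (A : Polynomial (kb k)) (hA : A ≠ 0)
    (huA : u ^ l = aeval (tt k) A)
    (hy : ∀ y : kb k, l ∣ A.rootMultiplicity y ∨ ∃ a ∈ S, (y : Om k) = algebraMap k (Om k) a) :
    ∃ v, Ch l f ζ v ∧ v ^ l ∈ Un S := by
  classical
  have hac : IsAlgClosed (kb k) := (algebraicClosure.isAlgClosure k (Om k)).isAlgClosed
  have hsp := (IsAlgClosed.splits A).eq_prod_roots
  have hev : aeval (tt k) A = (A.leadingCoeff : Om k) *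
      ∏ y ∈ A.roots.toFinset, (tt k - (y : Om k)) ^ A.rootMultiplicity y := by
    conv_lhs => rw [hsp]
    rw [map_mul, aeval_C, Finset.prod_multiset_map_count, map_prod]
    congr 1
    refine Finset.prod_congr rfl fun y _ => ?_
    rw [map_pow, ev_X_sub_C, Polynomial.count_roots]
  obtain ⟨e, he⟩ := IsAlgClosed.exists_pow_nat_eq A.leadingCoeff hl.pos
  have he0 : e ≠ 0 := by
    rintro rfl
    rw [zero_pow hl.ne_zero] at he
    exact hA (Polynomial.leadingCoeff_eq_zero.1 he.symm)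
  obtain ⟨G, hG⟩ : ∃ G : Om k, G = (e : Om k) *
      ∏ y ∈ A.roots.toFinset, (tt k - (y : Om k)) ^ (A.rootMultiplicity y / l) := ⟨_, rfl⟩
  have hG0 : G ≠ 0 := by
    rw [hG]
    refine mul_ne_zero (by simpa using he0) (Finset.prod_ne_zero_iff.2 fun y _ => ?_)
    exact pow_ne_zero _ (tt_sub_ne y)
  have hGm : G ∈ geomField k := by
    rw [hG]
    exact mul_mem (kb_mem _) (prod_mem fun y _ => pow_mem (sub_mem tt_mem (kb_mem y)) _)
  refine ⟨u * G⁻¹, hu.mul_fx (inv_ne_zero hG0) (fx_of_mem (inv_mem hGm)), ?_⟩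
  have hvl : (u * G⁻¹) ^ l =
      ∏ y ∈ A.roots.toFinset, (tt k - (y : Om k)) ^ (A.rootMultiplicity y % l) := by
    have h1 : u ^ l = G ^ l *
        ∏ y ∈ A.roots.toFinset, (tt k - (y : Om k)) ^ (A.rootMultiplicity y % l) := by
      rw [huA, hev, hG, mul_pow, mul_assoc, ← Finset.prod_pow, ← Finset.prod_mul_distrib]
      congr 1
      · have := congrArg (fun z : kb k => (z : Om k)) he
        simpa using this.symm
      · refine Finset.prod_congr rfl fun y _ => ?_
        rw [← pow_mul, ← pow_add, Nat.div_add_mod']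
    rw [mul_pow, h1, inv_pow]
    have h2 : G ^ l ≠ 0 := pow_ne_zero _ hG0
    field_simp
  rw [hvl]
  refine Submonoid.prod_mem _ fun y _ => ?_
  rcases hy y with h1 | ⟨a, ha, h1⟩
  · rw [Nat.mod_eq_zero_of_dvd h1, pow_zero]
    exact one_mem _
  · refine pow_mem (Submonoid.subset_closure ?_) _
    exact ⟨a, ha, by rw [h1]⟩

theorem key0 [CharZero k] {l : ℕ} (hl : l.Prime) (S : Set k)
    (f : Hg k →* Multiplicative (ZMod l)) (hf : IsOpen (f.ker : Set (Hg k)))
    (hin : ∀ P : Ideal (intRing k S), P.IsMaximal → ∀ τ : Hg k, InInertiaG P (τ : GG k) →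
      f τ = 1) : ∃ ζ v, IsPrimitiveRoot ζ l ∧ Ch l f ζ v ∧ v ^ l ∈ Un S := by
  have hch : CharZero (RatFunc k) := charZero_of_injective_algebraMap
    (algebraMap k (RatFunc k)).injective
  have hroots : ∀ z : Om k, z ^ l = 1 → z ∈ geomField k := by
    intro z hz
    refine alg_mem ⟨X ^ l - 1, ?_, ?_⟩
    · exact Polynomial.X_pow_sub_C_ne_zero hl.pos 1
    · rw [map_sub, map_pow, aeval_X, hz, map_one, sub_self]
  obtain ⟨ζ, u, hζ, hu0, hul, hu⟩ :=
    Pool.Agent.W975.UG.main (RatFunc k) l hl (geomField k) hroots f hf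
  obtain ⟨a, b, ha, hb, hb0, hab⟩ := Pool.Agent.W797.UG.GEO.main k (u ^ l) hul
  obtain ⟨a', ha'⟩ := lift_poly a ha
  obtain ⟨b', hb'⟩ := lift_poly b hb
  rw [← hb'] at hb0 hab
  rw [← ha'] at hab
  have hCh : Ch l f ζ (u * aeval (tt k) b') := by
    refine Ch.mul_fx ⟨hu0, hu⟩ hb0 (fx_of_mem (ev_mem b'))
  obtain ⟨l', hl'⟩ : ∃ l', l = l' + 1 := ⟨l - 1, by have := hl.pos; omega⟩
  have huA : (u * aeval (tt k) b') ^ l = aeval (tt k) (a' * b' ^ l') := by
    rw [mul_pow, map_mul, map_pow]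
    conv_lhs => rw [show (aeval (tt k) b') ^ l = aeval (tt k) b' * (aeval (tt k) b') ^ l' by
      rw [hl', pow_succ, mul_comm]]
    rw [← mul_assoc, hab]
  have hA : a' * b' ^ l' ≠ 0 := by
    intro h0
    rw [h0, map_zero] at huA
    exact pow_ne_zero l hCh.1 huA
  by_cases hex : ∃ y : kb k, ¬ l ∣ (a' * b' ^ l').rootMultiplicity y ∧
      ∀ a ∈ S, (y : Om k) ≠ algebraMap k (Om k) a
  · obtain ⟨y, hy, hyS⟩ := hex
    have h1 := case1 (Pool.Agent.W368.UG.main Pool.Agent.W797.UG.GEO.main) hl S f hin hζ hCh _ hA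
      huA y hy hyS
    refine ⟨ζ, 1, hζ, ⟨one_ne_zero, fun h => ?_⟩, ?_⟩
    · rw [h1, map_one]
      simp
    · rw [one_pow]
      exact one_mem _
  · push Not at hex
    obtain ⟨v, hv⟩ := case2' hl S f hCh _ hA huA (fun y => by
      by_cases hy : l ∣ (a' * b' ^ l').rootMultiplicity y
      · exact Or.inl hy
      · exact Or.inr (hex y hy))
    exact ⟨ζ, v, hζ, hv⟩

/-- a character of order `l` with values in a field -/
theorem toZ {G F : Type} [Group G] [Field F] {l : ℕ} (hl : l.Prime) {ζ : F}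
    (hζ : IsPrimitiveRoot ζ l) (f : G →* Fˣ) (hf : ∀ g, f g ^ l = 1) :
    ∃ f1 : G →* Multiplicative (ZMod l), ∀ g,
      (f g : F) = ζ ^ (Multiplicative.toAdd (f1 g)).val := by
  have : NeZero l := ⟨hl.ne_zero⟩
  have h1 : ∀ g, ∃ i : ℕ, ζ ^ i = (f g : F) := by
    intro g
    obtain ⟨i, -, hi⟩ := hζ.eq_pow_of_pow_eq_one (ξ := (f g : F)) (by
      rw [← Units.val_pow_eq_pow_val, hf, Units.val_one])
    exact ⟨i, hi⟩
  choose i hi using h1
  have h2 : ∀ a b : ℕ, ζ ^ a = ζ ^ b ↔ (a : ZMod l) = b := by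
    intro a b
    rw [ZMod.natCast_eq_natCast_iff, hζ.eq_orderOf]
    exact IsOfFinOrder.pow_eq_pow_iff_modEq
      (isOfFinOrder_iff_pow_eq_one.2 ⟨l, hl.pos, hζ.pow_eq_one⟩)
  refine ⟨MonoidHom.mk' (fun g => Multiplicative.ofAdd (i g : ZMod l)) (fun a b => ?_),
    fun g => ?_⟩
  · rw [← ofAdd_add, ← Nat.cast_add]
    congr 1
    rw [← h2, pow_add, hi, hi, hi, map_mul, Units.val_mul]
  · rw [MonoidHom.mk'_apply, toAdd_ofAdd, ← hi, h2, ZMod.natCast_zmod_val]

theorem charZero_Om [CharZero k] : CharZero (Om k) := by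
  have hC : CharZero (RatFunc k) := charZero_of_injective_algebraMap
    (algebraMap k (RatFunc k)).injective
  exact charZero_of_injective_algebraMap (algebraMap (RatFunc k) (Om k)).injective

theorem key1 [CharZero k] {l : ℕ} (hl : l.Prime) (S : Set k)
    (f : Hg k →* (Om k)ˣ) (hfl : ∀ h, f h ^ l = 1) (hf : IsOpen (f.ker : Set (Hg k)))
    (hin : ∀ P : Ideal (intRing k S), P.IsMaximal → ∀ τ : Hg k, InInertiaG P (τ : GG k) →
      f τ = 1) : ∃ v : Om k, v ≠ 0 ∧ v ^ l ∈ Un S ∧ ∀ h : Hg k, (h : GG k) v = (f h : Om k) * v := by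
  have hC := charZero_Om (k := k)
  have : NeZero (l : Om k) := ⟨Nat.cast_ne_zero.2 hl.ne_zero⟩
  have : NeZero l := ⟨hl.ne_zero⟩
  obtain ⟨ζ, hζ⟩ := HasEnoughRootsOfUnity.exists_primitiveRoot (Om k) l
  obtain ⟨f1, hf1⟩ := toZ hl hζ f hfl
  have h1 : ∀ h, f1 h = 1 ↔ f h = 1 := by
    intro h
    rw [← Units.val_inj, hf1, Units.val_one, hζ.pow_eq_one_iff_dvd]
    constructor
    · intro h2
      rw [h2]
      simp
    · intro h2
      have h4 : (Multiplicative.toAdd (f1 h)).val = 0 :=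
        Nat.eq_zero_of_dvd_of_lt h2 (ZMod.val_lt _)
      have h5 : Multiplicative.toAdd (f1 h) = 0 := (ZMod.val_eq_zero _).1 h4
      exact Multiplicative.toAdd.injective h5
  obtain ⟨ζ', v, hζ', hv, hvU⟩ := key0 hl S f1 (by
    have h2 : f1.ker = f.ker := by
      ext h
      exact h1 h
    rw [h2]
    exact hf) (fun P hP τ hτ => (h1 τ).2 (hin P hP τ hτ))
  obtain ⟨j, -, hj⟩ := hζ'.eq_pow_of_pow_eq_one hζ.pow_eq_one
  refine ⟨v ^ j, pow_ne_zero _ hv.1, ?_, fun h => ?_⟩
  · rw [← pow_mul, mul_comm, pow_mul]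
    exact pow_mem hvU _
  · rw [map_pow, hv.2 h, hf1, ← hj, mul_pow, ← pow_mul, ← pow_mul, mul_comm _ j]

theorem isIntegral_algebra (S : Set k) {x : RatFunc k} (hx : x ∈ coordRing k S) :
    IsIntegral (coordRing k S) (algebraMap (RatFunc k) (Om k) x) :=
  isIntegral_algebraMap (R := coordRing k S) (A := Om k) (x := ⟨x, hx⟩)

theorem un_alg (S : Set k) {D : Om k} (hD : D ∈ Un S) : ∃ x : RatFunc k,
    algebraMap (RatFunc k) (Om k) x = D ∧ x ≠ 0 ∧ x ∈ coordRing k S ∧ x⁻¹ ∈ coordRing k S := by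
  induction hD using Submonoid.closure_induction with
  | mem x hx =>
    obtain ⟨a, ha, rfl⟩ := hx
    refine ⟨RatFunc.X - RatFunc.C a, ?_, ?_, ?_, ?_⟩
    · rw [map_sub, IsScalarTower.algebraMap_apply k (RatFunc k) (Om k)]
      rfl
    · intro h0
      rw [sub_eq_zero] at h0
      have h2 : IsAlgebraic k (RatFunc.X : RatFunc k) := by
        rw [h0]
        exact isAlgebraic_algebraMap a
      exact RatFunc.transcendental_X h2
    · exact sub_mem (Algebra.subset_adjoin (Or.inl rfl)) ((coordRing k S).algebraMap_mem a)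
    · exact Algebra.subset_adjoin (Or.inr ⟨a, ha, rfl⟩)
  | one => exact ⟨1, map_one _, one_ne_zero, one_mem _, by rw [inv_one]; exact one_mem _⟩
  | mul x y _ _ hx hy =>
    obtain ⟨a, ha, ha0, ha1, ha2⟩ := hx
    obtain ⟨b, hb, hb0, hb1, hb2⟩ := hy
    exact ⟨a * b, by rw [map_mul, ha, hb], mul_ne_zero ha0 hb0, mul_mem ha1 hb1, by
      rw [mul_inv]; exact mul_mem ha2 hb2⟩

theorem inertia_root [CharZero k] (S : Set k) {P : Ideal (intRing k S)} (hP : P.IsMaximal)
    {g : GG k} (hg : InInertiaG P g) {V ω : Om k} {N : ℕ} (hN : N ≠ 0) (hω : ω ^ N = 1)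
    (hV0 : V ≠ 0) (hVN : V ^ N ∈ Un S) (hgV : g V = ω * V) : ω = 1 := by
  have hC := charZero_Om (k := k)
  by_contra hne
  obtain ⟨x, hx, hx0, hx1, hx2⟩ := un_alg S hVN
  have hV : IsIntegral (coordRing k S) V := by
    refine IsIntegral.of_pow (Nat.pos_of_ne_zero hN) ?_
    rw [← hx]
    exact isIntegral_algebra S hx1
  have hV' : IsIntegral (coordRing k S) V⁻¹ := by
    refine IsIntegral.of_pow (Nat.pos_of_ne_zero hN) ?_
    rw [inv_pow, ← hx, ← map_inv₀]
    exact isIntegral_algebra S hx2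
  have hωi : IsIntegral (coordRing k S) ω := by
    refine IsIntegral.of_pow (Nat.pos_of_ne_zero hN) ?_
    rw [hω]
    exact isIntegral_one
  have hNi : IsIntegral (coordRing k S) ((N : Om k)⁻¹) := by
    have h1 := isIntegral_algebra S ((coordRing k S).algebraMap_mem ((N : k)⁻¹))
    rw [map_inv₀, map_inv₀, map_natCast, map_natCast] at h1
    exact h1
  let V1 : intRing k S := ⟨V, hV⟩
  let V2 : intRing k S := ⟨V⁻¹, hV'⟩
  let w : intRing k S := ⟨ω, hωi⟩
  let N1 : intRing k S := ⟨(N : Om k)⁻¹, hNi⟩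
  obtain ⟨z, hzP, hz⟩ := hg V1
  have h1 : w - 1 ∈ P := by
    have h2 : w - 1 = z * V2 := by
      apply Subtype.ext
      show ω - 1 = (z : Om k) * V⁻¹
      rw [hz]
      show ω - 1 = (g V - V) * V⁻¹
      rw [hgV]
      field_simp
    rw [h2]
    exact P.mul_mem_right _ hzP
  have h3 : ∑ i ∈ Finset.range N, w ^ i = 0 := by
    have h4 : (∑ i ∈ Finset.range N, w ^ i) * (w - 1) = w ^ N - 1 := geom_sum_mul w N
    have h5 : w ^ N = 1 := Subtype.ext (by
      show ω ^ N = 1
      exact hω)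
    rw [h5, sub_self, mul_eq_zero] at h4
    rcases h4 with h4 | h4
    · exact h4
    · exfalso
      apply hne
      have h6 := congrArg (fun z : intRing k S => (z : Om k)) h4
      have h7 : ω - 1 = 0 := h6
      exact sub_eq_zero.1 h7
  have h8 : (N : intRing k S) ∈ P := by
    have h9 : (N : intRing k S) = -(∑ i ∈ Finset.range N, (w ^ i - 1)) := by
      rw [Finset.sum_sub_distrib, h3]
      simp
    rw [h9]
    refine P.neg_mem (P.sum_mem fun i _ => ?_)
    have h10 : w - 1 ∣ w ^ i - 1 := by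
      have h11 := sub_dvd_pow_sub_pow w 1 i
      rwa [one_pow] at h11
    exact P.mem_of_dvd h10 h1
  apply hP.ne_top
  rw [Ideal.eq_top_iff_one]
  have h12 : (1 : intRing k S) = N1 * (N : intRing k S) := by
    apply Subtype.ext
    show (1 : Om k) = (N : Om k)⁻¹ * (((N : intRing k S)) : Om k)
    have h13 : (((N : intRing k S)) : Om k) = (N : Om k) := by
      exact map_natCast (intRing k S).subtype N
    rw [h13, inv_mul_cancel₀ (Nat.cast_ne_zero.2 hN)]
  rw [h12]
  exact P.mul_mem_left _ h8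

theorem isOpen_stab (V : Om k) : IsOpen {h : Hg k | (h : GG k) V = V} := by
  have h1 : IsOpen ((IntermediateField.adjoin (RatFunc k) {V}).fixingSubgroup : Set (GG k)) := by
    have : FiniteDimensional (RatFunc k) (IntermediateField.adjoin (RatFunc k) {V}) :=
      IntermediateField.adjoin.finiteDimensional (Algebra.IsIntegral.isIntegral V)
    exact IntermediateField.fixingSubgroup_isOpen _
  have h2 : {h : Hg k | (h : GG k) V = V} = (Subtype.val : Hg k → GG k) ⁻¹'
      ((IntermediateField.adjoin (RatFunc k) {V}).fixingSubgroup : Set (GG k)) := by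
    ext h
    constructor
    · intro hh
      show (h : GG k) ∈ (IntermediateField.adjoin (RatFunc k) {V}).fixingSubgroup
      have h3 : IntermediateField.adjoin (RatFunc k) {V} ≤
          IntermediateField.fixedField (Subgroup.zpowers (h : GG k)) := by
        rw [IntermediateField.adjoin_le_iff]
        rintro z rfl
        show z ∈ IntermediateField.fixedField (Subgroup.zpowers (h : GG k))
        rw [IntermediateField.mem_fixedField_iff]
        intro f hf
        have h4 : Subgroup.zpowers (h : GG k) ≤ MulAction.stabilizer (GG k) z := by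
          rw [Subgroup.zpowers_le, MulAction.mem_stabilizer_iff]
          exact hh
        exact h4 hf
      rw [IntermediateField.mem_fixingSubgroup_iff]
      intro x hx
      exact (IntermediateField.mem_fixedField_iff _ _).1 (h3 hx) h
        (Subgroup.mem_zpowers (h : GG k))
    · intro hh
      exact (IntermediateField.mem_fixingSubgroup_iff _ _).1 hh V
        (IntermediateField.mem_adjoin_simple_self _ V)
  rw [h2]
  exact h1.preimage continuous_subtype_val

/-- the action of the Galois group on the characters of `l`-power order of the geometric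
fundamental group of the affine line minus `S` -/
theorem kump [CharZero k] {l : ℕ} (hl : l.Prime) (S : Set k) (σ : GG k) (c : ℕ) : ∀ (K : ℕ),
    (∀ z : Om k, z ^ (l ^ K) = 1 → σ z = z ^ c) →
    ∀ (f : Hg k →* (Om k)ˣ), (∀ h, f h ^ (l ^ K) = 1) → IsOpen (f.ker : Set (Hg k)) →
    (∀ P : Ideal (intRing k S), P.IsMaximal → ∀ τ : Hg k, InInertiaG P (τ : GG k) → f τ = 1) →
    ∀ (h : Hg k) (hh : σ * h * σ⁻¹ ∈ Hg k), f ⟨σ * h * σ⁻¹, hh⟩ = f h ^ c := by
  intro K
  induction K with
  | zero =>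
    intro _ f hf _ _ h hh
    have h1 : ∀ h, f h = 1 := by simpa using hf
    rw [h1, h1, one_pow]
  | succ K ih =>
    intro hσ f hfK hfo hin h hh
    obtain ⟨v, hv0, hvU, hv⟩ := key1 hl S ((powMonoidHom (l ^ K)).comp f) (fun h => by
      show (f h ^ (l ^ K)) ^ l = 1
      rw [← pow_mul, ← pow_succ]
      exact hfK h) (by
      refine Subgroup.isOpen_mono (H₁ := f.ker) ?_ hfo
      intro h hh
      show f h ^ (l ^ K) = 1
      rw [show f h = 1 from hh, one_pow]) (fun P hP τ hτ => by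
      show f τ ^ (l ^ K) = 1
      rw [hin P hP τ hτ, one_pow])
    have hlK : 0 < l ^ K := Nat.pow_pos hl.pos
    have hlK1 : 0 < l ^ (K + 1) := Nat.pow_pos hl.pos
    obtain ⟨V, hV⟩ := IsAlgClosed.exists_pow_nat_eq v hlK
    have hV0 : V ≠ 0 := by
      rintro rfl
      rw [zero_pow hlK.ne'] at hV
      exact hv0 hV.symm
    have hVD : V ^ (l ^ (K + 1)) ∈ Un S := by
      rw [pow_succ, pow_mul, hV]
      exact hvU
    obtain ⟨x, hx, -⟩ := un_alg S hVD
    have hfix : ∀ g : GG k, g (V ^ (l ^ (K + 1))) = V ^ (l ^ (K + 1)) := by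
      intro g
      rw [← hx]
      exact g.commutes x
    have hrt : ∀ g : GG k, (g V * V⁻¹) ^ (l ^ (K + 1)) = 1 := by
      intro g
      rw [mul_pow, ← map_pow, hfix, inv_pow, mul_inv_cancel₀ (pow_ne_zero _ hV0)]
    have hrtfix : ∀ (z : Om k), z ^ (l ^ (K + 1)) = 1 → ∀ h : Hg k, (h : GG k) z = z := by
      intro z hz h
      refine mem_Hg.1 h.2 z ⟨X ^ (l ^ (K + 1)) - 1, ?_, ?_⟩
      · exact Polynomial.X_pow_sub_C_ne_zero hlK1 1
      · rw [map_sub, map_pow, aeval_X, hz, map_one, sub_self]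
    let g0' : Hg k →* Om k :=
      { toFun := fun h => (h : GG k) V * V⁻¹
        map_one' := by
          show (1 : GG k) V * V⁻¹ = 1
          rw [AlgEquiv.one_apply, mul_inv_cancel₀ hV0]
        map_mul' := fun a b => by
          show ((a : GG k) * (b : GG k)) V * V⁻¹ = _
          rw [AlgEquiv.mul_apply]
          have h1 : (b : GG k) V = ((b : GG k) V * V⁻¹) * V := by
            rw [mul_assoc, inv_mul_cancel₀ hV0, mul_one]
          rw [h1, map_mul, hrtfix _ (hrt b) a, ← h1]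
          ring }
    let g0 : Hg k →* (Om k)ˣ := g0'.toHomUnits
    have hg0 : ∀ h, ((g0 h : (Om k)ˣ) : Om k) = (h : GG k) V * V⁻¹ := fun h => rfl
    have hg0V : ∀ h : Hg k, (h : GG k) V = (g0 h : Om k) * V := by
      intro h
      rw [hg0, mul_assoc, inv_mul_cancel₀ hV0, mul_one]
    have h3 : g0 ⟨σ * h * σ⁻¹, hh⟩ = g0 h ^ c := by
      rw [← Units.val_inj, Units.val_pow_eq_pow_val, hg0]
      show (σ ((h : GG k) (σ⁻¹ V))) * V⁻¹ = _
      have h4 : σ⁻¹ V = (σ⁻¹ V * V⁻¹) * V := by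
        rw [mul_assoc, inv_mul_cancel₀ hV0, mul_one]
      have h5 : (h : GG k) (σ⁻¹ V) = (g0 h : Om k) * σ⁻¹ V := by
        rw [h4, map_mul, hrtfix _ (hrt σ⁻¹) h, hg0V, ← h4]
        nth_rewrite 2 [h4]
        ring
      rw [h5, map_mul, hσ _ (by rw [hg0]; exact hrt h)]
      have h6 : σ (σ⁻¹ V) = V := by
        show (σ * σ⁻¹) V = V
        rw [mul_inv_cancel]
        rfl
      rw [h6, mul_assoc, mul_inv_cancel₀ hV0, mul_one]
    have h7 : (f / g0) ⟨σ * h * σ⁻¹, hh⟩ = (f / g0) h ^ c := by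
      refine ih (fun z hz => hσ z (by rw [pow_succ, pow_mul, hz, one_pow])) (f / g0) ?_ ?_ ?_ h hh
      · intro h
        have h20 : (g0 h : Om k) ^ (l ^ K) = (f h : Om k) ^ (l ^ K) := by
          rw [hg0, mul_pow, inv_pow, ← map_pow (h : GG k), hV, hv h, mul_assoc,
            mul_inv_cancel₀ hv0, mul_one]
          rfl
        rw [MonoidHom.div_apply, div_pow, div_eq_one, ← Units.val_inj,
          Units.val_pow_eq_pow_val, Units.val_pow_eq_pow_val, h20]
      · have h8 : IsOpen ((g0.ker : Subgroup (Hg k)) : Set (Hg k)) := by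
          have h9 : ((g0.ker : Subgroup (Hg k)) : Set (Hg k)) =
              {h : Hg k | (h : GG k) V = V} := by
            ext h
            show g0 h = 1 ↔ (h : GG k) V = V
            rw [← Units.val_inj, hg0, Units.val_one, mul_inv_eq_one₀ hV0]
          rw [h9]
          exact isOpen_stab V
        refine Subgroup.isOpen_mono (H₁ := f.ker ⊓ g0.ker) ?_ (hfo.inter h8)
        rintro h ⟨h10, h11⟩
        show (f / g0) h = 1
        rw [MonoidHom.div_apply, show f h = 1 from h10, show g0 h = 1 from h11, div_one]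
      · intro P hP τ hτ
        have h12 : g0 τ = 1 := by
          rw [← Units.val_inj, Units.val_one]
          exact inertia_root S hP hτ hlK1.ne' (hrt τ) hV0 hVD (hg0V τ)
        rw [MonoidHom.div_apply, hin P hP τ hτ, h12, div_one]
    rw [MonoidHom.div_apply, MonoidHom.div_apply, h3, div_pow] at h7
    exact div_left_injective h7

end

end Pool.Agent.R417.GE
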