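import Pool.Agent.R417.GE.Kump

/-! The action of the Galois group on the abelianised finite quotients of the geometric
fundamental group. -/

set_option autoImplicit false

namespace Pool.Agent.R417.GE

open Polynomial Pool.Agent.W569.UG Pool.Agent.W356.UG

theorem ab {k : Type} [Field k] [CharZero k] {l : ℕ} (hl : l.Prime) (S : Set k) (σ : GG k)
    (c K : ℕ) (hσ : ∀ z : Om k, z ^ (l ^ K) = 1 → σ z = z ^ c)
    (N : Subgroup (Hg k)) (hN : IsOpen (N : Set (Hg k)))
    (hK : ∀ h : Hg k, h ^ (l ^ K) ∈ N)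
    (hin : ∀ P : Ideal (intRing k S), P.IsMaximal → ∀ τ : Hg k, InInertiaG P (τ : GG k) → τ ∈ N)
    (h : Hg k) (hh : σ * h * σ⁻¹ ∈ Hg k) :
    ∃ y ∈ commutator (Hg k), ∃ n ∈ N, (⟨σ * h * σ⁻¹, hh⟩ : Hg k) = h ^ c * y * n := by
  have hC := charZero_Om (k := k)
  have hC' : CharZero (RatFunc k) := charZero_of_injective_algebraMap
    (algebraMap k (RatFunc k)).injective
  have hcomp : CompactSpace (Hg k) := isCompact_iff_compactSpace.1
    (InfiniteGalois.fixingSubgroup_isClosed (geomField k)).isCompact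
  have hfin : Finite (Hg k ⧸ N) := N.quotient_finite_of_isOpen hN
  have hsurj : Function.Surjective (Abelianization.of : Hg k →* Abelianization (Hg k)) :=
    QuotientGroup.mk_surjective
  have hidx : (N.map (Abelianization.of : Hg k →* Abelianization (Hg k))).index ≠ 0 := by
    intro h0
    have h1 := N.index_map_dvd hsurj
    rw [h0, zero_dvd_iff, Subgroup.index_eq_card, Nat.card_eq_zero] at h1
    rcases h1 with h1 | h1
    · exact h1.elim (QuotientGroup.mk 1)
    · exact h1.not_finite hfin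
  have hQ : Finite (Abelianization (Hg k) ⧸ N.map (Abelianization.of)) := by
    apply Nat.finite_of_card_ne_zero
    rw [← Subgroup.index_eq_card]
    exact hidx
  have hexp : NeZero ((Monoid.exponent (Abelianization (Hg k) ⧸ N.map (Abelianization.of)) : ℕ) :
      Om k) := ⟨Nat.cast_ne_zero.2 Monoid.exponent_ne_zero_of_finite⟩
  set π : Hg k →* Abelianization (Hg k) ⧸ N.map (Abelianization.of) :=
    (QuotientGroup.mk' (N.map (Abelianization.of))).comp Abelianization.of with hπ
  have hπN : ∀ n ∈ N, π n = 1 := by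
    intro n hn
    show QuotientGroup.mk' (N.map (Abelianization.of)) (Abelianization.of n) = 1
    rw [QuotientGroup.mk'_apply, QuotientGroup.eq_one_iff]
    exact ⟨n, hn, rfl⟩
  have hx : π ((h ^ c)⁻¹ * ⟨σ * h * σ⁻¹, hh⟩) = 1 := by
    by_contra hne
    obtain ⟨φ, hφ⟩ := CommGroup.exists_apply_ne_one_of_hasEnoughRootsOfUnity
      (Abelianization (Hg k) ⧸ N.map (Abelianization.of)) (Om k) hne
    apply hφ
    have h1 := kump hl S σ c K hσ (φ.comp π) (fun h => by
      rw [MonoidHom.comp_apply, ← map_pow, ← map_pow, hπN _ (hK h), map_one]) (by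
      refine Subgroup.isOpen_mono (H₁ := N) ?_ hN
      intro n hn
      show φ (π n) = 1
      rw [hπN n hn, map_one]) (fun P hP τ hτ => by
      show φ (π τ) = 1
      rw [hπN τ (hin P hP τ hτ), map_one]) h hh
    have h2 : φ (π ⟨σ * h * σ⁻¹, hh⟩) = φ (π h) ^ c := h1
    rw [map_mul, map_mul, map_inv, map_inv, map_pow, map_pow, h2, inv_mul_cancel]
  have h2 : Abelianization.of ((h ^ c)⁻¹ * ⟨σ * h * σ⁻¹, hh⟩) ∈
      N.map (Abelianization.of : Hg k →* Abelianization (Hg k)) := by
    have h3 : QuotientGroup.mk' (N.map (Abelianization.of))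
        (Abelianization.of ((h ^ c)⁻¹ * ⟨σ * h * σ⁻¹, hh⟩)) = 1 := hx
    rw [QuotientGroup.mk'_apply, QuotientGroup.eq_one_iff] at h3
    exact h3
  obtain ⟨n, hn, hn'⟩ := h2
  refine ⟨((h ^ c)⁻¹ * ⟨σ * h * σ⁻¹, hh⟩) * n⁻¹, ?_, n, hn, ?_⟩
  · rw [← Abelianization.ker_of, MonoidHom.mem_ker, map_mul, map_inv, hn', mul_inv_cancel]
  · generalize (⟨σ * h * σ⁻¹, hh⟩ : Hg k) = x
    group

end Pool.Agent.R417.GE
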