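import Pool.Agent.R417.GE.Ctx

/-! Nilpotency of the algebra generated by the first layer: the case of a scalar-like element. -/

set_option autoImplicit false

namespace Pool.Agent.R417.GE

open Polynomial IsLocalRing Pool.Agent.W569.UG

section

variable {A : Type} [CommRing A] {n : ℕ} {H : Type}

/-- the conclusion of `rel` -/
def Rel (a : H → Matrix (Fin n) (Fin n) A) (l m u : ℕ) (F : Matrix (Fin n) (Fin n) A) : Prop :=
  ∀ W : Submodule A (Matrix (Fin n) (Fin n) A),
    (∀ g h, a g * a h - a h * a g ∈ W) →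
    (∀ g, ∀ x ∈ W, (1 + (l : A) ^ m • a g) * x ∈ W ∧ x * (1 + (l : A) ^ m • a g) ∈ W) →
    (∀ g, ∀ j : ℕ, (l : A) • a g ^ (j + 1) ∈ W) → ∀ g, ∃ ω ∈ W,
      F * a g - a g * F = (u : A) • a g + ω + (l : A) ^ m • (((u : A) • a g + ω) * F)

/-- the submodule of endomorphisms which raise the degree by `2` -/
def W2 [IsLocalRing A] (a : H → Matrix (Fin n) (Fin n) A) :
    Submodule A (Matrix (Fin n) (Fin n) A) where
  carrier := {X | ∀ i, ∀ v ∈ MM a i, X * v ∈ MM a (i + 2) ⊔ maximalIdeal A • MM a (i + 1)}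
  add_mem' := fun {x y} hx hy i v hv => by
    rw [add_mul]
    exact Submodule.add_mem _ (hx i v hv) (hy i v hv)
  zero_mem' := fun i v _ => by
    rw [zero_mul]
    exact Submodule.zero_mem _
  smul_mem' := fun c x hx i v hv => by
    rw [smul_mul_assoc]
    exact Submodule.smul_mem _ _ (hx i v hv)

variable [IsLocalRing A] {a : H → Matrix (Fin n) (Fin n) A} {l m u : ℕ}
  {F : Matrix (Fin n) (Fin n) A}

theorem pow_MM (g : H) (j : ℕ) : ∀ (i : ℕ) (v : Matrix (Fin n) (Fin n) A), v ∈ MM a i →
    a g ^ j * v ∈ MM a (i + j) := by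
  induction j with
  | zero => intro i v hv; rw [pow_zero, one_mul]; exact hv
  | succ j ih =>
    intro i v hv
    rw [pow_succ', mul_assoc]
    exact MM_mem a g (ih i v hv)

theorem W2_stable (hlA : (l : A) ∈ maximalIdeal A) :
    (∀ g h, a g * a h - a h * a g ∈ W2 a) ∧
    (∀ g, ∀ x ∈ W2 a, (1 + (l : A) ^ m • a g) * x ∈ W2 a ∧
      x * (1 + (l : A) ^ m • a g) ∈ W2 a) ∧
    (∀ g, ∀ j : ℕ, (l : A) • a g ^ (j + 1) ∈ W2 a) := by
  have hst : ∀ g i, ∀ v ∈ MM a i, a g * v ∈ MM a i := fun g i v hv =>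
    MM_anti' a i (MM_mem a g hv)
  refine ⟨fun g h i v hv => ?_, fun g x hx => ⟨fun i v hv => ?_, fun i v hv => ?_⟩,
    fun g j i v hv => ?_⟩
  · rw [sub_mul, mul_assoc, mul_assoc]
    exact Submodule.mem_sup_left (Submodule.sub_mem _ (MM_mem a g (MM_mem a h hv))
      (MM_mem a h (MM_mem a g hv)))
  · rw [mul_assoc, add_mul, one_mul, smul_mul_assoc]
    refine Submodule.add_mem _ (hx i v hv) (Submodule.smul_mem _ _ ?_)
    exact sup_stable _ (hst g _) (hst g _) _ (hx i v hv)
  · rw [mul_assoc]
    refine hx i _ ?_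
    rw [add_mul, one_mul, smul_mul_assoc]
    exact Submodule.add_mem _ hv (Submodule.smul_mem _ _ (hst g i v hv))
  · rw [smul_mul_assoc]
    refine Submodule.mem_sup_right (Submodule.smul_mem_smul hlA ?_)
    exact MM_anti a (by omega) (pow_MM g (j + 1) i v hv)

theorem mainNilp [IsNoetherianRing A] (hlA : (l : A) ∈ maximalIdeal A) (hm0 : m ≠ 0)
    (hrel : Rel a l m u F) (L : ℕ)
    (hNP : ∀ x : AlgebraicClosure (ResidueField A), ∃ i < L + 1,
      ¬ ((F.charpoly.map (residue A)).map (algebraMap (ResidueField A)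
        (AlgebraicClosure (ResidueField A)))).IsRoot
        (x - i * algebraMap (ResidueField A) (AlgebraicClosure (ResidueField A))
          (residue A (u : A))))
    (hnil : ∃ K : ℕ, Submodule.span A (Set.range a) ^ K ≤
      maximalIdeal A • (⊤ : Submodule A (Matrix (Fin n) (Fin n) A))) :
    Submodule.span A (Set.range a) ^ L = ⊥ := by
  obtain ⟨h1, h2, h3⟩ := W2_stable (a := a) (m := m) hlA
  have hr := hrel (W2 a) h1 h2 h3
  have hlm : (l : A) ^ m ∈ maximalIdeal A := Ideal.pow_mem_of_mem _ hlA _ (Nat.pos_of_ne_zero hm0)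
  have hF : ∀ i, ∀ v ∈ MM a i, F * v ∈ MM a i := by
    intro i
    induction i with
    | zero => intro v _; rw [MM_zero]; trivial
    | succ i ih =>
      intro v hv
      have hle : MM a (i + 1) ≤ (MM a (i + 1)).comap (LinearMap.mulLeft A F) := by
        refine MM_le a fun g w hw => ?_
        show F * (a g * w) ∈ MM a (i + 1)
        obtain ⟨ω, hω, hg⟩ := hr g
        have hsub : MM a (i + 2) ⊔ maximalIdeal A • MM a (i + 1) ≤ MM a (i + 1) :=
          sup_le (MM_anti' a _) Submodule.smul_le_right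
        have h4 : F * (a g * w) = a g * (F * w) + (u : A) • (a g * w) + ω * w +
            (l : A) ^ m • ((u : A) • (a g * (F * w)) + ω * (F * w)) := by
          have h5 := congrArg (fun Z => Z * w) hg
          simp only [sub_mul, add_mul, smul_mul_assoc, mul_assoc] at h5
          rw [sub_eq_iff_eq_add] at h5
          rw [h5]
          abel
        rw [h4]
        exact Submodule.add_mem _ (Submodule.add_mem _ (Submodule.add_mem _ (MM_mem a g (ih w hw))
          (Submodule.smul_mem _ _ (MM_mem a g hw))) (hsub (hω i w hw)))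
          (Submodule.smul_mem _ _ (Submodule.add_mem _ (Submodule.smul_mem _ _
            (MM_mem a g (ih w hw))) (hsub (hω i _ (ih w hw)))))
      exact hle hv
  refine grad a F (u : A) L hF ?_ (bezout _ (Matrix.charpoly_monic F) (u : A) (L + 1)
    (Nat.succ_pos _) hNP) hnil
  intro g i v hv
  obtain ⟨ω, hω, hg⟩ := hr g
  have h4 : F * (a g * v) - a g * (F * v) - (u : A) • (a g * v) = ω * v +
      ((l : A) ^ m • ((u : A) • (a g * (F * v))) + (l : A) ^ m • (ω * (F * v))) := by
    have h5 := congrArg (fun Z => Z * v) hg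
    simp only [sub_mul, add_mul, smul_mul_assoc, mul_assoc, smul_add] at h5
    rw [h5]
    abel
  rw [h4]
  exact Submodule.add_mem _ (hω i v hv) (Submodule.add_mem _ (Submodule.mem_sup_right
    (Submodule.smul_mem_smul hlm (Submodule.smul_mem _ _ (MM_mem a g (hF i v hv)))))
    (Submodule.smul_mem _ _ (hω i _ (hF i v hv))))

/-- upper triangular matrices -/
theorem tri_mul {Ω : Type} [Field Ω] {X Y : Matrix (Fin n) (Fin n) Ω}
    (hX : ∀ i j, j < i → X i j = 0) (hY : ∀ i j, j < i → Y i j = 0) :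
    (∀ i j, j < i → (X * Y) i j = 0) ∧ ∀ i, (X * Y) i i = X i i * Y i i := by
  constructor
  · intro i j hij
    rw [Matrix.mul_apply]
    refine Finset.sum_eq_zero fun k _ => ?_
    rcases lt_or_ge k i with h | h
    · rw [hX i k h, zero_mul]
    · rw [hY k j (lt_of_lt_of_le hij h), mul_zero]
  · intro i
    rw [Matrix.mul_apply]
    refine Finset.sum_eq_single i (fun k _ hk => ?_) (fun h => absurd (Finset.mem_univ i) h)
    rcases lt_or_gt_of_ne hk with h | h
    · rw [hX i k h, zero_mul]
    · rw [hY k i h, mul_zero]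

theorem mainTri (hl : l.Prime) (hlA : (l : A) ∈ maximalIdeal A) (hm0 : m ≠ 0) (hu : ¬ l ∣ u)
    (hrel : Rel a l m u F) {Ω : Type} [Field Ω]
    (φ : Matrix (Fin n) (Fin n) A →+* Matrix (Fin n) (Fin n) Ω) (ι : A →+* Ω)
    (hφ : ∀ (r : A) X, φ (r • X) = ι r • φ X) (hι : ∀ r, ι r = 0 ↔ r ∈ maximalIdeal A)
    (hker : ∀ X, φ X = 0 → ∀ i j, X i j ∈ maximalIdeal A)
    (hF : ∀ i j, j < i → φ F i j = 0) (ha : ∀ g, ∀ i j, j < i → φ (a g) i j = 0) :
    ∃ K : ℕ, Submodule.span A (Set.range a) ^ K ≤
      maximalIdeal A • (⊤ : Submodule A (Matrix (Fin n) (Fin n) A)) := by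
  have hlι : ι (l : A) = 0 := (hι _).2 hlA
  let W : ℕ → Submodule A (Matrix (Fin n) (Fin n) A) := fun s =>
    { carrier := {X | ∀ i j : Fin n, (j : ℕ) < i + s → φ X i j = 0}
      add_mem' := fun {x y} hx hy i j hij => by
        rw [map_add, Matrix.add_apply, hx i j hij, hy i j hij, add_zero]
      zero_mem' := fun i j _ => by rw [map_zero, Matrix.zero_apply]
      smul_mem' := fun c x hx i j hij => by
        rw [hφ, Matrix.smul_apply, hx i j hij, smul_zero] }
  have hW1 : ∀ g h, a g * a h - a h * a g ∈ W 1 := by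
    intro g h i j hij
    rw [map_sub, map_mul, map_mul, Matrix.sub_apply]
    obtain ⟨h1, h2⟩ := tri_mul (ha g) (ha h)
    obtain ⟨h3, h4⟩ := tri_mul (ha h) (ha g)
    rcases lt_or_eq_of_le (show j ≤ i from Fin.le_def.2 (by omega)) with h5 | rfl
    · rw [h1 i j h5, h3 i j h5, sub_zero]
    · rw [h2, h4, mul_comm, sub_self]
  have hq : ∀ g, φ (1 + (l : A) ^ m • a g) = 1 := by
    intro g
    rw [map_add, map_one, hφ, map_pow, hlι, zero_pow hm0, zero_smul, add_zero]
  have hr := hrel (W 1) hW1 (fun g x hx => ⟨fun i j hij => by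
      rw [map_mul, hq, one_mul]; exact hx i j hij, fun i j hij => by
      rw [map_mul, hq, mul_one]; exact hx i j hij⟩) (fun g j i i' _ => by
      rw [hφ, hlι, zero_smul, Matrix.zero_apply])
  have hu0 : ι (u : A) ≠ 0 := by
    intro h0
    have h1 := (hι _).1 h0
    obtain ⟨x, y, hxy⟩ := Nat.isCoprime_iff_coprime.2 (hl.coprime_iff_not_dvd.2 hu)
    have h2 : ((x : A) * (l : A) + (y : A) * (u : A)) = 1 := by
      exact_mod_cast congrArg (fun z : ℤ => (z : A)) hxy
    have h3 : (1 : A) ∈ maximalIdeal A := by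
      rw [← h2]
      exact Ideal.add_mem _ (Ideal.mul_mem_left _ _ hlA) (Ideal.mul_mem_left _ _ h1)
    exact (Ideal.ne_top_iff_one _).1 (Ideal.IsPrime.ne_top inferInstance) h3
  have hW : ∀ g, a g ∈ W 1 := by
    intro g i j hij
    obtain ⟨ω, hω, hg⟩ := hr g
    have h1 := congrArg φ hg
    rw [map_sub, map_add, map_add, map_mul, map_mul, hφ, hφ, map_pow, hlι, zero_pow hm0,
      zero_smul, add_zero] at h1
    have h2 := congrFun (congrFun h1 i) j
    rw [Matrix.sub_apply, Matrix.add_apply, Matrix.smul_apply, hω i j hij, add_zero] at h2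
    obtain ⟨h3, h4⟩ := tri_mul hF (ha g)
    obtain ⟨h5, h6⟩ := tri_mul (ha g) hF
    rcases lt_or_eq_of_le (show j ≤ i from Fin.le_def.2 (by omega)) with h7 | rfl
    · exact ha g i j h7
    · rw [h4, h6, mul_comm, sub_self, smul_eq_mul] at h2
      exact (mul_eq_zero.1 h2.symm).resolve_left hu0
  have hI : Submodule.span A (Set.range a) ≤ W 1 := by
    rw [Submodule.span_le]
    rintro _ ⟨g, rfl⟩
    exact hW g
  have hmul : ∀ s, W 1 * W s ≤ W (s + 1) := by
    intro s
    rw [Submodule.mul_le]
    intro x hx y hy i j hij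
    rw [map_mul, Matrix.mul_apply]
    refine Finset.sum_eq_zero fun k _ => ?_
    rcases Nat.lt_or_ge (k : ℕ) (i + 1) with h | h
    · rw [hx i k h, zero_mul]
    · rw [hy k j (by omega), mul_zero]
  have hpow : ∀ s, Submodule.span A (Set.range a) ^ (s + 1) ≤ W (s + 1) := by
    intro s
    induction s with
    | zero => rw [zero_add, pow_one]; exact hI
    | succ s ih =>
      rw [pow_succ']
      exact (mul_le_mul' hI ih).trans (hmul _)
  refine ⟨n + 1, fun x hx => mem_smul_top' _ _ (hker x ?_)⟩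
  ext i j
  exact hpow n hx i j (by omega)

theorem unit_u {l u : ℕ} (hl : l.Prime) (hlA : (l : A) ∈ maximalIdeal A) (hu : ¬ l ∣ u) :
    residue A (u : A) ≠ 0 := by
  intro h0
  have h1 := (residue_eq_zero_iff _).1 h0
  obtain ⟨x, y, hxy⟩ := Nat.isCoprime_iff_coprime.2 (hl.coprime_iff_not_dvd.2 hu)
  have h2 : ((x : A) * (l : A) + (y : A) * (u : A)) = 1 := by
    exact_mod_cast congrArg (fun z : ℤ => (z : A)) hxy
  have h3 : (1 : A) ∈ maximalIdeal A := by
    rw [← h2]
    exact Ideal.add_mem _ (Ideal.mul_mem_left _ _ hlA) (Ideal.mul_mem_left _ _ h1)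
  exact (Ideal.ne_top_iff_one _).1 (Ideal.IsPrime.ne_top inferInstance) h3

end

section two

variable {A : Type} [CommRing A] [IsLocalRing A] {H : Type}
  {a : H → Matrix (Fin 2) (Fin 2) A} {m u : ℕ} {F : Matrix (Fin 2) (Fin 2) A}

theorem main22 [IsNoetherianRing A] (h2A : ((2 : ℕ) : A) ∈ maximalIdeal A) (hm0 : m ≠ 0)
    (hu : ¬ 2 ∣ u) (hrel : Rel a 2 m u F)
    (htr : F 0 0 + F 1 1 - (u : A) ∉ maximalIdeal A) :
    Submodule.span A (Set.range a) ^ 1 = ⊥ := by
  have h2 : (2 : ResidueField A) = 0 := by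
    have h1 := (residue_eq_zero_iff _).2 h2A
    rw [map_natCast] at h1
    exact_mod_cast h1
  have hu0 := unit_u Nat.prime_two h2A hu
  set π : Matrix (Fin 2) (Fin 2) A →+* Matrix (Fin 2) (Fin 2) (ResidueField A) :=
    (residue A).mapMatrix with hπ
  have hπa : ∀ X i j, π X i j = residue A (X i j) := fun _ _ _ => rfl
  have hπs : ∀ (r : A) X, π (r • X) = residue A r • π X := by
    intro r X
    ext i j
    rw [hπa, Matrix.smul_apply, Matrix.smul_apply, smul_eq_mul, smul_eq_mul, map_mul]
    rfl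
  have h2π : residue A ((2 : ℕ) : A) = 0 := (residue_eq_zero_iff _).2 h2A
  have hq : ∀ g, π (1 + ((2 : ℕ) : A) ^ m • a g) = 1 := by
    intro g
    rw [map_add, map_one, hπs, map_pow, h2π, zero_pow hm0, zero_smul, add_zero]
  have key : ∀ W : Submodule A (Matrix (Fin 2) (Fin 2) A),
      (∀ X Y, π X = π Y → X ∈ W → Y ∈ W) →
      (∀ g h, a g * a h - a h * a g ∈ W) → ∀ g, ∃ ω ∈ W,
      π F * π (a g) - π (a g) * π F = residue A (u : A) • π (a g) + π ω := by
    intro W hW hW1 g
    obtain ⟨ω, hω, hg⟩ := hrel W hW1 (fun g x hx => ⟨hW x _ (by rw [map_mul, hq, one_mul]) hx,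
      hW x _ (by rw [map_mul, hq, mul_one]) hx⟩) (fun g j => hW 0 _ (by
        rw [hπs, h2π, zero_smul, map_zero]) W.zero_mem) g
    refine ⟨ω, hω, ?_⟩
    have h1 := congrArg π hg
    rw [map_sub, map_add, map_add, map_mul, map_mul, hπs, hπs, map_pow, h2π, zero_pow hm0,
      zero_smul, add_zero] at h1
    exact h1
  -- the trace
  have hT : ∀ g, π (a g) 0 0 + π (a g) 1 1 = 0 := by
    intro g
    let W : Submodule A (Matrix (Fin 2) (Fin 2) A) :=
      { carrier := {X | π X 0 0 + π X 1 1 = 0}
        add_mem' := fun {x y} hx hy => by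
          show π (x + y) 0 0 + π (x + y) 1 1 = 0
          have hx' : π x 0 0 + π x 1 1 = 0 := hx
          have hy' : π y 0 0 + π y 1 1 = 0 := hy
          rw [map_add, Matrix.add_apply, Matrix.add_apply]
          linear_combination hx' + hy'
        zero_mem' := by
          show π 0 0 0 + π 0 1 1 = 0
          rw [map_zero]
          simp
        smul_mem' := fun c x hx => by
          show π (c • x) 0 0 + π (c • x) 1 1 = 0
          have hx' : π x 0 0 + π x 1 1 = 0 := hx
          rw [hπs, Matrix.smul_apply, Matrix.smul_apply, smul_eq_mul, smul_eq_mul]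
          linear_combination residue A c * hx' }
    obtain ⟨ω, hω, hg⟩ := key W (fun X Y hXY hX => by
      show π Y 0 0 + π Y 1 1 = 0
      rw [← hXY]
      exact hX) (fun g h => by
      show π (a g * a h - a h * a g) 0 0 + π (a g * a h - a h * a g) 1 1 = 0
      rw [map_sub, map_mul, map_mul]
      simp only [Matrix.sub_apply, Matrix.mul_apply, Fin.sum_univ_two]
      ring) g
    have hω' : π ω 0 0 + π ω 1 1 = 0 := hω
    have h00 := congrFun (congrFun hg 0) 0
    have h11 := congrFun (congrFun hg 1) 1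
    simp only [Matrix.sub_apply, Matrix.mul_apply, Fin.sum_univ_two, Matrix.add_apply,
      Matrix.smul_apply, smul_eq_mul] at h00 h11
    have h3 : residue A (u : A) * (π (a g) 0 0 + π (a g) 1 1) = 0 := by
      linear_combination -h00 - h11 - hω'
    exact (mul_eq_zero.1 h3).resolve_left hu0
  have htr' : π F 0 0 + π F 1 1 - residue A (u : A) ≠ 0 := by
    intro h0
    apply htr
    rw [← residue_eq_zero_iff, map_sub, map_add]
    exact h0
  -- the first layer consists of scalar matrices
  have hS : ∀ g, π (a g) 0 1 = 0 ∧ π (a g) 1 0 = 0 := by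
    intro g
    let W : Submodule A (Matrix (Fin 2) (Fin 2) A) :=
      { carrier := {X | π X 0 1 = 0 ∧ π X 1 0 = 0}
        add_mem' := fun {x y} hx hy => by
          show π (x + y) 0 1 = 0 ∧ π (x + y) 1 0 = 0
          have hx' : π x 0 1 = 0 ∧ π x 1 0 = 0 := hx
          have hy' : π y 0 1 = 0 ∧ π y 1 0 = 0 := hy
          rw [map_add, Matrix.add_apply, Matrix.add_apply, hx'.1, hx'.2, hy'.1, hy'.2, add_zero]
          exact ⟨rfl, rfl⟩
        zero_mem' := by
          show π 0 0 1 = 0 ∧ π 0 1 0 = 0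
          rw [map_zero]
          exact ⟨rfl, rfl⟩
        smul_mem' := fun c x hx => by
          show π (c • x) 0 1 = 0 ∧ π (c • x) 1 0 = 0
          have hx' : π x 0 1 = 0 ∧ π x 1 0 = 0 := hx
          rw [hπs, Matrix.smul_apply, Matrix.smul_apply, hx'.1, hx'.2, smul_zero]
          exact ⟨rfl, rfl⟩ }
    obtain ⟨ω, hω, hg⟩ := key W (fun X Y hXY hX => by
      show π Y 0 1 = 0 ∧ π Y 1 0 = 0
      rw [← hXY]
      exact hX) (fun g h => by
      show π (a g * a h - a h * a g) 0 1 = 0 ∧ π (a g * a h - a h * a g) 1 0 = 0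
      have hTg := hT g
      have hTh := hT h
      rw [map_sub, map_mul, map_mul]
      simp only [Matrix.sub_apply, Matrix.mul_apply, Fin.sum_univ_two]
      constructor
      · linear_combination (π (a g) 0 1) * (-hTh) + (π (a h) 0 1) * hTg +
          (π (a g) 0 1 * π (a h) 1 1 - π (a h) 0 1 * π (a g) 1 1) * h2
      · linear_combination (π (a g) 1 0) * hTh - (π (a h) 1 0) * hTg +
          (π (a h) 1 0 * π (a g) 1 1 - π (a g) 1 0 * π (a h) 1 1) * h2) g
    obtain ⟨hω1, hω2⟩ : π ω 0 1 = 0 ∧ π ω 1 0 = 0 := hω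
    have hTg := hT g
    have h01 := congrFun (congrFun hg 0) 1
    have h10 := congrFun (congrFun hg 1) 0
    simp only [Matrix.sub_apply, Matrix.mul_apply, Fin.sum_univ_two, Matrix.add_apply,
      Matrix.smul_apply, smul_eq_mul] at h01 h10
    rw [hω1] at h01
    rw [hω2] at h10
    constructor
    · have h3 : (π F 0 0 + π F 1 1 - residue A (u : A)) * π (a g) 0 1 = 0 := by
        linear_combination h01 + π F 0 1 * hTg + (π F 1 1 * π (a g) 0 1 -
          π F 0 1 * π (a g) 1 1) * h2
      exact (mul_eq_zero.1 h3).resolve_left htr'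
    · have h3 : (π F 0 0 + π F 1 1 - residue A (u : A)) * π (a g) 1 0 = 0 := by
        linear_combination h10 - π F 1 0 * hTg + (π F 0 0 * π (a g) 1 0 +
          π F 1 0 * π (a g) 1 1) * h2
      exact (mul_eq_zero.1 h3).resolve_left htr'
  have hS' : ∀ g, π (a g) 0 0 = π (a g) 1 1 := by
    intro g
    linear_combination hT g - π (a g) 1 1 * h2
  have hZ : ∀ g, π (a g) = 0 := by
    intro g
    let W : Submodule A (Matrix (Fin 2) (Fin 2) A) :=
      { carrier := {X | π X = 0}
        add_mem' := fun {x y} hx hy => by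
          show π (x + y) = 0
          rw [map_add, show π x = 0 from hx, show π y = 0 from hy, add_zero]
        zero_mem' := map_zero π
        smul_mem' := fun c x hx => by
          show π (c • x) = 0
          rw [hπs, show π x = 0 from hx, smul_zero] }
    obtain ⟨ω, hω, hg⟩ := key W (fun X Y hXY hX => by
      show π Y = 0
      rw [← hXY]
      exact hX) (fun g h => by
      show π (a g * a h - a h * a g) = 0
      obtain ⟨h3, h4⟩ := hS g
      obtain ⟨h5, h6⟩ := hS h
      ext i j
      rw [map_sub, map_mul, map_mul]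
      simp only [Matrix.sub_apply, Matrix.mul_apply, Fin.sum_univ_two, Matrix.zero_apply]
      fin_cases i <;> fin_cases j <;> simp [h3, h4, h5, h6] <;> ring) g
    rw [show π ω = 0 from hω, add_zero] at hg
    obtain ⟨h3, h4⟩ := hS g
    have h5 := hS' g
    have h00 := congrFun (congrFun hg 0) 0
    simp only [Matrix.sub_apply, Matrix.mul_apply, Fin.sum_univ_two,
      Matrix.smul_apply, smul_eq_mul] at h00
    rw [h3, h4] at h00
    have h6 : π (a g) 0 0 = 0 := by
      have h7 : residue A (u : A) * π (a g) 0 0 = 0 := by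
        rw [← h00]
        ring
      exact (mul_eq_zero.1 h7).resolve_left hu0
    ext i j
    fin_cases i <;> fin_cases j
    · exact h6
    · exact h3
    · exact h4
    · exact h5.symm.trans h6
  refine mainNilp h2A hm0 hrel 1 ?_ ⟨1, ?_⟩
  · intro x
    by_contra hne
    push Not at hne
    have h0 := hne 0 (by omega)
    have h1 := hne 1 (by omega)
    rw [Polynomial.IsRoot.def, Polynomial.eval_map, Polynomial.eval₂_map,
      Matrix.charpoly_fin_two] at h0 h1
    have h2' : (2 : AlgebraicClosure (ResidueField A)) = 0 := by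
      have h3 := congrArg (algebraMap (ResidueField A) (AlgebraicClosure (ResidueField A))) h2
      rw [map_zero] at h3
      rw [← h3]
      exact (map_ofNat _ 2).symm
    simp only [Polynomial.eval₂_add, Polynomial.eval₂_sub, Polynomial.eval₂_mul,
      Polynomial.eval₂_pow, Polynomial.eval₂_X, Polynomial.eval₂_C, RingHom.comp_apply,
      Matrix.trace_fin_two, Nat.cast_zero, zero_mul, sub_zero, Nat.cast_one, one_mul,
      map_add] at h0 h1
    set v := algebraMap (ResidueField A) (AlgebraicClosure (ResidueField A))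
      (residue A (u : A)) with hv
    set f0 := algebraMap (ResidueField A) (AlgebraicClosure (ResidueField A))
      (residue A (F 0 0)) with hf0
    set f1 := algebraMap (ResidueField A) (AlgebraicClosure (ResidueField A))
      (residue A (F 1 1)) with hf1
    have h3 : v * (f0 + f1 - v) = 0 := by
      linear_combination h1 - h0 + (x * v - v ^ 2) * h2'
    have hv0 : v ≠ 0 := by
      rw [hv]
      exact fun h => hu0 ((map_eq_zero _).1 h)
    have h4 := (mul_eq_zero.1 h3).resolve_left hv0
    apply htr'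
    apply (algebraMap (ResidueField A) (AlgebraicClosure (ResidueField A))).injective
    rw [map_zero, map_sub, map_add]
    exact h4
  · rw [pow_one, Submodule.span_le]
    rintro _ ⟨g, rfl⟩
    refine mem_smul_top' _ _ fun i j => ?_
    rw [← residue_eq_zero_iff]
    exact congrFun (congrFun (hZ g) i) j

end two

end Pool.Agent.R417.GE
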