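import Pool.Agent.R417.GE.GradM
import Pool.Agent.R417.GE.MainN

/-! The algebra generated by the first layer. -/

set_option autoImplicit false

namespace Pool.Agent.R417.GE

open Polynomial IsLocalRing

section

variable {A : Type} [CommRing A] {n : ℕ} {H : Type}

/-- the unital algebra generated by the `a g` -/
noncomputable def AL (a : H → Matrix (Fin n) (Fin n) A) : Subalgebra A (Matrix (Fin n) (Fin n) A) :=
  Algebra.adjoin A (Set.range a)

/-- the span of the `a g` -/
def I1 (a : H → Matrix (Fin n) (Fin n) A) : Submodule A (Matrix (Fin n) (Fin n) A) :=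
  Submodule.span A (Set.range a)

/-- the decomposable elements -/
noncomputable def WW (a : H → Matrix (Fin n) (Fin n) A) (l : ℕ) :
    Submodule A (Matrix (Fin n) (Fin n) A) :=
  I1 a * I1 a * Subalgebra.toSubmodule (AL a) ⊔
    (I1 a * Subalgebra.toSubmodule (AL a)).map (LinearMap.lsmul A _ (l : A))

variable {a : H → Matrix (Fin n) (Fin n) A} {l : ℕ}

theorem mem_AL (g : H) : a g ∈ AL a := Algebra.subset_adjoin ⟨g, rfl⟩

theorem mem_I1 (g : H) : a g ∈ I1 a := Submodule.subset_span ⟨g, rfl⟩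

theorem I1_le : I1 a ≤ Subalgebra.toSubmodule (AL a) := by
  rw [I1, Submodule.span_le]
  rintro _ ⟨g, rfl⟩
  exact mem_AL g

theorem AL_mul : Subalgebra.toSubmodule (AL a) * Subalgebra.toSubmodule (AL a) ≤
    Subalgebra.toSubmodule (AL a) := by
  rw [Submodule.mul_le]
  exact fun x hx y hy => (AL a).mul_mem hx hy

theorem I1AL_le : I1 a * Subalgebra.toSubmodule (AL a) ≤ Subalgebra.toSubmodule (AL a) :=
  (mul_le_mul' I1_le le_rfl).trans AL_mul

theorem WW_le : WW a l ≤ Subalgebra.toSubmodule (AL a) := by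
  refine sup_le ?_ ?_
  · rw [mul_assoc]
    exact (mul_le_mul' le_rfl I1AL_le).trans I1AL_le
  · rw [Submodule.map_le_iff_le_comap]
    intro x hx
    exact Submodule.smul_mem _ _ (I1AL_le hx)

theorem WW_stable {m : ℕ} : (∀ g h, a g * a h - a h * a g ∈ WW a l) ∧
    (∀ g, ∀ x ∈ WW a l, (1 + (l : A) ^ m • a g) * x ∈ WW a l ∧
      x * (1 + (l : A) ^ m • a g) ∈ WW a l) ∧
    (∀ g, ∀ j : ℕ, (l : A) • a g ^ (j + 1) ∈ WW a l) := by
  have h1 : ∀ g h, a g * a h ∈ WW a l := by
    intro g h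
    refine Submodule.mem_sup_left ?_
    rw [← mul_one (a g * a h)]
    exact Submodule.mul_mem_mul (Submodule.mul_mem_mul (mem_I1 g) (mem_I1 h)) (AL a).one_mem
  have hL : ∀ g, ∀ x ∈ WW a l, a g * x ∈ WW a l := by
    intro g x hx
    obtain ⟨y, hy, _, ⟨z, hz, rfl⟩, rfl⟩ := Submodule.mem_sup.1 hx
    rw [mul_add]
    refine Submodule.add_mem_sup ?_ ?_
    · have h2 : a g * y ∈ I1 a * (I1 a * I1 a * Subalgebra.toSubmodule (AL a)) :=
        Submodule.mul_mem_mul (mem_I1 g) hy
      have h3 : I1 a * (I1 a * I1 a * Subalgebra.toSubmodule (AL a)) =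
          I1 a * I1 a * (I1 a * Subalgebra.toSubmodule (AL a)) := by
        simp only [mul_assoc]
      rw [h3] at h2
      exact mul_le_mul' le_rfl I1AL_le h2
    · refine ⟨a g * z, ?_, ?_⟩
      · have h2 : a g * z ∈ I1 a * (I1 a * Subalgebra.toSubmodule (AL a)) :=
          Submodule.mul_mem_mul (mem_I1 g) hz
        exact mul_le_mul' le_rfl I1AL_le h2
      · rw [LinearMap.lsmul_apply, LinearMap.lsmul_apply, mul_smul_comm]
  have hR : ∀ g, ∀ x ∈ WW a l, x * a g ∈ WW a l := by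
    intro g x hx
    obtain ⟨y, hy, _, ⟨z, hz, rfl⟩, rfl⟩ := Submodule.mem_sup.1 hx
    rw [add_mul]
    have h4 : ∀ Y : Submodule A (Matrix (Fin n) (Fin n) A), ∀ y ∈ Y *
        Subalgebra.toSubmodule (AL a), y * a g ∈ Y * Subalgebra.toSubmodule (AL a) := by
      intro Y y hy
      have h2 : y * a g ∈ Y * Subalgebra.toSubmodule (AL a) * Subalgebra.toSubmodule (AL a) :=
        Submodule.mul_mem_mul hy (mem_AL g)
      rw [mul_assoc] at h2
      exact mul_le_mul' le_rfl AL_mul h2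
    refine Submodule.add_mem_sup (h4 _ y hy) ⟨z * a g, h4 _ z hz, ?_⟩
    rw [LinearMap.lsmul_apply, LinearMap.lsmul_apply, smul_mul_assoc]
  refine ⟨fun g h => Submodule.sub_mem _ (h1 g h) (h1 h g), fun g x hx => ⟨?_, ?_⟩,
    fun g j => ?_⟩
  · rw [add_mul, one_mul, smul_mul_assoc]
    exact Submodule.add_mem _ hx (Submodule.smul_mem _ _ (hL g x hx))
  · rw [mul_add, mul_one, mul_smul_comm]
    exact Submodule.add_mem _ hx (Submodule.smul_mem _ _ (hR g x hx))
  · refine Submodule.mem_sup_right ⟨a g ^ (j + 1), ?_, rfl⟩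
    rw [pow_succ']
    exact Submodule.mul_mem_mul (mem_I1 g) ((AL a).pow_mem (mem_AL g) j)

/-- the derivation -/
theorem deriv_AL {m u : ℕ} {γ : H → H} {T : Matrix (Fin n) (Fin n) A}
    (hT : ∀ g, T * a g = a (γ g) * T)
    (hrel : ∀ g, ∃ ω ∈ WW a l, a (γ g) = a g + (l : A) ^ m • ((u : A) • a g + ω))
    (x : Matrix (Fin n) (Fin n) A) (hx : x ∈ AL a) :
    ∃ y ∈ AL a, T * x = (x + (l : A) ^ m • y) * T := by
  induction hx using Algebra.adjoin_induction with
  | mem x hx =>
    obtain ⟨g, rfl⟩ := hx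
    obtain ⟨ω, hω, h1⟩ := hrel g
    refine ⟨(u : A) • a g + ω, (AL a).add_mem ((AL a).smul_mem (mem_AL g) _) (WW_le hω), ?_⟩
    rw [hT, h1]
  | algebraMap r =>
    refine ⟨0, (AL a).zero_mem, ?_⟩
    rw [smul_zero, add_zero]
    exact (Algebra.commutes r T).symm
  | add x y _ _ hx hy =>
    obtain ⟨z, hz, h1⟩ := hx
    obtain ⟨w, hw, h2⟩ := hy
    refine ⟨z + w, (AL a).add_mem hz hw, ?_⟩
    rw [mul_add, h1, h2]
    simp only [add_mul, smul_mul_assoc, smul_add]
    abel
  | mul x y hx' hy' hx hy =>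
    obtain ⟨z, hz, h1⟩ := hx
    obtain ⟨w, hw, h2⟩ := hy
    refine ⟨z * y + x * w + (l : A) ^ m • (z * w), (AL a).add_mem (((AL a).add_mem
      ((AL a).mul_mem hz hy') ((AL a).mul_mem hx' hw))) ((AL a).smul_mem
      ((AL a).mul_mem hz hw) _), ?_⟩
    rw [← mul_assoc, h1, mul_assoc, h2, ← mul_assoc]
    congr 1
    simp only [add_mul, mul_add, smul_mul_assoc, mul_smul_comm, smul_add]
    abel

/-- Artin-Rees -/
theorem artin [IsLocalRing A] [IsNoetherianRing A]
    (hnil : ∃ K : ℕ, I1 a ^ K ≤ maximalIdeal A • (⊤ : Submodule A (Matrix (Fin n) (Fin n) A))) :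
    ∃ K : ℕ, I1 a ^ K ≤ maximalIdeal A • Subalgebra.toSubmodule (AL a) := by
  obtain ⟨K, hK⟩ := hnil
  obtain ⟨c, hc⟩ := Ideal.exists_pow_inf_eq_pow_smul (maximalIdeal A)
    (Subalgebra.toSubmodule (AL a))
  have h1 : ∀ s, I1 a ^ (K * s) ≤
      (maximalIdeal A ^ s) • (⊤ : Submodule A (Matrix (Fin n) (Fin n) A)) := by
    intro s
    induction s with
    | zero =>
      rw [pow_zero, Ideal.one_eq_top, Submodule.top_smul]
      exact le_top
    | succ s ih =>
      rw [mul_add, mul_one, pow_add]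
      refine (mul_le_mul' ih hK).trans ?_
      rw [Submodule.mul_le]
      intro x hx y hy
      induction hx using Submodule.smul_induction_on' with
      | smul r hr z _ =>
        rw [smul_mul_assoc, pow_succ, ← smul_eq_mul, Submodule.smul_assoc]
        exact Submodule.smul_mem_smul hr (smul_stable (maximalIdeal A) (N := ⊤) (N' := ⊤)
          (fun _ _ => trivial) y hy)
      | add z _ w _ h6 h7 =>
        rw [add_mul]
        exact Submodule.add_mem _ h6 h7
  have h2 : ∀ s, I1 a ^ s ≤ Subalgebra.toSubmodule (AL a) := by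
    intro s
    induction s with
    | zero =>
      rw [pow_zero]
      exact Submodule.one_le.2 (AL a).one_mem
    | succ s ih =>
      rw [pow_succ]
      exact (mul_le_mul' ih I1_le).trans AL_mul
  refine ⟨K * (c + 1), ?_⟩
  have h3 := hc (c + 1) (by omega)
  rw [Nat.add_sub_cancel_left, pow_one] at h3
  refine (le_inf (h1 _) (h2 _)).trans ?_
  rw [h3]
  exact Submodule.smul_mono le_rfl inf_le_right

end

end Pool.Agent.R417.GE
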