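import Pool.Agent.R417.GE.Alg

/-! Generalised eigenvectors of `T` are killed by the power of the first layer. -/

set_option autoImplicit false

namespace Pool.Agent.R417.GE

open Polynomial IsLocalRing

section

variable {V : Type} [CommRing V] {Ω : Type} [Field Ω] [Algebra V Ω] {n : ℕ}

/-- matrices over `Ω` as `V`-linear endomorphisms -/
def psi (V : Type) [CommRing V] {Ω : Type} [Field Ω] [Algebra V Ω] {n : ℕ} :
    Matrix (Fin n) (Fin n) Ω →+* Module.End V (Fin n → Ω) where
  toFun X := (Matrix.mulVecLin X).restrictScalars V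
  map_one' := LinearMap.ext fun w => Matrix.one_mulVec w
  map_mul' X Y := LinearMap.ext fun w => (Matrix.mulVec_mulVec w X Y).symm
  map_zero' := LinearMap.ext fun w => Matrix.zero_mulVec w
  map_add' X Y := LinearMap.ext fun w => Matrix.add_mulVec X Y w

theorem psi_apply (X : Matrix (Fin n) (Fin n) Ω) (w : Fin n → Ω) :
    psi V X w = Matrix.mulVec X w := rfl

theorem psi_smul (r : V) (X : Matrix (Fin n) (Fin n) Ω) :
    psi V (algebraMap V Ω r • X) = r • psi V X := by
  refine LinearMap.ext fun w => ?_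
  rw [LinearMap.smul_apply, psi_apply, psi_apply, Matrix.smul_mulVec, algebraMap_smul]

end

section

variable {A : Type} [CommRing A] {V : Type} [CommRing V] {Ω : Type} [Field Ω] [Algebra V Ω]
  {n : ℕ} {H : Type}

/-- the action of the matrices over `A` -/
noncomputable def act (j : A →+* V) (Ω : Type) [Field Ω] [Algebra V Ω] {n : ℕ} :
    Matrix (Fin n) (Fin n) A →+* Module.End V (Fin n → Ω) :=
  (psi V).comp ((algebraMap V Ω).comp j).mapMatrix

theorem act_smul (j : A →+* V) (r : A) (X : Matrix (Fin n) (Fin n) A) :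
    act j Ω (r • X) = j r • act j Ω X := by
  have h1 : ((algebraMap V Ω).comp j).mapMatrix (r • X) =
      algebraMap V Ω (j r) • ((algebraMap V Ω).comp j).mapMatrix X := by
    ext i k
    rw [RingHom.mapMatrix_apply, Matrix.map_apply, Matrix.smul_apply, smul_eq_mul, map_mul]
    rfl
  rw [act, RingHom.comp_apply, h1, psi_smul]
  rfl

variable {j : A →+* V} {a : H → Matrix (Fin n) (Fin n) A} {l : ℕ} {M : Submodule V (Fin n → Ω)}

theorem act_AL {N : Submodule V (Fin n → Ω)} (hN : ∀ g, ∀ w ∈ N, act j Ω (a g) w ∈ N)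
    (x : Matrix (Fin n) (Fin n) A) (hx : x ∈ AL a) : ∀ w ∈ N, act j Ω x w ∈ N := by
  induction hx using Algebra.adjoin_induction with
  | mem x hx =>
    obtain ⟨g, rfl⟩ := hx
    exact hN g
  | algebraMap r =>
    intro w hw
    rw [Algebra.algebraMap_eq_smul_one, act_smul, map_one]
    exact N.smul_mem _ hw
  | add x y _ _ hx hy =>
    intro w hw
    rw [map_add, LinearMap.add_apply]
    exact N.add_mem (hx w hw) (hy w hw)
  | mul x y _ _ hx hy =>
    intro w hw
    rw [map_mul, Module.End.mul_apply]
    exact hx _ (hy w hw)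

theorem act_I1 {N N' : Submodule V (Fin n → Ω)} (hN : ∀ g, ∀ w ∈ N, act j Ω (a g) w ∈ N')
    (x : Matrix (Fin n) (Fin n) A) (hx : x ∈ I1 a) : ∀ w ∈ N, act j Ω x w ∈ N' := by
  induction hx using Submodule.span_induction with
  | mem x hx =>
    obtain ⟨g, rfl⟩ := hx
    exact hN g
  | zero => intro w _; rw [map_zero]; exact N'.zero_mem
  | add x y _ _ hx hy =>
    intro w hw
    rw [map_add, LinearMap.add_apply]
    exact N'.add_mem (hx w hw) (hy w hw)
  | smul r x _ hx =>
    intro w hw
    rw [act_smul]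
    exact N'.smul_mem _ (hx w hw)

/-- the modules -/
noncomputable def MA (j : A →+* V) {Ω : Type} [Field Ω] [Algebra V Ω] {n : ℕ}
    (a : H → Matrix (Fin n) (Fin n) A) (M : Submodule V (Fin n → Ω)) (i : ℕ) :
    Submodule V (Fin n → Ω) :=
  MN (fun g => act j Ω (a g)) M i

theorem MA_mem {i : ℕ} (g : H) {v : Fin n → Ω} (hv : v ∈ MA j a M i) :
    act j Ω (a g) v ∈ MA j a M (i + 1) :=
  MN_mem (a := fun g => act j Ω (a g)) g hv

theorem MA_anti (hM : ∀ g, ∀ v ∈ M, act j Ω (a g) v ∈ M) : Antitone (MA j a M) :=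
  MN_anti hM

theorem MA_st (hM : ∀ g, ∀ v ∈ M, act j Ω (a g) v ∈ M) (i : ℕ) (g : H) :
    ∀ v ∈ MA j a M i, act j Ω (a g) v ∈ MA j a M i := fun v hv =>
  MA_anti hM (Nat.le_succ i) (MA_mem g hv)

theorem act_WW [IsLocalRing V] (hlV : j (l : A) ∈ maximalIdeal V)
    (hM : ∀ g, ∀ v ∈ M, act j Ω (a g) v ∈ M)
    (x : Matrix (Fin n) (Fin n) A) (hx : x ∈ WW a l) (i : ℕ) :
    ∀ w ∈ MA j a M i, act j Ω x w ∈ MA j a M (i + 2) ⊔ maximalIdeal V • MA j a M (i + 1) := by
  intro w hw
  obtain ⟨y, hy, _, ⟨z, hz, rfl⟩, rfl⟩ := Submodule.mem_sup.1 hx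
  rw [map_add, LinearMap.add_apply]
  refine Submodule.add_mem_sup ?_ ?_
  · rw [mul_assoc] at hy
    refine Submodule.mul_induction_on hy (fun p hp q hq => ?_) (fun p q hp hq => ?_)
    · rw [map_mul, Module.End.mul_apply]
      refine act_I1 (fun g w hw => MA_mem g hw) p hp _ ?_
      refine Submodule.mul_induction_on hq (fun p hp q hq => ?_) (fun p q hp hq => ?_)
      · rw [map_mul, Module.End.mul_apply]
        exact act_I1 (fun g w hw => MA_mem g hw) p hp _ (act_AL (MA_st hM i) q hq w hw)
      · rw [map_add, LinearMap.add_apply]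
        exact Submodule.add_mem _ hp hq
    · rw [map_add, LinearMap.add_apply]
      exact Submodule.add_mem _ hp hq
  · rw [LinearMap.lsmul_apply, act_smul, LinearMap.smul_apply]
    refine Submodule.smul_mem_smul hlV ?_
    refine Submodule.mul_induction_on hz (fun p hp q hq => ?_) (fun p q hp hq => ?_)
    · rw [map_mul, Module.End.mul_apply]
      exact act_I1 (fun g w hw => MA_mem g hw) p hp _ (act_AL (MA_st hM i) q hq w hw)
    · rw [map_add, LinearMap.add_apply]
      exact Submodule.add_mem _ hp hq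

theorem MA_fg [IsNoetherianRing A] (hM : M.FG) (i : ℕ) : (MA j a M i).FG := by
  induction i with
  | zero => exact hM
  | succ i ih =>
    obtain ⟨s, hs⟩ : (I1 a).FG := IsNoetherian.noetherian _
    have h1 : MA j a M (i + 1) = ⨆ y ∈ s, (MA j a M i).map (act j Ω y) := by
      apply le_antisymm
      · refine MN_le fun g v hv => ?_
        have h2 : a g ∈ Submodule.span A (s : Set (Matrix (Fin n) (Fin n) A)) := by
          rw [hs]
          exact mem_I1 g
        show act j Ω (a g) v ∈ _
        generalize a g = x at h2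
        induction h2 using Submodule.span_induction with
        | mem x hx =>
          exact Submodule.mem_iSup_of_mem x (Submodule.mem_iSup_of_mem hx
            (Submodule.mem_map_of_mem hv))
        | zero => rw [map_zero]; exact Submodule.zero_mem _
        | add x y _ _ hx hy =>
          rw [map_add, LinearMap.add_apply]
          exact Submodule.add_mem _ hx hy
        | smul r x _ hx =>
          rw [act_smul]
          exact Submodule.smul_mem _ _ hx
      · refine iSup₂_le fun y hy => ?_
        rw [Submodule.map_le_iff_le_comap]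
        intro v hv
        refine act_I1 (fun g w hw => MA_mem g hw) y ?_ v hv
        rw [← hs]
        exact Submodule.subset_span hy
    rw [h1]
    exact Submodule.fg_biSup s _ fun y _ => ih.map _

theorem MA_pow (i s : ℕ) : MA j a M (i + s) ≤
    Submodule.span V {w | ∃ x ∈ I1 a ^ s, ∃ v ∈ MA j a M i, w = act j Ω x v} := by
  induction s with
  | zero =>
    intro v hv
    refine Submodule.subset_span ⟨1, ?_, v, hv, ?_⟩
    · rw [pow_zero]
      exact Submodule.one_le.1 le_rfl
    · rw [map_one]
      rfl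
  | succ s ih =>
    refine MN_le fun g v hv => ?_
    have h1 := ih hv
    clear hv
    show act j Ω (a g) v ∈ _
    induction h1 using Submodule.span_induction with
    | mem v hv =>
      obtain ⟨x, hx, w, hw, rfl⟩ := hv
      refine Submodule.subset_span ⟨a g * x, ?_, w, hw, ?_⟩
      · rw [pow_succ']
        exact Submodule.mul_mem_mul (mem_I1 g) hx
      · rw [map_mul]
        rfl
    | zero => rw [map_zero]; exact Submodule.zero_mem _
    | add x y _ _ hx hy =>
      rw [map_add]
      exact Submodule.add_mem _ hx hy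
    | smul r x _ hx =>
      rw [map_smul]
      exact Submodule.smul_mem _ _ hx

theorem I1_pow_mem (s : ℕ) : ∀ x ∈ I1 a ^ s, ∀ i, ∀ v ∈ MA j a M i,
    act j Ω x v ∈ MA j a M (i + s) := by
  induction s with
  | zero =>
    intro x hx i v hv
    rw [pow_zero] at hx
    obtain ⟨r, rfl⟩ := Submodule.mem_one.1 hx
    rw [Algebra.algebraMap_eq_smul_one, act_smul, map_one]
    exact Submodule.smul_mem _ _ hv
  | succ s ih =>
    intro x hx i v hv
    rw [pow_succ'] at hx
    refine Submodule.mul_induction_on hx (fun p hp q hq => ?_) (fun p q hp hq => ?_)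
    · rw [map_mul, Module.End.mul_apply]
      exact act_I1 (fun g w hw => MA_mem g hw) p hp _ (ih q hq i v hv)
    · rw [map_add, LinearMap.add_apply]
      exact Submodule.add_mem _ hp hq

theorem MA_nil [IsLocalRing A] [IsLocalRing V] (hj : ∀ r ∈ maximalIdeal A, j r ∈ maximalIdeal V)
    (hM : ∀ g, ∀ v ∈ M, act j Ω (a g) v ∈ M) {K : ℕ}
    (hK : I1 a ^ K ≤ maximalIdeal A • Subalgebra.toSubmodule (AL a)) (i : ℕ) :
    MA j a M (i + K) ≤ maximalIdeal V • MA j a M i := by
  refine (MA_pow i K).trans ?_
  rw [Submodule.span_le]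
  rintro _ ⟨x, hx, v, hv, rfl⟩
  have h1 := hK hx
  clear hx
  show act j Ω x v ∈ _
  induction h1 using Submodule.smul_induction_on' with
  | smul r hr z hz =>
    rw [act_smul, LinearMap.smul_apply]
    exact Submodule.smul_mem_smul (hj r hr) (act_AL (MA_st hM i) z hz v hv)
  | add z _ w _ h6 h7 =>
    rw [map_add, LinearMap.add_apply]
    exact Submodule.add_mem _ h6 h7

end

end Pool.Agent.R417.GE
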