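import Pool.Agent.R417.GE.Core

/-! Generalised eigenvectors of `T` are killed by the `n`-th power of the first layer. -/

set_option autoImplicit false

namespace Pool.Agent.R417.GE

open Polynomial IsLocalRing

section

variable {V : Type} [CommRing V] [IsDomain V] [ValuationRing V] {Ω : Type} [Field Ω] [Algebra V Ω]
  [IsFractionRing V Ω] {n : ℕ}

theorem torsion_free (M : Submodule V (Fin n → Ω)) : Module.IsTorsionFree V M := by
  rw [Module.isTorsionFree_iff_smul_eq_zero]
  intro r x h
  by_cases hr : r = 0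
  · exact Or.inl hr
  · right
    apply Subtype.ext
    ext i
    have h1 := congrFun (congrArg Subtype.val h) i
    have h2 : r • (x : Fin n → Ω) i = 0 := h1
    rw [Algebra.smul_def, mul_eq_zero] at h2
    rcases h2 with h2 | h2
    · exact absurd ((IsFractionRing.injective V Ω) (h2.trans (map_zero _).symm)) hr
    · exact h2

/-- the characteristic polynomial of `F` on a lattice -/
theorem charP (M : Submodule V (Fin n → Ω)) (hM : M.FG) (F : Module.End V (Fin n → Ω))
    (hF : ∀ v ∈ M, F v ∈ M) :
    ∃ P : V[X], P.Monic ∧ P.natDegree ≤ n ∧ ∀ v ∈ M, aeval F P v = 0 := by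
  have h1 : Module.Finite V M := Module.Finite.iff_fg.2 hM
  have h2 : Module.IsTorsionFree V M := torsion_free M
  have h3 : Module.Flat V M := by
    rw [Module.Flat.flat_iff_torsion_eq_bot_of_isBezout,
      ← Submodule.isTorsionFree_iff_torsion_eq_bot]
    exact h2
  have h4 : Module.Free V M := Module.free_of_flat_of_isLocalRing
  set f : M →ₗ[V] M := F.restrict hF with hf
  refine ⟨f.charpoly, f.charpoly_monic, ?_, ?_⟩
  · rw [LinearMap.charpoly_natDegree]
    have b := Module.finBasis V M
    have h5 : LinearIndependent V (fun i => ((b i : M) : Fin n → Ω)) :=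
      b.linearIndependent.map' M.subtype (Submodule.ker_subtype M)
    have h6 := (LinearIndependent.iff_fractionRing V Ω).1 h5
    have h7 := h6.fintype_card_le_finrank
    rw [Fintype.card_fin, Module.finrank_fin_fun] at h7
    exact h7
  · intro v hv
    have h5 : ∀ (i : ℕ) (w : M), (F ^ i) (w : Fin n → Ω) = ((f ^ i) w : M) := by
      intro i
      induction i with
      | zero => intro w; rfl
      | succ i ih =>
        intro w
        rw [pow_succ, pow_succ, Module.End.mul_apply, Module.End.mul_apply, ← ih]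
        rfl
    have h6 : aeval F f.charpoly v = ((aeval f f.charpoly ⟨v, hv⟩ : M) : Fin n → Ω) := by
      rw [aeval_eq_sum_range, aeval_eq_sum_range, LinearMap.sum_apply, LinearMap.sum_apply,
        AddSubmonoidClass.coe_finsetSum]
      refine Finset.sum_congr rfl fun i _ => ?_
      rw [LinearMap.smul_apply, LinearMap.smul_apply, Submodule.coe_smul, ← h5]
    rw [h6, LinearMap.aeval_self_charpoly]
    rfl

end

section

variable {V : Type} [CommRing V] [IsLocalRing V]

theorem bezout' {l n u : ℕ} (hl : l.Prime) (hnl : n < l) (hlV : (l : V) ∈ maximalIdeal V)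
    (hu : ¬ l ∣ u) (P : V[X]) (hP : P.Monic) (hdeg : P.natDegree ≤ n) :
    ∃ R : Fin (n + 1) → V[X], ∃ S : V[X], (∀ i, S.coeff i ∈ maximalIdeal V) ∧
      1 = (∑ j, R j * P.comp (X - C (((j : ℕ) : V) * (u : V)))) + S := by
  classical
  refine bezout P hP (u : V) (n + 1) (Nat.succ_pos n) fun x => ?_
  by_contra hne
  push Not at hne
  have hu0 := unit_u hl hlV hu
  have hcharA : CharP (ResidueField V) l := by
    have h1 : ((l : ℕ) : ResidueField V) = 0 := by
      have h2 : residue V (l : V) = 0 := (residue_eq_zero_iff _).2 hlV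
      rw [map_natCast] at h2
      exact h2
    exact (CharP.charP_iff_prime_eq_zero hl).2 h1
  have hchar : CharP (AlgebraicClosure (ResidueField V)) l := charP_of_injective_algebraMap
    (algebraMap (ResidueField V) (AlgebraicClosure (ResidueField V))).injective l
  set Q := (P.map (residue V)).map (algebraMap (ResidueField V) (AlgebraicClosure (ResidueField V))) with hQ
  have hQm : Q.Monic := (hP.map _).map _
  have hQd : Q.natDegree ≤ n := by
    rw [hQ, (hP.map _).natDegree_map, hP.natDegree_map]
    exact hdeg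
  have hv0 : algebraMap (ResidueField V) (AlgebraicClosure (ResidueField V)) (residue V (u : V)) ≠ 0 := fun h =>
    hu0 ((map_eq_zero _).1 h)
  have h1 : (Finset.range (n + 1)).image
      (fun i : ℕ => x - (i : AlgebraicClosure (ResidueField V)) * algebraMap (ResidueField V) (AlgebraicClosure (ResidueField V)) (residue V (u : V))) ⊆
      Q.roots.toFinset := by
    intro y hy
    rw [Finset.mem_image] at hy
    obtain ⟨i, hi, rfl⟩ := hy
    rw [Multiset.mem_toFinset, Polynomial.mem_roots hQm.ne_zero]
    exact hne i (Finset.mem_range.1 hi)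
  have h2 := Finset.card_le_card h1
  rw [Finset.card_image_of_injOn, Finset.card_range] at h2
  · have h3 := h2.trans ((Multiset.toFinset_card_le _).trans (Polynomial.card_roots' Q))
    omega
  · intro i hi i' hi' h
    have hi1 : i < n + 1 := Finset.mem_range.1 hi
    have hi1' : i' < n + 1 := Finset.mem_range.1 hi'
    have h4 : ((i : AlgebraicClosure (ResidueField V)) - (i' : AlgebraicClosure (ResidueField V))) * algebraMap (ResidueField V) (AlgebraicClosure (ResidueField V)) (residue V (u : V)) = 0 := by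
      have h5 : x - (i : AlgebraicClosure (ResidueField V)) * algebraMap (ResidueField V) (AlgebraicClosure (ResidueField V)) (residue V (u : V)) =
        x - (i' : AlgebraicClosure (ResidueField V)) * algebraMap (ResidueField V) (AlgebraicClosure (ResidueField V)) (residue V (u : V)) := h
      linear_combination -h5
    have h6 := (mul_eq_zero.1 h4).resolve_right hv0
    exact CharP.natCast_injOn_Iio (AlgebraicClosure (ResidueField V)) l (Set.mem_Iio.2 (by omega)) (Set.mem_Iio.2 (by omega))
      (sub_eq_zero.1 h6)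

end

section

variable {A : Type} [CommRing A] [IsLocalRing A] [IsNoetherianRing A]
  {V : Type} [CommRing V] [IsDomain V] [ValuationRing V] {Ω : Type} [Field Ω] [Algebra V Ω]
  [IsFractionRing V Ω] {n : ℕ} {H : Type} {j : A →+* V} {a : H → Matrix (Fin n) (Fin n) A}
  {l m u : ℕ} {γ : H → H} {T : Matrix (Fin n) (Fin n) A}

theorem genEig (hl : l.Prime) (hnl : n < l) (hj : ∀ r ∈ maximalIdeal A, j r ∈ maximalIdeal V)
    (hlA : (l : A) ∈ maximalIdeal A) (hl0 : (l : Ω) ≠ 0) (hm0 : m ≠ 0) (hu : ¬ l ∣ u)
    (hT : ∀ g, T * a g = a (γ g) * T)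
    (hrel : ∀ g, ∃ ω ∈ WW a l, a (γ g) = a g + (l : A) ^ m • ((u : A) • a g + ω))
    (hnil : ∃ K : ℕ, I1 a ^ K ≤ maximalIdeal A • Subalgebra.toSubmodule (AL a))
    {t : Ω} (ht : t ≠ 0) {v : Fin n → Ω} {s : ℕ}
    (hv : ((((algebraMap V Ω).comp j).mapMatrix T - t • 1) ^ s).mulVec v = 0) :
    ∀ x ∈ I1 a ^ n, act j Ω x v = 0 := by
  have hlV : (l : V) ∈ maximalIdeal V := by
    have := hj _ hlA
    rwa [map_natCast] at this
  have hlV' : j (l : A) ∈ maximalIdeal V := hj _ hlA
  have hlm : (l : V) ^ m ∈ maximalIdeal V :=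
    Ideal.pow_mem_of_mem _ hlV _ (Nat.pos_of_ne_zero hm0)
  set φ : Matrix (Fin n) (Fin n) A →+* Matrix (Fin n) (Fin n) Ω :=
    ((algebraMap V Ω).comp j).mapMatrix with hφ
  have hφs : ∀ (r : A) (X : Matrix (Fin n) (Fin n) A), φ (r • X) =
      ((algebraMap V Ω).comp j) r • φ X := by
    intro r X
    ext i k
    rw [hφ, RingHom.mapMatrix_apply, Matrix.map_apply, Matrix.smul_apply, smul_eq_mul, map_mul]
    rfl
  have hact : ∀ X w, act j Ω X w = (φ X).mulVec w := fun _ _ => rfl
  set q : Ω := (l : Ω) ^ m with hq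
  have hq0 : q ≠ 0 := pow_ne_zero _ hl0
  obtain ⟨F, hF⟩ : ∃ F : Matrix (Fin n) (Fin n) Ω, F = (t * q)⁻¹ • (φ T - t • 1) := ⟨_, rfl⟩
  have hTF : φ T = t • (1 + q • F) := by
    rw [hF, smul_add, smul_smul, smul_smul, mul_inv_cancel₀ (mul_ne_zero ht hq0), one_smul]
    abel
  have hE : ∀ x y, T * x = (x + (l : A) ^ m • y) * T →
      F * φ x = φ x * F + φ y * (1 + q • F) := by
    intro x y hxy
    have h1 := congrArg φ hxy
    rw [map_mul, map_mul, map_add, hφs, hTF, map_pow, map_natCast, ← hq, smul_mul_assoc,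
      mul_smul_comm] at h1
    have h2 := smul_right_injective _ ht h1
    have h3 : q • (F * φ x) = q • (φ x * F + φ y * (1 + q • F)) := by
      have h4 : q • (F * φ x) = (1 + q • F) * φ x - φ x := by
        rw [add_mul, one_mul, smul_mul_assoc, add_sub_cancel_left]
      rw [h4]
      have h5 : (1 + q • F) * φ x = (φ x + q • φ y) * (1 + q • F) := h2
      rw [h5, add_mul, mul_add, mul_one, mul_smul_comm, smul_mul_assoc, smul_add]
      abel
    exact smul_right_injective _ hq0 h3
  set Fo : Module.End V (Fin n → Ω) := psi V F with hFo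
  have hqV : algebraMap V Ω ((l : V) ^ m) = q := by
    rw [map_pow, map_natCast]
  have hEo : ∀ x y, T * x = (x + (l : A) ^ m • y) * T → ∀ w,
      Fo (act j Ω x w) = act j Ω x (Fo w) + (act j Ω y w + (l : V) ^ m • act j Ω y (Fo w)) := by
    intro x y hxy w
    have h1 := congrArg (fun Z => Matrix.mulVec Z w) (hE x y hxy)
    simp only [Matrix.add_mulVec, ← Matrix.mulVec_mulVec, Matrix.one_mulVec, Matrix.mulVec_add,
      Matrix.smul_mulVec, Matrix.mulVec_smul] at h1
    have h2 : (l : V) ^ m • act j Ω y (Fo w) = q • act j Ω y (Fo w) := by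
      rw [← hqV, algebraMap_smul]
    rw [h2]
    exact h1
  -- the lattice
  set M : Submodule V (Fin n → Ω) := Submodule.span V
    {w | ∃ x ∈ AL a, ∃ i : ℕ, w = act j Ω x ((Fo ^ i) v)} with hM
  have hMg : ∀ g, ∀ w ∈ M, act j Ω (a g) w ∈ M := by
    intro g w hw
    induction hw using Submodule.span_induction with
    | mem w hw =>
      obtain ⟨x, hx, i, rfl⟩ := hw
      refine Submodule.subset_span ⟨a g * x, (AL a).mul_mem (mem_AL g) hx, i, ?_⟩
      rw [map_mul]
      rfl
    | zero => rw [map_zero]; exact Submodule.zero_mem _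
    | add x y _ _ hx hy =>
      rw [map_add]
      exact Submodule.add_mem _ hx hy
    | smul r x _ hx =>
      rw [map_smul]
      exact Submodule.smul_mem _ _ hx
  have hMF : ∀ w ∈ M, Fo w ∈ M := by
    intro w hw
    induction hw using Submodule.span_induction with
    | mem w hw =>
      obtain ⟨x, hx, i, rfl⟩ := hw
      obtain ⟨y, hy, hxy⟩ := deriv_AL hT hrel x hx
      rw [hEo x y hxy]
      refine Submodule.add_mem _ (Submodule.subset_span ⟨x, hx, i + 1, ?_⟩)
        (Submodule.add_mem _ (Submodule.subset_span ⟨y, hy, i, rfl⟩)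
        (Submodule.smul_mem _ _ (Submodule.subset_span ⟨y, hy, i + 1, ?_⟩)))
      · rw [pow_succ']
        rfl
      · rw [pow_succ']
        rfl
    | zero => rw [map_zero]; exact Submodule.zero_mem _
    | add x y _ _ hx hy =>
      rw [map_add]
      exact Submodule.add_mem _ hx hy
    | smul r x _ hx =>
      rw [map_smul]
      exact Submodule.smul_mem _ _ hx
  have hFs : ∀ i, s ≤ i → (Fo ^ i) v = 0 := by
    have h1 : (Fo ^ s) v = 0 := by
      have h2 : Fo ^ s = psi V (F ^ s) := (map_pow (psi V) F s).symm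
      rw [h2, psi_apply, hF, _root_.smul_pow, Matrix.smul_mulVec, hv, smul_zero]
    intro i hi
    obtain ⟨d, rfl⟩ := Nat.exists_eq_add_of_le hi
    rw [add_comm, pow_add, Module.End.mul_apply, h1, map_zero]
  have hMfg : M.FG := by
    obtain ⟨b, hb⟩ : (Subalgebra.toSubmodule (AL a)).FG := IsNoetherian.noetherian _
    have h1 : M = Submodule.span V (Set.image2 (fun x i => act j Ω x ((Fo ^ i) v))
        (b : Set (Matrix (Fin n) (Fin n) A)) (Finset.range s : Set ℕ)) := by
      apply le_antisymm
      · rw [hM, Submodule.span_le]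
        rintro _ ⟨x, hx, i, rfl⟩
        rcases Nat.lt_or_ge i s with hi | hi
        · have h2 : x ∈ Submodule.span A (b : Set (Matrix (Fin n) (Fin n) A)) := by
            rw [hb]
            exact hx
          clear hx
          show act j Ω x ((Fo ^ i) v) ∈ _
          induction h2 using Submodule.span_induction with
          | mem x hx =>
            exact Submodule.subset_span ⟨x, hx, i, Finset.mem_coe.2 (Finset.mem_range.2 hi), rfl⟩
          | zero => rw [map_zero]; exact Submodule.zero_mem _
          | add x y _ _ hx hy =>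
            rw [map_add, LinearMap.add_apply]
            exact Submodule.add_mem _ hx hy
          | smul r x _ hx =>
            rw [act_smul]
            exact Submodule.smul_mem _ _ hx
        · rw [hFs i hi, map_zero]
          exact Submodule.zero_mem _
      · rw [Submodule.span_le]
        rintro _ ⟨x, hx, i, _, rfl⟩
        refine Submodule.subset_span ⟨x, ?_, i, rfl⟩
        rw [← Subalgebra.mem_toSubmodule, ← hb]
        exact Submodule.subset_span hx
    rw [h1]
    exact Submodule.fg_span ((Finset.finite_toSet b).image2 _ (Finset.finite_toSet _))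
  obtain ⟨P, hPm, hPd, hP⟩ := charP M hMfg Fo hMF
  -- the relation
  have hrel' : ∀ g, ∃ ω ∈ WW a l, ∀ w, Fo (act j Ω (a g) w) = act j Ω (a g) (Fo w) +
      (((u : V) • act j Ω (a g) w + act j Ω ω w) + (l : V) ^ m •
        ((u : V) • act j Ω (a g) (Fo w) + act j Ω ω (Fo w))) := by
    intro g
    obtain ⟨ω, hω, hg⟩ := hrel g
    refine ⟨ω, hω, fun w => ?_⟩
    rw [hEo (a g) ((u : A) • a g + ω) (by rw [hT, hg]) w, map_add, act_smul, map_natCast]
    rfl
  have hsub : ∀ i, MA j a M (i + 2) ⊔ maximalIdeal V • MA j a M (i + 1) ≤ MA j a M (i + 1) :=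
    fun i => sup_le (MA_anti hMg (Nat.le_succ _)) Submodule.smul_le_right
  have hFi : ∀ i, ∀ w ∈ MA j a M i, Fo w ∈ MA j a M i := by
    intro i
    induction i with
    | zero => exact hMF
    | succ i ih =>
      intro w hw
      have hle : MA j a M (i + 1) ≤ (MA j a M (i + 1)).comap Fo := by
        refine MN_le fun g w hw => ?_
        show Fo (act j Ω (a g) w) ∈ MA j a M (i + 1)
        obtain ⟨ω, hω, hg⟩ := hrel' g
        rw [hg]
        exact Submodule.add_mem _ (MA_mem g (ih w hw)) (Submodule.add_mem _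
          (Submodule.add_mem _ (Submodule.smul_mem _ _ (MA_mem g hw))
            (hsub i (act_WW hlV' hMg ω hω i w hw)))
          (Submodule.smul_mem _ _ (Submodule.add_mem _ (Submodule.smul_mem _ _
            (MA_mem g (ih w hw))) (hsub i (act_WW hlV' hMg ω hω i _ (ih w hw))))))
      exact hle hw
  obtain ⟨K, hK⟩ := hnil
  have h0 : MA j a M n = ⊥ := by
    refine gradM Fo (u : V) n P hMg (MA_fg hMfg) hP hFi ?_ (bezout' hl hnl hlV hu P hPm hPd)
      ⟨K, MA_nil hj hMg hK n⟩
    intro g i w hw
    obtain ⟨ω, hω, hg⟩ := hrel' g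
    have h1 : Fo (act j Ω (a g) w) - act j Ω (a g) (Fo w) - (u : V) • act j Ω (a g) w =
        act j Ω ω w + ((l : V) ^ m • ((u : V) • act j Ω (a g) (Fo w)) +
          (l : V) ^ m • act j Ω ω (Fo w)) := by
      rw [hg, smul_add]
      abel
    show Fo (act j Ω (a g) w) - act j Ω (a g) (Fo w) - (u : V) • act j Ω (a g) w ∈ _
    rw [h1]
    exact Submodule.add_mem _ (act_WW hlV' hMg ω hω i w hw) (Submodule.add_mem _
      (Submodule.mem_sup_right (Submodule.smul_mem_smul hlm (Submodule.smul_mem _ _
        (MA_mem g (hFi i w hw)))))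
      (Submodule.smul_mem _ _ (act_WW hlV' hMg ω hω i _ (hFi i w hw))))
  intro x hx
  have h1 : v ∈ MA j a M 0 := by
    refine Submodule.subset_span ⟨1, (AL a).one_mem, 0, ?_⟩
    rw [map_one, pow_zero]
    rfl
  have h2 := I1_pow_mem n x hx 0 v h1
  rw [zero_add, h0] at h2
  exact (Submodule.mem_bot V).1 h2

end

/-- the main result: nilpotency in rank smaller than `l` -/
theorem bigNil {A : Type} [CommRing A] [IsDomain A] [IsLocalRing A] [IsNoetherianRing A]
    {n : ℕ} {H : Type} {a : H → Matrix (Fin n) (Fin n) A} {l m u : ℕ} {γ : H → H}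
    {T : Matrix (Fin n) (Fin n) A} (hTu : IsUnit T) (hl : l.Prime) (hnl : n < l)
    (hlA : (l : A) ∈ maximalIdeal A) (hl0 : (l : A) ≠ 0) (hm0 : m ≠ 0) (hu : ¬ l ∣ u)
    (hT : ∀ g, T * a g = a (γ g) * T)
    (hrel : ∀ g, ∃ ω ∈ WW a l, a (γ g) = a g + (l : A) ^ m • ((u : A) • a g + ω))
    (hnil : ∃ K : ℕ, I1 a ^ K ≤ maximalIdeal A • (⊤ : Submodule A (Matrix (Fin n) (Fin n) A))) :
    I1 a ^ n = ⊥ := by
  set Ω := AlgebraicClosure (FractionRing A) with hΩ
  have hinj : Function.Injective (algebraMap A Ω) := by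
    rw [IsScalarTower.algebraMap_eq A (FractionRing A) Ω]
    exact (algebraMap (FractionRing A) Ω).injective.comp (IsFractionRing.injective A _)
  obtain ⟨V, hV, hloc⟩ := IsLocalRing.exists_factor_valuationRing (algebraMap A Ω)
  set j : A →+* V := (algebraMap A Ω).codRestrict V.toSubring hV with hj
  have hjm : ∀ r ∈ maximalIdeal A, j r ∈ maximalIdeal V := by
    intro r hr
    rw [mem_maximalIdeal, mem_nonunits_iff] at hr ⊢
    intro h
    exact hr (hloc.map_nonunit r h)
  have hcomp : (algebraMap V Ω).comp j = algebraMap A Ω := by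
    ext r
    rfl
  rw [eq_bot_iff]
  intro x hx
  rw [Submodule.mem_bot]
  have hl0' : (l : Ω) ≠ 0 := by
    intro h
    apply hl0
    apply hinj
    rw [map_natCast, map_zero]
    exact h
  have h1 : ∀ v : Fin n → Ω, act j Ω x v = 0 := by
    intro v
    set Te : Module.End Ω (Fin n → Ω) :=
      Matrix.toLin' (((algebraMap V Ω).comp j).mapMatrix T) with hTe
    have h2 : v ∈ ⨆ μ : Ω, Te.maxGenEigenspace μ := by
      rw [Module.End.iSup_maxGenEigenspace_eq_top]
      trivial
    induction h2 using Submodule.iSup_induction' with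
    | mem t w hw =>
      rw [Module.End.mem_maxGenEigenspace] at hw
      obtain ⟨s, hs⟩ := hw
      have h3 : ((((algebraMap V Ω).comp j).mapMatrix T - t • 1) ^ s).mulVec w = 0 := by
        rw [← Matrix.toLin'_apply, ← hs]
        congr 1
        rw [Matrix.toLin'_pow, map_sub, map_smul, Matrix.toLin'_one]
        rfl
      by_cases ht : t = 0
      · have h4 : w = 0 := by
          rw [ht, zero_smul, sub_zero] at h3
          have h5 : IsUnit ((((algebraMap V Ω).comp j).mapMatrix T) ^ s) :=
            (hTu.map ((algebraMap V Ω).comp j).mapMatrix).pow s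
          obtain ⟨U, hU⟩ := h5
          rw [← hU] at h3
          have h6 : Matrix.mulVec (U⁻¹ : (Matrix (Fin n) (Fin n) Ω)ˣ).1 (Matrix.mulVec U.1 w) =
              0 := by
            rw [h3, Matrix.mulVec_zero]
          have h7 : (U⁻¹ : (Matrix (Fin n) (Fin n) Ω)ˣ).1 * U.1 = 1 := U.inv_mul
          rw [Matrix.mulVec_mulVec, h7, Matrix.one_mulVec] at h6
          exact h6
        rw [h4, map_zero]
      · exact genEig hl hnl hjm hlA hl0' hm0 hu hT hrel (artin hnil) ht h3 x hx
    | zero => rw [map_zero]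
    | add x y _ _ hx hy => rw [map_add, hx, hy, add_zero]
  have h2 : ((algebraMap V Ω).comp j).mapMatrix x = 0 := by
    apply Matrix.ext_of_mulVec_single
    intro i
    rw [Matrix.zero_mulVec]
    exact h1 _
  rw [hcomp] at h2
  ext i k
  apply hinj
  rw [Matrix.zero_apply, map_zero]
  exact congrFun (congrFun h2 i) k

end Pool.Agent.R417.GE
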