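import Mathlib

/-! Nilpotency from the relation `F a - a F = u a` in the associated graded module. -/

set_option autoImplicit false

namespace Pool.Agent.R417.GE

open Polynomial IsLocalRing

section

variable {V : Type} [CommRing V] {N : Type} [AddCommGroup N] [Module V N]

theorem aeval_stableM {G : Module.End V N} {M : Submodule V N}
    (hG : ∀ v ∈ M, G v ∈ M) (R : V[X]) : ∀ v ∈ M, aeval G R v ∈ M := by
  intro v hv
  have h1 : ∀ i : ℕ, (G ^ i) v ∈ M := by
    intro i
    induction i with
    | zero => rw [pow_zero]; exact hv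
    | succ i ih => rw [pow_succ', Module.End.mul_apply]; exact hG _ ih
  rw [aeval_eq_sum_range, LinearMap.sum_apply]
  exact M.sum_mem fun i _ => by
    rw [LinearMap.smul_apply]
    exact M.smul_mem _ (h1 i)

theorem smul_stableM {Z : Module.End V N} {M M' : Submodule V N} (J : Ideal V)
    (h : ∀ v ∈ M, Z v ∈ M') : ∀ v ∈ J • M, Z v ∈ J • M' := by
  intro v hv
  induction hv using Submodule.smul_induction_on' with
  | smul r hr z hz =>
    rw [map_smul]
    exact Submodule.smul_mem_smul hr (h z hz)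
  | add z _ w _ h6 h7 =>
    rw [map_add]
    exact Submodule.add_mem _ h6 h7

theorem sup_stableM {Z : Module.End V N} {N1 N2 N1' N2' : Submodule V N} (J : Ideal V)
    (h1 : ∀ v ∈ N1, Z v ∈ N1') (h2 : ∀ v ∈ N2, Z v ∈ N2') :
    ∀ v ∈ N1 ⊔ J • N2, Z v ∈ N1' ⊔ J • N2' := by
  intro v hv
  obtain ⟨x, hx, y, hy, rfl⟩ := Submodule.mem_sup.1 hv
  rw [map_add]
  exact Submodule.add_mem_sup (h1 x hx) (smul_stableM J h2 y hy)

/-- commuting a polynomial past `a` -/
theorem comm_polyM {G a : Module.End V N} {u : V} {M M' : Submodule V N}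
    (hGM : ∀ v ∈ M, G v ∈ M) (hGN : ∀ v ∈ M', G v ∈ M')
    (hrel : ∀ v ∈ M, (G - u • 1) (a v) - a (G v) ∈ M') (R : V[X]) :
    ∀ v ∈ M, aeval (G - u • 1) R (a v) - a (aeval G R v) ∈ M' := by
  intro v hv
  have h1 : ∀ i : ℕ, (G ^ i) v ∈ M ∧ ((G - u • 1) ^ i) (a v) - a ((G ^ i) v) ∈ M' := by
    intro i
    induction i with
    | zero =>
      refine ⟨by rw [pow_zero]; exact hv, ?_⟩
      rw [pow_zero, pow_zero, Module.End.one_apply, Module.End.one_apply, sub_self]
      exact M'.zero_mem
    | succ i ih =>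
      obtain ⟨ih1, ih2⟩ := ih
      refine ⟨by rw [pow_succ', Module.End.mul_apply]; exact hGM _ ih1, ?_⟩
      have h2 : ((G - u • 1) ^ (i + 1)) (a v) - a ((G ^ (i + 1)) v) =
          (G (((G - u • 1) ^ i) (a v) - a ((G ^ i) v)) -
            u • (((G - u • 1) ^ i) (a v) - a ((G ^ i) v))) +
          ((G - u • 1) (a ((G ^ i) v)) - a (G ((G ^ i) v))) := by
        rw [pow_succ', pow_succ' G, Module.End.mul_apply, Module.End.mul_apply]
        generalize ((G - u • 1) ^ i) (a v) = B
        simp only [LinearMap.sub_apply, LinearMap.smul_apply, Module.End.one_apply, map_sub,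
          smul_sub]
        abel
      rw [h2]
      exact M'.add_mem (M'.sub_mem (hGN _ ih2) (M'.smul_mem _ ih2)) (hrel _ ih1)
  have h3 : aeval (G - u • 1) R (a v) - a (aeval G R v) =
      ∑ i ∈ Finset.range (R.natDegree + 1),
        R.coeff i • (((G - u • 1) ^ i) (a v) - a ((G ^ i) v)) := by
    rw [aeval_eq_sum_range, aeval_eq_sum_range, LinearMap.sum_apply, LinearMap.sum_apply, map_sum,
      ← Finset.sum_sub_distrib]
    refine Finset.sum_congr rfl fun i _ => ?_
    rw [LinearMap.smul_apply, LinearMap.smul_apply, map_smul, smul_sub]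
  rw [h3]
  exact M'.sum_mem fun i _ => M'.smul_mem _ (h1 i).2

/-- the modules `I ^ i M` -/
def MN {H : Type} (a : H → Module.End V N) (M : Submodule V N) : ℕ → Submodule V N
  | 0 => M
  | i + 1 => ⨆ g, (MN a M i).map (a g)

variable {H : Type} {a : H → Module.End V N} {M : Submodule V N}

theorem MN_mem {i : ℕ} (g : H) {v : N} (hv : v ∈ MN a M i) : a g v ∈ MN a M (i + 1) :=
  Submodule.mem_iSup_of_mem (p := fun g => (MN a M i).map (a g)) g
    (Submodule.mem_map_of_mem hv)

theorem MN_le {i : ℕ} {M' : Submodule V N} (h : ∀ g, ∀ v ∈ MN a M i, a g v ∈ M') :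
    MN a M (i + 1) ≤ M' :=
  iSup_le fun g => Submodule.map_le_iff_le_comap.2 fun v hv => h g v hv

theorem MN_anti' (hM : ∀ g, ∀ v ∈ M, a g v ∈ M) (i : ℕ) : MN a M (i + 1) ≤ MN a M i := by
  induction i with
  | zero => exact MN_le fun g v hv => hM g v hv
  | succ i ih => exact MN_le fun g v hv => MN_mem g (ih hv)

theorem MN_anti (hM : ∀ g, ∀ v ∈ M, a g v ∈ M) : Antitone (MN a M) :=
  antitone_nat_of_succ_le (MN_anti' hM)

theorem gradM [IsLocalRing V] (F : Module.End V N) (u : V) (L : ℕ) (P : V[X])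
    (hM : ∀ g, ∀ v ∈ M, a g v ∈ M) (hfg : ∀ i, (MN a M i).FG) (hP : ∀ v ∈ M, aeval F P v = 0)
    (hF : ∀ i, ∀ v ∈ MN a M i, F v ∈ MN a M i)
    (hrel : ∀ g i, ∀ v ∈ MN a M i, F (a g v) - a g (F v) - u • a g v ∈
      MN a M (i + 2) ⊔ maximalIdeal V • MN a M (i + 1))
    (hbez : ∃ R : Fin (L + 1) → V[X], ∃ S : V[X], (∀ i, S.coeff i ∈ maximalIdeal V) ∧
      1 = (∑ j, R j * P.comp (X - C (((j : ℕ) : V) * u))) + S)
    (hnil : ∃ K : ℕ, MN a M (L + K) ≤ maximalIdeal V • MN a M L) :
    MN a M L = ⊥ := by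
  have hFj : ∀ (r : V) (i : ℕ), ∀ v ∈ MN a M i, (F - r • 1) v ∈ MN a M i := by
    intro r i v hv
    rw [LinearMap.sub_apply, LinearMap.smul_apply, Module.End.one_apply]
    exact Submodule.sub_mem _ (hF i v hv) (Submodule.smul_mem _ _ hv)
  have hle0 : ∀ i, MN a M i ≤ M := fun i => MN_anti hM (Nat.zero_le i)
  have hQ : ∀ i j : ℕ, j ≤ i → ∀ v ∈ MN a M i,
      aeval (F - ((j : V) * u) • 1) P v ∈ MN a M (i + 1) ⊔ maximalIdeal V • MN a M i := by
    intro i
    induction i with
    | zero =>
      intro j hj v hv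
      obtain rfl : j = 0 := by omega
      rw [Nat.cast_zero, zero_mul, zero_smul, sub_zero, hP v (hle0 _ hv)]
      exact Submodule.zero_mem _
    | succ i ih =>
      intro j hj v hv
      rcases Nat.eq_zero_or_pos j with rfl | hj0
      · rw [Nat.cast_zero, zero_mul, zero_smul, sub_zero, hP v (hle0 _ hv)]
        exact Submodule.zero_mem _
      obtain ⟨j', rfl⟩ : ∃ j', j = j' + 1 := ⟨j - 1, by omega⟩
      have hle : MN a M (i + 1) ≤ (MN a M (i + 2) ⊔ maximalIdeal V • MN a M (i + 1)).comap
          (aeval (F - (((j' + 1 : ℕ) : V) * u) • 1) P) := by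
        refine MN_le fun g w hw => ?_
        show aeval (F - (((j' + 1 : ℕ) : V) * u) • 1) P (a g w) ∈
          MN a M (i + 2) ⊔ maximalIdeal V • MN a M (i + 1)
        have h1 : F - (((j' + 1 : ℕ) : V) * u) • (1 : Module.End V N) =
            (F - ((j' : V) * u) • 1) - u • 1 := by
          push_cast
          module
        rw [h1]
        have h2 := comm_polyM (G := F - ((j' : V) * u) • 1) (a := a g) (u := u)
          (M := MN a M i) (M' := MN a M (i + 2) ⊔ maximalIdeal V • MN a M (i + 1)) (hFj _ i)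
          (sup_stableM _ (hFj _ (i + 2)) (hFj _ (i + 1))) (fun v hv => by
            have h3 := hrel g i v hv
            convert h3 using 1
            simp only [LinearMap.sub_apply, LinearMap.smul_apply, Module.End.one_apply, map_sub,
              map_smul]
            abel) P w hw
        have h4 := sup_stableM (Z := a g) (N1 := MN a M (i + 1)) (N1' := MN a M (i + 2))
          (N2 := MN a M i) (N2' := MN a M (i + 1)) (maximalIdeal V) (fun v hv => MN_mem g hv)
          (fun v hv => MN_mem g hv) _ (ih j' (by omega) w hw)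
        have h5 := Submodule.add_mem _ h2 h4
        rwa [sub_add_cancel] at h5
      exact hle hv
  obtain ⟨R, S, hS, hRS⟩ := hbez
  have hle : MN a M L ≤ MN a M (L + 1) ⊔ maximalIdeal V • MN a M L := by
    intro v hv
    have h1 : v = (∑ j : Fin (L + 1), aeval F (R j)
        (aeval (F - (((j : ℕ) : V) * u) • 1) P v)) + aeval F S v := by
      have h2 := congrArg (aeval F) hRS
      rw [map_one, map_add, map_sum] at h2
      refine (congrArg (fun Z : Module.End V N => Z v) h2).trans ?_
      show (_ + _ : Module.End V N) v = _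
      rw [LinearMap.add_apply, LinearMap.sum_apply]
      congr 1
      refine Finset.sum_congr rfl fun j _ => ?_
      rw [map_mul, aeval_comp, map_sub, aeval_X, aeval_C, Algebra.algebraMap_eq_smul_one,
        Module.End.mul_apply]
    rw [h1]
    refine Submodule.add_mem _ (Submodule.sum_mem _ fun j _ => ?_) ?_
    · refine aeval_stableM (sup_stableM _ (hF _) (hF _)) (R j) _ (hQ L j (by omega) v hv)
    · refine Submodule.mem_sup_right ?_
      rw [aeval_eq_sum_range, LinearMap.sum_apply]
      refine Submodule.sum_mem _ fun i _ => ?_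
      rw [LinearMap.smul_apply]
      refine Submodule.smul_mem_smul (hS i) ?_
      have h4 : ∀ i : ℕ, (F ^ i) v ∈ MN a M L := by
        intro i
        induction i with
        | zero => rw [pow_zero]; exact hv
        | succ i ih => rw [pow_succ', Module.End.mul_apply]; exact hF _ _ ih
      exact h4 i
  have hjac : maximalIdeal V ≤ Ideal.jacobson ⊥ := by
    rw [IsLocalRing.jacobson_eq_maximalIdeal ⊥ bot_ne_top]
  have h1 : MN a M L ≤ MN a M (L + 1) :=
    Submodule.le_of_le_smul_of_le_jacobson_bot (hfg _) hjac hle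
  have h2 : ∀ i, MN a M L ≤ MN a M (L + i) := by
    intro i
    induction i with
    | zero => exact le_rfl
    | succ i ih => exact h1.trans (MN_le fun g v hv => MN_mem g (ih hv))
  obtain ⟨K, hK⟩ := hnil
  have h3 : MN a M L ≤ maximalIdeal V • MN a M L := (h2 K).trans hK
  rw [eq_bot_iff]
  refine Submodule.le_of_le_smul_of_le_jacobson_bot (hfg _) hjac ?_
  rw [bot_sup_eq]
  exact h3

end

end Pool.Agent.R417.GE
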