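import Pool.Agent.R417.GE.Ab

/-! The main relation. -/

set_option autoImplicit false

namespace Pool.Agent.R417.GE

open Polynomial IsLocalRing
open scoped commutatorElement

/-- the beginning of the binomial expansion -/
theorem binom3 {A : Type} [CommRing A] (c : ℕ) : ∃ t : A[X],
    (1 + X : A[X]) ^ c = 1 + (c : A[X]) * X + ((c.choose 2 : ℕ) : A[X]) * X ^ 2 + X ^ 3 * t := by
  induction c with
  | zero => exact ⟨0, by simp⟩
  | succ c ih =>
    obtain ⟨t, ht⟩ := ih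
    refine ⟨t * (1 + X) + ((c.choose 2 : ℕ) : A[X]), ?_⟩
    rw [pow_succ, ht, Nat.choose_succ_succ' c 1, Nat.choose_one_right]
    push_cast
    ring

theorem dvd_choose {l m u c : ℕ} (hl : l.Prime) (hm : 2 < l ^ m)
    (hc : c ≡ 1 + l ^ m * u [MOD l ^ (m + 1)]) : l ∣ c.choose 2 := by
  have h1 : (l : ℤ) ^ m ∣ (c : ℤ) - 1 := by
    have h2 := (Nat.modEq_iff_dvd.1 hc.symm)
    push_cast at h2
    have h3 : (l : ℤ) ^ m ∣ (c : ℤ) - (1 + (l : ℤ) ^ m * u) :=
      (Dvd.intro _ (pow_succ (l : ℤ) m).symm).trans h2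
    have h4 : (c : ℤ) - 1 = ((c : ℤ) - (1 + (l : ℤ) ^ m * u)) + (l : ℤ) ^ m * u := by ring
    rw [h4]
    exact dvd_add h3 (Dvd.intro _ rfl)
  have h5 : (l : ℤ) ^ m ∣ 2 * ((c.choose 2 : ℕ) : ℤ) := by
    have h6 : 2 * ((c.choose 2 : ℕ) : ℤ) = (c : ℤ) * ((c : ℤ) - 1) := by
      have h7 := Nat.triangle_succ
      rcases Nat.eq_zero_or_pos c with rfl | hc0
      · simp
      · obtain ⟨d, rfl⟩ := Nat.exists_eq_add_of_lt hc0
        rw [zero_add]
        have h8 : (d + 1).choose 2 * 2 = (d + 1) * d := by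
          rw [Nat.choose_two_right]
          exact Nat.div_mul_cancel (by
            have := Nat.even_mul_succ_self d
            rw [mul_comm] at this
            exact this.two_dvd)
        have h9 : (((d + 1).choose 2 : ℕ) : ℤ) * 2 = ((d : ℤ) + 1) * d := by exact_mod_cast h8
        push_cast
        linarith
    rw [h6]
    exact h1.mul_left _
  have h10 : l ^ m ∣ 2 * c.choose 2 := by exact_mod_cast h5
  by_cases h2 : l = 2
  · subst h2
    have hm2 : 2 ≤ m := by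
      by_contra hlt
      interval_cases m <;> simp at hm
    have h11 : 2 ^ 2 ∣ 2 * c.choose 2 := (pow_dvd_pow 2 hm2).trans h10
    omega
  · have hm0 : m ≠ 0 := by
      rintro rfl
      rw [pow_zero] at hm
      omega
    have h11 : l ∣ 2 * c.choose 2 := (dvd_pow_self l hm0).trans h10
    exact (Nat.Coprime.dvd_mul_left ((Nat.coprime_primes hl Nat.prime_two).2 h2)).1 h11

section

variable {A : Type} [CommRing A] {n l m : ℕ}
  {G : Type} [Group G] {H : Subgroup G} {ρ : G →* GL (Fin n) A}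
  {a : H → Matrix (Fin n) (Fin n) A}
  {W : Submodule A (Matrix (Fin n) (Fin n) A)}

theorem comm_mem (ha : ∀ g : H, (ρ g : Matrix (Fin n) (Fin n) A) = 1 + (l : A) ^ m • a g)
    (hW1 : ∀ g h, a g * a h - a h * a g ∈ W)
    (hW2 : ∀ g : H, ∀ x ∈ W, (ρ g : Matrix (Fin n) (Fin n) A) * x ∈ W ∧
      x * (ρ g : Matrix (Fin n) (Fin n) A) ∈ W) (y : H) (hy : y ∈ commutator H) :
    ∃ w ∈ W, (ρ y : Matrix (Fin n) (Fin n) A) = 1 + (l : A) ^ (2 * m) • w := by
  rw [commutator_eq_closure] at hy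
  have hmul : ∀ x y : H, (ρ ((x * y : H) : G) : Matrix (Fin n) (Fin n) A) =
      (ρ x : Matrix (Fin n) (Fin n) A) * (ρ y : Matrix (Fin n) (Fin n) A) := by
    intro x y
    rw [Subgroup.coe_mul, map_mul, Units.val_mul]
  have hinv : ∀ x : H, (ρ x : Matrix (Fin n) (Fin n) A) *
      (ρ ((x⁻¹ : H) : G) : Matrix (Fin n) (Fin n) A) = 1 := by
    intro x
    rw [← hmul, mul_inv_cancel, Subgroup.coe_one, map_one, Units.val_one]
  have hinv' : ∀ x : H, (ρ ((x⁻¹ : H) : G) : Matrix (Fin n) (Fin n) A) *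
      (ρ x : Matrix (Fin n) (Fin n) A) = 1 := by
    intro x
    rw [← hmul, inv_mul_cancel, Subgroup.coe_one, map_one, Units.val_one]
  induction hy using Subgroup.closure_induction with
  | mem x hx =>
    obtain ⟨g, h, rfl⟩ := hx
    refine ⟨(a g * a h - a h * a g) * (ρ ((h * g)⁻¹ : H) : Matrix (Fin n) (Fin n) A),
      (hW2 _ _ (hW1 g h)).2, ?_⟩
    have h1 : (⁅g, h⁆ : H) = (g * h) * (h * g)⁻¹ := by
      rw [commutatorElement_def]
      group
    have h2 : (ρ g : Matrix (Fin n) (Fin n) A) * (ρ h : Matrix (Fin n) (Fin n) A) =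
        (ρ h : Matrix (Fin n) (Fin n) A) * (ρ g : Matrix (Fin n) (Fin n) A) +
        (l : A) ^ (2 * m) • (a g * a h - a h * a g) := by
      rw [ha, ha, two_mul, pow_add]
      simp only [mul_add, add_mul, mul_one, one_mul, smul_mul_assoc, mul_smul_comm]
      module
    rw [h1, hmul, hmul, h2, add_mul, ← hmul, hinv, smul_mul_assoc]
  | one => exact ⟨0, W.zero_mem, by simp⟩
  | mul x y _ _ hx hy =>
    obtain ⟨w, hw, hx⟩ := hx
    obtain ⟨w', hw', hy⟩ := hy
    refine ⟨w + (ρ x : Matrix (Fin n) (Fin n) A) * w', W.add_mem hw (hW2 x _ hw').1, ?_⟩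
    rw [hmul, hy, mul_add, mul_one, mul_smul_comm, smul_add, ← add_assoc, ← hx]
  | inv x _ hx =>
    obtain ⟨w, hw, hx⟩ := hx
    refine ⟨-((ρ ((x⁻¹ : H) : G) : Matrix (Fin n) (Fin n) A) * w),
      W.neg_mem (hW2 _ _ hw).1, ?_⟩
    have h1 := hinv' x
    rw [hx, mul_add, mul_one, mul_smul_comm] at h1
    rw [smul_neg, ← sub_eq_add_neg, ← h1, add_sub_cancel_right]

theorem pow_mem2 (hm0 : m ≠ 0)
    (ha : ∀ g : H, (ρ g : Matrix (Fin n) (Fin n) A) = 1 + (l : A) ^ m • a g)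
    (hW3 : ∀ g : H, ∀ j : ℕ, (l : A) • a g ^ (j + 1) ∈ W) {u c : ℕ}
    (hc : c ≡ 1 + l ^ m * u [MOD l ^ (m + 1)]) (hch : l ∣ c.choose 2) (g : H) :
    ∃ w ∈ W, (ρ ((g ^ c : H) : G) : Matrix (Fin n) (Fin n) A) =
      1 + (l : A) ^ m • a g + (l : A) ^ (2 * m) • ((u : A) • a g + w) := by
  obtain ⟨t, ht⟩ := binom3 (A := A) c
  obtain ⟨b, hb⟩ := hch
  obtain ⟨e, he⟩ := Nat.modEq_iff_dvd.1 hc.symm
  obtain ⟨m', rfl⟩ : ∃ m', m = m' + 1 := ⟨m - 1, by omega⟩
  have he' : (c : A) = 1 + (l : A) ^ (m' + 1) * u + (l : A) ^ (m' + 2) * (e : A) := by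
    have h1 : (c : ℤ) = 1 + (l : ℤ) ^ (m' + 1) * u + (l : ℤ) ^ (m' + 2) * e := by
      push_cast at he
      linear_combination he
    have h2 := congrArg (fun z : ℤ => (z : A)) h1
    push_cast at h2
    exact h2
  have h1 := congrArg (aeval ((l : A) ^ (m' + 1) • a g)) ht
  rw [map_pow, map_add, map_one, aeval_X] at h1
  simp only [map_add, map_mul, map_natCast, map_one, map_pow, aeval_X] at h1
  -- the last term
  have h2 : ∀ r : A[X], (l : A) • (a g * aeval (a g) r) ∈ W := by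
    intro r
    rw [aeval_eq_sum_range, Finset.mul_sum, Finset.smul_sum]
    refine W.sum_mem fun i _ => ?_
    rw [mul_smul_comm, ← pow_succ', smul_comm]
    exact W.smul_mem _ (hW3 g i)
  have h3 : aeval ((l : A) ^ (m' + 1) • a g) t = aeval (a g) (t.comp (C ((l : A) ^ (m' + 1)) * X))
      := by
    rw [aeval_comp, map_mul, aeval_C, aeval_X, Algebra.smul_def]
  refine ⟨(e : A) • ((l : A) • (a g) ^ (0 + 1)) + (b : A) • ((l : A) • (a g) ^ (1 + 1)) +
    ((l : A) ^ m') • ((l : A) • (a g * aeval (a g) (X ^ 2 *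
      t.comp (C ((l : A) ^ (m' + 1)) * X)))), ?_, ?_⟩
  · exact W.add_mem (W.add_mem (W.smul_mem _ (hW3 g 0)) (W.smul_mem _ (hW3 g 1)))
      (W.smul_mem _ (h2 _))
  · rw [Subgroup.coe_pow, map_pow, Units.val_pow_eq_pow_val, ha, h1, h3, hb]
    have h4 : ((c : ℕ) : Matrix (Fin n) (Fin n) A) = (c : A) • (1 : Matrix (Fin n) (Fin n) A) := by
      rw [Nat.cast_smul_eq_nsmul, nsmul_eq_mul, mul_one]
    have h5 : (((l * b : ℕ)) : Matrix (Fin n) (Fin n) A) =
        ((l : A) * (b : A)) • (1 : Matrix (Fin n) (Fin n) A) := by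
      rw [← Nat.cast_mul, Nat.cast_smul_eq_nsmul, nsmul_eq_mul, mul_one]
    have h7 : ∀ r : A[X], aeval (a g) (X ^ 2 * r) = a g ^ 2 * aeval (a g) r := by
      intro r
      rw [map_mul, map_pow, aeval_X]
    rw [h4, h5, he', h7]
    generalize aeval (a g) (t.comp (C ((l : A) ^ (m' + 1)) * X)) = q
    simp only [smul_mul_assoc, one_mul, _root_.smul_pow, mul_smul_comm, zero_add, pow_one,
      Nat.reduceAdd]
    have h6 : ∀ z : Matrix (Fin n) (Fin n) A, a g * (a g ^ 2 * z) = a g ^ 3 * z := by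
      intro z
      rw [← mul_assoc, ← pow_succ']
    rw [h6]
    module

theorem rel0 [IsDomain A] [IsLocalRing A] [IsNoetherianRing A] [hH : H.Normal] (hl : l.Prime)
    (hl0 : (l : A) ≠ 0) (hm : 2 < l ^ m)
    (ha : ∀ g : H, (ρ g : Matrix (Fin n) (Fin n) A) = 1 + (l : A) ^ m • a g)
    (hW1 : ∀ g h, a g * a h - a h * a g ∈ W)
    (hW2 : ∀ g : H, ∀ x ∈ W, (ρ g : Matrix (Fin n) (Fin n) A) * x ∈ W ∧
      x * (ρ g : Matrix (Fin n) (Fin n) A) ∈ W)
    (hW3 : ∀ g : H, ∀ j : ℕ, (l : A) • a g ^ (j + 1) ∈ W) (σ : G) (u : ℕ)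
    (hab : ∀ M : ℕ, ∃ c : ℕ, c ≡ 1 + l ^ m * u [MOD l ^ (m + 1)] ∧ ∀ g : H,
      ∃ y ∈ commutator H, ∃ x : H, MulAut.conjNormal σ g = g ^ c * y * x ∧
        (ρ x : Matrix (Fin n) (Fin n) A) - 1 ∈
          (maximalIdeal A ^ M) • (⊤ : Submodule A (Matrix (Fin n) (Fin n) A))) (g : H) :
    ∃ ω ∈ W, a (MulAut.conjNormal σ g) = a g + (l : A) ^ m • ((u : A) • a g + ω) := by
  have hm0 : m ≠ 0 := by
    rintro rfl
    rw [pow_zero] at hm
    omega
  have hmul : ∀ x y : H, (ρ ((x * y : H) : G) : Matrix (Fin n) (Fin n) A) =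
      (ρ x : Matrix (Fin n) (Fin n) A) * (ρ y : Matrix (Fin n) (Fin n) A) := by
    intro x y
    rw [Subgroup.coe_mul, map_mul, Units.val_mul]
  have h1 : (l : A) ^ m • a (MulAut.conjNormal σ g) - (l : A) ^ m • a g -
      (l : A) ^ (2 * m) • ((u : A) • a g) ∈ W.map (LinearMap.lsmul A _ ((l : A) ^ (2 * m))) := by
    refine Pool.Agent.W975.UF.krull _ _ fun M => ?_
    obtain ⟨c, hc, h2⟩ := hab M
    obtain ⟨y, hy, x, hx, hxM⟩ := h2 g
    obtain ⟨w1, hw1, hp⟩ := pow_mem2 hm0 ha hW3 hc (dvd_choose hl hm hc) g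
    obtain ⟨w2, hw2, hq⟩ := comm_mem ha hW1 hW2 y hy
    have h3 : (ρ ((MulAut.conjNormal σ g : H) : G) : Matrix (Fin n) (Fin n) A) =
        (ρ ((g ^ c : H) : G) : Matrix (Fin n) (Fin n) A) +
        (l : A) ^ (2 * m) • ((ρ ((g ^ c : H) : G) : Matrix (Fin n) (Fin n) A) * w2) +
        (ρ ((g ^ c * y : H) : G) : Matrix (Fin n) (Fin n) A) *
          ((ρ x : Matrix (Fin n) (Fin n) A) - 1) := by
      rw [hx, hmul, hmul, mul_sub, mul_one, hq, mul_add, mul_one, mul_smul_comm]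
      abel
    rw [ha (MulAut.conjNormal σ g)] at h3
    have h4 : (l : A) ^ m • a (MulAut.conjNormal σ g) - (l : A) ^ m • a g -
        (l : A) ^ (2 * m) • ((u : A) • a g) =
        (l : A) ^ (2 * m) • (w1 + (ρ ((g ^ c : H) : G) : Matrix (Fin n) (Fin n) A) * w2) +
        (ρ ((g ^ c * y : H) : G) : Matrix (Fin n) (Fin n) A) *
          ((ρ x : Matrix (Fin n) (Fin n) A) - 1) := by
      have h5 : (l : A) ^ m • a (MulAut.conjNormal σ g) =
          (ρ ((g ^ c : H) : G) : Matrix (Fin n) (Fin n) A) - 1 +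
          (l : A) ^ (2 * m) • ((ρ ((g ^ c : H) : G) : Matrix (Fin n) (Fin n) A) * w2) +
          (ρ ((g ^ c * y : H) : G) : Matrix (Fin n) (Fin n) A) *
            ((ρ x : Matrix (Fin n) (Fin n) A) - 1) := by
        rw [← add_right_inj (1 : Matrix (Fin n) (Fin n) A), h3]
        abel
      rw [h5]
      nth_rewrite 1 [hp]
      rw [smul_add, smul_add]
      abel
    rw [h4]
    refine Submodule.add_mem_sup ?_ ?_
    · exact ⟨_, W.add_mem hw1 (hW2 _ _ hw2).1, rfl⟩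
    · generalize (ρ ((g ^ c * y : H) : G) : Matrix (Fin n) (Fin n) A) = Z
      generalize (ρ x : Matrix (Fin n) (Fin n) A) - 1 = E at hxM
      induction hxM using Submodule.smul_induction_on' with
      | smul r hr z _ =>
        rw [mul_smul_comm]
        exact Submodule.smul_mem_smul hr trivial
      | add z _ w _ h6 h7 =>
        rw [mul_add]
        exact Submodule.add_mem _ h6 h7
  obtain ⟨ω, hω, h2⟩ := h1
  refine ⟨ω, hω, ?_⟩
  have h3 : (l : A) ^ (2 * m) • ω = (l : A) ^ m • a (MulAut.conjNormal σ g) - (l : A) ^ m • a g -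
      (l : A) ^ (2 * m) • ((u : A) • a g) := h2
  have h4 : (l : A) ^ m • (a (MulAut.conjNormal σ g)) = (l : A) ^ m •
      (a g + (l : A) ^ m • ((u : A) • a g + ω)) := by
    rw [smul_add, smul_smul, ← pow_add, ← two_mul, smul_add, h3]
    abel
  have h5 : (l : A) ^ m ≠ 0 := pow_ne_zero _ hl0
  ext i j
  have h6 := congrFun (congrFun h4 i) j
  rw [Matrix.smul_apply, Matrix.smul_apply, smul_eq_mul, smul_eq_mul] at h6
  exact mul_left_cancel₀ h5 h6

/-- the main relation -/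
theorem rel [IsDomain A] [IsLocalRing A] [IsNoetherianRing A] [hH : H.Normal] (hl : l.Prime)
    (hl0 : (l : A) ≠ 0) (hm : 2 < l ^ m)
    (ha : ∀ g : H, (ρ g : Matrix (Fin n) (Fin n) A) = 1 + (l : A) ^ m • a g)
    (hW1 : ∀ g h, a g * a h - a h * a g ∈ W)
    (hW2 : ∀ g : H, ∀ x ∈ W, (ρ g : Matrix (Fin n) (Fin n) A) * x ∈ W ∧
      x * (ρ g : Matrix (Fin n) (Fin n) A) ∈ W)
    (hW3 : ∀ g : H, ∀ j : ℕ, (l : A) • a g ^ (j + 1) ∈ W) (σ : G) (u : ℕ)
    (hab : ∀ M : ℕ, ∃ c : ℕ, c ≡ 1 + l ^ m * u [MOD l ^ (m + 1)] ∧ ∀ g : H,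
      ∃ y ∈ commutator H, ∃ x : H, MulAut.conjNormal σ g = g ^ c * y * x ∧
        (ρ x : Matrix (Fin n) (Fin n) A) - 1 ∈
          (maximalIdeal A ^ M) • (⊤ : Submodule A (Matrix (Fin n) (Fin n) A)))
    {T F : Matrix (Fin n) (Fin n) A}
    (hT : ∀ g : H, T * (ρ g : Matrix (Fin n) (Fin n) A) = (ρ g : Matrix (Fin n) (Fin n) A) * T)
    (hσ : (ρ σ : Matrix (Fin n) (Fin n) A) = T * (1 + (l : A) ^ m • F)) (g : H) :
    ∃ ω ∈ W, F * a g - a g * F = (u : A) • a g + ω + (l : A) ^ m • (((u : A) • a g + ω) * F) := by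
  obtain ⟨ω, hω, h1⟩ := rel0 hl hl0 hm ha hW1 hW2 hW3 σ u hab g
  refine ⟨ω, hω, ?_⟩
  have h2 : (ρ σ : Matrix (Fin n) (Fin n) A) * (ρ g : Matrix (Fin n) (Fin n) A) =
      (ρ ((MulAut.conjNormal σ g : H) : G) : Matrix (Fin n) (Fin n) A) *
        (ρ σ : Matrix (Fin n) (Fin n) A) := by
    rw [← Units.val_mul, ← Units.val_mul, ← map_mul, ← map_mul, MulAut.conjNormal_apply]
    congr 2
    group
  rw [hσ, ← mul_assoc, ← hT, mul_assoc, mul_assoc, ha, ha] at h2
  have hcan : ∀ (r : A), r ≠ 0 → ∀ X Y : Matrix (Fin n) (Fin n) A, r • X = r • Y → X = Y := by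
    intro r hr X Y h
    ext i j
    have h6 := congrFun (congrFun h i) j
    rw [Matrix.smul_apply, Matrix.smul_apply, smul_eq_mul, smul_eq_mul] at h6
    exact mul_left_cancel₀ hr h6
  have hTu : IsUnit T := by
    rw [Matrix.isUnit_iff_isUnit_det]
    have h10 : IsUnit ((ρ σ : Matrix (Fin n) (Fin n) A).det) :=
      (Matrix.isUnit_iff_isUnit_det _).1 (ρ σ).isUnit
    rw [hσ, Matrix.det_mul] at h10
    exact isUnit_of_mul_isUnit_left h10
  have h3 := hTu.mul_left_cancel h2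
  have h5 : (l : A) ^ m ≠ 0 := pow_ne_zero _ hl0
  have h4 : (l : A) ^ m • ((l : A) ^ m • (F * a g)) = (l : A) ^ m • ((l : A) ^ m •
      ((u : A) • a g + ω + a (MulAut.conjNormal σ g) * F)) := by
    simp only [mul_add, add_mul, mul_one, one_mul, smul_mul_assoc, mul_smul_comm] at h3
    have h7 : (l : A) ^ m • ((l : A) ^ m • (F * a g)) = (l : A) ^ m • a (MulAut.conjNormal σ g) -
        (l : A) ^ m • a g + (l : A) ^ m • (l : A) ^ m • (a (MulAut.conjNormal σ g) * F) := by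
      have h8 := congrArg (fun X => X - 1 - (l : A) ^ m • F - (l : A) ^ m • a g) h3
      calc (l : A) ^ m • ((l : A) ^ m • (F * a g)) = _ := by
            rw [← sub_eq_zero]
            rw [← sub_eq_zero] at h8
            rw [← h8]
            simp only [smul_add]
            abel
        _ = _ := rfl
    rw [h7]
    nth_rewrite 1 [h1]
    simp only [smul_add]
    abel
  have h9 := hcan _ h5 _ _ (hcan _ h5 _ _ h4)
  rw [h1] at h9
  rw [h9]
  simp only [add_mul, smul_mul_assoc, smul_add]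
  abel

end

end Pool.Agent.R417.GE
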