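import Pool.Agent.R417.GE.MainB

/-! Rank two. -/

set_option autoImplicit false

namespace Pool.Agent.R417.GE

open Polynomial IsLocalRing

section

variable {A : Type} [CommRing A] [IsDomain A] [IsLocalRing A] {n : ℕ} {H : Type}
  {a : H → Matrix (Fin n) (Fin n) A} {l m u : ℕ} {γ : H → H} {T : Matrix (Fin n) (Fin n) A}

/-- invariance of the trace form -/
theorem trace_inv2 (hTu : IsUnit T) (hT : ∀ g, T * a g = a (γ g) * T) (g h : H) :
    (a (γ g) * a (γ h)).trace = (a g * a h).trace := by
  obtain ⟨U, rfl⟩ := hTu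
  have h1 : ∀ g, a (γ g) = U.1 * a g * (U⁻¹).1 := by
    intro g
    rw [hT, mul_assoc, Units.mul_inv, mul_one]
  have h2 : a (γ g) * a (γ h) = U.1 * (a g * a h) * (U⁻¹).1 := by
    rw [h1, h1]
    calc U.1 * a g * (U⁻¹).1 * (U.1 * a h * (U⁻¹).1) =
        U.1 * a g * ((U⁻¹).1 * U.1) * a h * (U⁻¹).1 := by simp only [mul_assoc]
      _ = _ := by
        rw [Units.inv_mul, mul_one]
        simp only [mul_assoc]
  rw [h2, Matrix.trace_mul_comm, ← mul_assoc, Units.inv_mul, one_mul]

theorem trace_zero (hTu : IsUnit T) (hl : l.Prime) (hlA : (l : A) ∈ maximalIdeal A)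
    (hl0 : (l : A) ≠ 0) (hm0 : m ≠ 0) (hu : ¬ l ∣ u) (hT : ∀ g, T * a g = a (γ g) * T)
    (hrel : Rel0 a γ l m u) (g : H) : (a g).trace ∈ maximalIdeal A := by
  have hql : (l : A) ^ m ≠ 0 := pow_ne_zero _ hl0
  have hqm : (l : A) ^ m ∈ maximalIdeal A := Ideal.pow_mem_of_mem _ hlA _ (Nat.pos_of_ne_zero hm0)
  let W : Submodule A (Matrix (Fin n) (Fin n) A) :=
    { carrier := {X | X.trace ∈ maximalIdeal A}
      add_mem' := fun {x y} hx hy => by
        show (x + y).trace ∈ maximalIdeal A
        rw [Matrix.trace_add]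
        exact Ideal.add_mem _ hx hy
      zero_mem' := by
        show (0 : Matrix (Fin n) (Fin n) A).trace ∈ maximalIdeal A
        rw [Matrix.trace_zero]
        exact Ideal.zero_mem _
      smul_mem' := fun c x hx => by
        show (c • x).trace ∈ maximalIdeal A
        rw [Matrix.trace_smul]
        exact Ideal.mul_mem_left _ _ hx }
  obtain ⟨ω, hω, hg⟩ := hrel W (fun g h => by
    show (a g * a h - a h * a g).trace ∈ maximalIdeal A
    rw [Matrix.trace_sub, Matrix.trace_mul_comm, sub_self]
    exact Ideal.zero_mem _) (fun g x hx => by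
    constructor
    · show ((1 + (l : A) ^ m • a g) * x).trace ∈ maximalIdeal A
      rw [add_mul, one_mul, smul_mul_assoc, Matrix.trace_add, Matrix.trace_smul]
      exact Ideal.add_mem _ hx (Ideal.mul_mem_right _ _ hqm)
    · show (x * (1 + (l : A) ^ m • a g)).trace ∈ maximalIdeal A
      rw [mul_add, mul_one, mul_smul_comm, Matrix.trace_add, Matrix.trace_smul]
      exact Ideal.add_mem _ hx (Ideal.mul_mem_right _ _ hqm)) (fun g j => by
    show ((l : A) • a g ^ (j + 1)).trace ∈ maximalIdeal A
    rw [Matrix.trace_smul]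
    exact Ideal.mul_mem_right _ _ hlA) g
  have h1 := trace_inv hTu hT g 1
  rw [pow_one, pow_one, hg, Matrix.trace_add, Matrix.trace_smul, add_eq_left, smul_eq_mul] at h1
  have h2 := (mul_eq_zero.1 h1).resolve_left hql
  rw [Matrix.trace_add, Matrix.trace_smul, smul_eq_mul] at h2
  have h3 : (u : A) * (a g).trace ∈ maximalIdeal A := by
    rw [eq_neg_of_add_eq_zero_left h2]
    exact Ideal.neg_mem_iff _ |>.2 hω
  have h4 := unit_u hl hlA hu
  rw [← residue_eq_zero_iff] at h3 ⊢
  rw [map_mul] at h3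
  exact (mul_eq_zero.1 h3).resolve_left h4

theorem trace_two (hTu : IsUnit T) (hl : l.Prime) (hl2 : l ≠ 2) (hlA : (l : A) ∈ maximalIdeal A)
    (hl0 : (l : A) ≠ 0) (hm0 : m ≠ 0) (hu : ¬ l ∣ u) (hT : ∀ g, T * a g = a (γ g) * T)
    (hrel : Rel0 a γ l m u)
    (h3 : ∀ x y z, ((a x * a y - a y * a x) * a z).trace ∈ maximalIdeal A) (g h : H) :
    (a g * a h).trace ∈ maximalIdeal A := by
  have hql : (l : A) ^ m ≠ 0 := pow_ne_zero _ hl0
  have hqm : (l : A) ^ m ∈ maximalIdeal A := Ideal.pow_mem_of_mem _ hlA _ (Nat.pos_of_ne_zero hm0)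
  let W : Submodule A (Matrix (Fin n) (Fin n) A) :=
    { carrier := {X | ∀ z, (X * a z).trace ∈ maximalIdeal A}
      add_mem' := fun {x y} hx hy z => by
        rw [add_mul, Matrix.trace_add]
        exact Ideal.add_mem _ (hx z) (hy z)
      zero_mem' := fun z => by
        rw [zero_mul, Matrix.trace_zero]
        exact Ideal.zero_mem _
      smul_mem' := fun c x hx z => by
        rw [smul_mul_assoc, Matrix.trace_smul]
        exact Ideal.mul_mem_left _ _ (hx z) }
  have hr := hrel W (fun g h z => h3 g h z) (fun g x hx => by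
    constructor
    · intro z
      rw [add_mul, one_mul, smul_mul_assoc, add_mul, smul_mul_assoc, Matrix.trace_add,
        Matrix.trace_smul]
      exact Ideal.add_mem _ (hx z) (Ideal.mul_mem_right _ _ hqm)
    · intro z
      rw [mul_add, mul_one, mul_smul_comm, add_mul, smul_mul_assoc, Matrix.trace_add,
        Matrix.trace_smul]
      exact Ideal.add_mem _ (hx z) (Ideal.mul_mem_right _ _ hqm)) (fun g j z => by
    rw [smul_mul_assoc, Matrix.trace_smul]
    exact Ideal.mul_mem_right _ _ hlA)
  obtain ⟨ω, hω, hg⟩ := hr g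
  obtain ⟨ω', hω', hh⟩ := hr h
  have h1 := trace_inv2 hTu hT g h
  have h2 : (l : A) ^ m * (2 * (u : A) * (a g * a h).trace + (ω * a h).trace +
      (ω' * a g).trace + (l : A) ^ m * ((((u : A) • a g + ω) * ((u : A) • a h + ω')).trace)) =
      0 := by
    rw [hg, hh] at h1
    simp only [add_mul, mul_add, smul_mul_assoc, mul_smul_comm, smul_add, Matrix.trace_add,
      Matrix.trace_smul, smul_eq_mul, add_eq_left] at h1
    simp only [add_mul, mul_add, smul_mul_assoc, mul_smul_comm, smul_add, Matrix.trace_add,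
      Matrix.trace_smul, smul_eq_mul]
    rw [Matrix.trace_mul_comm ω' (a g)]
    linear_combination h1
  have h4 := (mul_eq_zero.1 h2).resolve_left hql
  have h5 : 2 * (u : A) * (a g * a h).trace ∈ maximalIdeal A := by
    have h6 : 2 * (u : A) * (a g * a h).trace = -((ω * a h).trace + (ω' * a g).trace +
        (l : A) ^ m * ((((u : A) • a g + ω) * ((u : A) • a h + ω')).trace)) := by
      linear_combination h4
    rw [h6]
    exact Ideal.neg_mem_iff _ |>.2 (Ideal.add_mem _ (Ideal.add_mem _ (hω h) (hω' g))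
      (Ideal.mul_mem_right _ _ hqm))
  have h6 : ¬ l ∣ 2 := fun hd => hl2 ((Nat.prime_dvd_prime_iff_eq hl Nat.prime_two).1 hd)
  have h7 := unit_u hl hlA h6
  have h8 := unit_u hl hlA hu
  rw [← residue_eq_zero_iff] at h5 ⊢
  rw [map_mul, map_mul] at h5
  rcases mul_eq_zero.1 h5 with h5 | h5
  · rcases mul_eq_zero.1 h5 with h5 | h5
    · exact absurd (by exact_mod_cast h5) h7
    · exact absurd h5 h8
  · exact h5

end

/-- two by two matrices -/
theorem two_mul_zero {κ : Type} [Field κ] (h2 : (2 : κ) ≠ 0) {X Y : Matrix (Fin 2) (Fin 2) κ}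
    (hX : X.trace = 0) (hY : Y.trace = 0) (hXX : (X * X).trace = 0) (hYY : (Y * Y).trace = 0)
    (hXY : (X * Y).trace = 0) : X * Y = 0 := by
  rw [Matrix.trace_fin_two] at hX hY hXX hYY hXY
  simp only [Matrix.mul_apply, Fin.sum_univ_two] at hXX hYY hXY
  set p := X 0 0
  set q := X 0 1
  set r := X 1 0
  set s := X 1 1
  set p' := Y 0 0
  set q' := Y 0 1
  set r' := Y 1 0
  set s' := Y 1 1
  have hs : s = -p := by linear_combination hX
  have hs' : s' = -p' := by linear_combination hY
  rw [hs] at hXX hXY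
  rw [hs'] at hYY hXY
  have h1 : p * p + q * r = 0 := by
    have : 2 * (p * p + q * r) = 0 := by linear_combination hXX
    exact (mul_eq_zero.1 this).resolve_left h2
  have h3 : p' * p' + q' * r' = 0 := by
    have : 2 * (p' * p' + q' * r') = 0 := by linear_combination hYY
    exact (mul_eq_zero.1 this).resolve_left h2
  have h4 : 2 * (p * p') + q * r' + r * q' = 0 := by linear_combination hXY
  have e00 : p * p' + q * r' = 0 := by
    apply pow_eq_zero_iff (two_ne_zero) |>.1
    linear_combination p' ^ 2 * h1 - q * r * h3 + q * r' * h4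
  have e01 : p * q' - q * p' = 0 := by
    apply pow_eq_zero_iff (two_ne_zero) |>.1
    linear_combination q' ^ 2 * h1 + q ^ 2 * h3 - q * q' * h4
  have e10 : r * p' - p * r' = 0 := by
    apply pow_eq_zero_iff (two_ne_zero) |>.1
    linear_combination r' ^ 2 * h1 + r ^ 2 * h3 - r * r' * h4
  have e11 : r * q' + p * p' = 0 := by
    apply pow_eq_zero_iff (two_ne_zero) |>.1
    linear_combination p' ^ 2 * h1 - q * r * h3 + r * q' * h4
  ext i j
  rw [Matrix.mul_apply, Fin.sum_univ_two, Matrix.zero_apply]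
  fin_cases i <;> fin_cases j
  · show p * p' + q * r' = 0
    exact e00
  · show p * q' + q * s' = 0
    rw [hs']
    linear_combination e01
  · show r * p' + s * r' = 0
    rw [hs]
    linear_combination e10
  · show r * q' + s * s' = 0
    rw [hs, hs']
    linear_combination e11

/-- three two by two matrices of trace zero with nonzero triple product span -/
theorem two_span {κ : Type} [Field κ] {X Y Z W : Matrix (Fin 2) (Fin 2) κ}
    (hX : X.trace = 0) (hY : Y.trace = 0) (hZ : Z.trace = 0) (hW : W.trace = 0) :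
    ((X * Y - Y * X) * Z).trace • W = (W * (Y * Z - Z * Y)).trace • X +
      (W * (Z * X - X * Z)).trace • Y + (W * (X * Y - Y * X)).trace • Z := by
  rw [Matrix.trace_fin_two] at hX hY hZ hW
  have hX' : X 1 1 = -X 0 0 := by linear_combination hX
  have hY' : Y 1 1 = -Y 0 0 := by linear_combination hY
  have hZ' : Z 1 1 = -Z 0 0 := by linear_combination hZ
  have hW' : W 1 1 = -W 0 0 := by linear_combination hW
  ext i j
  simp only [Matrix.add_apply, Matrix.smul_apply, Matrix.trace_fin_two, Matrix.mul_apply,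
    Matrix.sub_apply, Fin.sum_univ_two, smul_eq_mul, hX', hY', hZ', hW']
  fin_cases i <;> fin_cases j <;> simp [hX', hY', hZ', hW'] <;> ring

end Pool.Agent.R417.GE
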